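import Pool.Agent.Helper20_PP.Ibr
import Pool.Agent.Helper74_PP.Orbit

/-!
NLS, BRM: normal `ℓ`-subgroups act trivially; the Brauer map.
-/

open scoped BigOperators

noncomputable section

namespace Pool.Agent.PP.H20

variable {F H : Type} [Field F] [Group H]

open scoped Classical in
/-- orbit lemma for the conjugation action of a subgroup -/
theorem conj_sum {ℓ : ℕ} (hℓ : ℓ.Prime) {G V : Type} [Group G] [Fintype G] [AddCommGroup V]
    (hV : ∀ v : V, ℓ • v = 0) (R : Subgroup G) (hR : IsPGroup ℓ R) (h : G → V)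
    (hinv : ∀ r ∈ R, ∀ t, h (r * t * r⁻¹) = h t) :
    ∑ t, h t = ∑ t, if t ∈ Subgroup.centralizer (R : Set G) then h t else 0 := by
  have : Fact ℓ.Prime := ⟨hℓ⟩
  let _ : MulAction R G :=
    { smul := fun r t => r * t * (r : G)⁻¹
      one_smul := fun t => by
        show (1 : G) * t * (1 : G)⁻¹ = t
        rw [one_mul, inv_one, mul_one]
      mul_smul := fun r s t => by
        show ((r : G) * s) * t * ((r : G) * s)⁻¹ = r * (s * t * (s : G)⁻¹) * (r : G)⁻¹
        group }
  have hsm : ∀ (r : R) (t : G), r • t = r * t * (r : G)⁻¹ := fun _ _ => rfl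
  rw [Pool.Agent.PP.H74.orbit_sum hR hV h (fun r t => by rw [hsm]; exact hinv r r.2 t)]
  rw [Finset.sum_filter]
  apply Finset.sum_congr rfl
  intro t _
  have hiff : (∀ r : R, r • t = t) ↔ t ∈ Subgroup.centralizer (R : Set G) := by
    rw [Subgroup.mem_centralizer_iff]
    constructor
    · intro h1 r hr
      have := h1 ⟨r, hr⟩
      rw [hsm] at this
      have h2 : r * t * r⁻¹ = t := this
      calc r * t = r * t * r⁻¹ * r := by group
        _ = t * r := by rw [h2]
    · intro h1 r
      rw [hsm, h1 r r.2]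
      group
  by_cases ht : t ∈ Subgroup.centralizer (R : Set G)
  · rw [if_pos ht, if_pos (hiff.2 ht)]
  · rw [if_neg ht, if_neg (fun hc => ht (hiff.1 hc))]

/-- an `ℓ`-group of matrices in characteristic `ℓ` has a nonzero fixed vector -/
theorem fixed_vector {ℓ : ℕ} (hℓ : ℓ.Prime) (hF : CharP F ℓ) (R : Type) [Group R] [Finite R]
    (hR : IsPGroup ℓ R) {n : ℕ} (hn : 0 < n) (ρ : R →* Matrix (Fin n) (Fin n) F) :
    ∃ v : Fin n → F, v ≠ 0 ∧ ∀ r, (ρ r).mulVec v = v := by
  have : Fact ℓ.Prime := ⟨hℓ⟩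
  have hfin := Fintype.ofFinite R
  let _ : Algebra (ZMod ℓ) F := ZMod.algebra F ℓ
  have hn' : NeZero n := ⟨hn.ne'⟩
  let v0 : Fin n → F := fun _ => 1
  have hv0 : v0 ≠ 0 := by
    intro h
    have := congrFun h 0
    exact one_ne_zero this
  let W : Submodule (ZMod ℓ) (Fin n → F) :=
    Submodule.span (ZMod ℓ) (Set.range fun r => (ρ r).mulVec v0)
  have hWfin : Finite W := by
    have : Module.Finite (ZMod ℓ) W := Module.Finite.span_of_finite _ (Set.finite_range _)
    exact Module.finite_of_finite (ZMod ℓ)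
  have hstab : ∀ r : R, ∀ w ∈ W, (ρ r).mulVec w ∈ W := by
    intro r w hw
    induction hw using Submodule.span_induction with
    | mem x hx =>
      obtain ⟨s, rfl⟩ := hx
      apply Submodule.subset_span
      refine ⟨r * s, ?_⟩
      show (ρ (r * s)).mulVec v0 = (ρ r).mulVec ((ρ s).mulVec v0)
      rw [map_mul, Matrix.mulVec_mulVec]
    | zero => rw [Matrix.mulVec_zero]; exact W.zero_mem
    | add x y _ _ hx hy => rw [Matrix.mulVec_add]; exact W.add_mem hx hy
    | smul c x _ hx =>
      have : (ρ r).mulVec (c • x) = c • (ρ r).mulVec x := Matrix.mulVec_smul _ _ _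
      rw [this]; exact W.smul_mem c hx
  let _ : MulAction R W :=
    { smul := fun r w => ⟨(ρ r).mulVec w, hstab r w w.2⟩
      one_smul := fun w => Subtype.ext (by
        show (ρ 1).mulVec (w : Fin n → F) = w
        rw [map_one, Matrix.one_mulVec])
      mul_smul := fun r s w => Subtype.ext (by
        show (ρ (r * s)).mulVec (w : Fin n → F) = (ρ r).mulVec ((ρ s).mulVec w)
        rw [map_mul, Matrix.mulVec_mulVec]) }
  have hv0W : v0 ∈ W := Submodule.subset_span ⟨1, by
    show (ρ 1).mulVec v0 = v0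
    rw [map_one, Matrix.one_mulVec]⟩
  have hdvd : ℓ ∣ Nat.card W := by
    have h1 : addOrderOf (⟨v0, hv0W⟩ : W) = ℓ := by
      apply addOrderOf_eq_prime
      · apply Subtype.ext
        funext i
        show ((ℓ • (⟨v0, hv0W⟩ : W) : W) : Fin n → F) i = 0
        rw [Submodule.coe_smul_of_tower]
        show ℓ • (1 : F) = 0
        rw [nsmul_eq_mul, CharP.cast_eq_zero, zero_mul]
      · intro h
        exact hv0 (congrArg Subtype.val h)
    have h2 : addOrderOf (⟨v0, hv0W⟩ : W) ∣ Nat.card W := addOrderOf_dvd_natCard _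
    rw [h1] at h2
    exact h2
  obtain ⟨b, hb, hne⟩ := hR.exists_fixed_point_of_prime_dvd_card_of_fixed_point W hdvd
    (a := (0 : W)) (by
      intro r
      apply Subtype.ext
      show (ρ r).mulVec ((0 : W) : Fin n → F) = 0
      rw [ZeroMemClass.coe_zero, Matrix.mulVec_zero])
  refine ⟨b, ?_, ?_⟩
  · intro h
    apply hne
    apply Subtype.ext
    exact h.symm
  · intro r
    exact congrArg Subtype.val (hb r)

theorem nls_triv {ℓ : ℕ} (hℓ : ℓ.Prime) (hF : CharP F ℓ) [Finite H] (R : Subgroup H) (hN : R.Normal)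
    (hR : IsPGroup ℓ R) {n : ℕ} (ρ : H →* Matrix (Fin n) (Fin n) F) (hρ : IsIrr ρ) (r : H)
    (hr : r ∈ R) : ρ r = 1 := by
  obtain ⟨v, hv, hfix⟩ := fixed_vector hℓ hF R hR hρ.1 (ρ.comp R.subtype)
  have hfix' : ∀ s ∈ R, (ρ s).mulVec v = v := fun s hs => hfix ⟨s, hs⟩
  -- all multiples of `v` are fixed
  have hall : ∀ N : Matrix (Fin n) (Fin n) F, ∀ s ∈ R, (ρ s).mulVec (N.mulVec v) = N.mulVec v := by
    intro N
    have hN' : N ∈ Submodule.span F (Set.range ρ) := by rw [hρ.2]; trivial
    induction hN' using Submodule.span_induction with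
    | mem x hx =>
      obtain ⟨t, rfl⟩ := hx
      intro s hs
      have h1 : t⁻¹ * s * t ∈ R := by
        have := hN.conj_mem s hs t⁻¹
        rwa [inv_inv] at this
      have h2 := hfix' _ h1
      calc (ρ s).mulVec ((ρ t).mulVec v) = (ρ t).mulVec ((ρ (t⁻¹ * s * t)).mulVec v) := by
            rw [Matrix.mulVec_mulVec, Matrix.mulVec_mulVec, ← map_mul, ← map_mul]
            congr 2
            group
        _ = (ρ t).mulVec v := by rw [h2]
    | zero => intro s _; rw [Matrix.zero_mulVec, Matrix.mulVec_zero]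
    | add x y _ _ hx hy =>
      intro s hs
      rw [Matrix.add_mulVec, Matrix.mulVec_add, hx s hs, hy s hs]
    | smul c x _ hx =>
      intro s hs
      rw [Matrix.smul_mulVec, Matrix.mulVec_smul, hx s hs]
  obtain ⟨i, hi⟩ : ∃ i, v i ≠ 0 := by
    by_contra hc
    push Not at hc
    exact hv (funext hc)
  have hw : ∀ w : Fin n → F, (ρ r).mulVec w = w := by
    intro w
    have h1 := hall (Matrix.vecMulVec w (Pi.single i (v i)⁻¹)) r hr
    have h2 : (Matrix.vecMulVec w (Pi.single i (v i)⁻¹)).mulVec v = w := by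
      funext j
      rw [Matrix.vecMulVec_mulVec]
      rw [single_dotProduct, inv_mul_cancel₀ hi]
      simp
    rwa [h2] at h1
  apply Matrix.ext_of_mulVec_single
  intro j
  rw [hw, Matrix.one_mulVec]

theorem nls : NlsStmt := by
  intro ℓ F _ hF H _ _ R hN hR n ρ hρ
  have hch := hF.char
  have htr := nls_triv hF.prime hF.char R hN hR ρ hρ
  refine ⟨htr, fun a ha => ?_⟩
  have hfin := Fintype.ofFinite H
  classical
  have hev : ev ρ a = ev ρ (br R a) := by
    unfold ev
    rw [finsum_eq_sum_of_fintype, finsum_eq_sum_of_fintype]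
    have hV : ∀ v : Matrix (Fin n) (Fin n) F, ℓ • v = 0 := by
      intro v
      ext i j
      rw [Matrix.smul_apply, nsmul_eq_mul, CharP.cast_eq_zero, zero_mul, Matrix.zero_apply]
    rw [conj_sum hF.prime hV R hR (fun t => a t • ρ t) (fun r hr t => by
      show a (r * t * r⁻¹) • ρ (r * t * r⁻¹) = a t • ρ t
      rw [ha, map_mul, map_mul, htr r hr, htr r⁻¹ (R.inv_mem hr), one_mul, mul_one])]
    apply Finset.sum_congr rfl
    intro t _
    by_cases ht : t ∈ Subgroup.centralizer (R : Set H)
    · simp only [br, if_pos ht]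
    · simp only [br, if_neg ht, zero_smul]
  refine ⟨hev, ?_⟩
  funext x
  rw [actF_tr, actF_tr, hev]

theorem cent_conj {G : Type} [Group G] {R : Subgroup G} {x y : G}
    (hy : y ∈ Subgroup.normalizer (R : Set G)) (hx : x ∈ Subgroup.centralizer (R : Set G)) :
    y * x * y⁻¹ ∈ Subgroup.centralizer (R : Set G) := by
  rw [Subgroup.mem_centralizer_iff] at hx ⊢
  intro r hr
  have h1 : y⁻¹ * r * y ∈ R := by
    have h2 := (Subgroup.mem_normalizer_iff.1 (inv_mem hy) r).1 hr
    rwa [inv_inv] at h2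
  have h3 := hx _ h1
  calc r * (y * x * y⁻¹) = y * ((y⁻¹ * r * y) * x) * y⁻¹ := by group
    _ = y * (x * (y⁻¹ * r * y)) * y⁻¹ := by rw [h3]
    _ = y * x * y⁻¹ * r := by group

theorem cent_conj_iff {G : Type} [Group G] {R : Subgroup G} {x y : G}
    (hy : y ∈ Subgroup.normalizer (R : Set G)) :
    y * x * y⁻¹ ∈ Subgroup.centralizer (R : Set G) ↔ x ∈ Subgroup.centralizer (R : Set G) := by
  constructor
  · intro h
    have h1 := cent_conj (inv_mem hy) h
    have h2 : y⁻¹ * (y * x * y⁻¹) * y⁻¹⁻¹ = x := by group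
    rwa [h2] at h1
  · exact cent_conj hy

theorem brm : BrmStmt := by
  intro ℓ F _ hF G _ _ R X hR hCX hXN
  have hch := hF.char
  have hfin := Fintype.ofFinite G
  classical
  have h1 : ∀ a b : G → F, IsCl a → IsCl b → br R (mulF a b) = mulF (br R a) (br R b) := by
    intro a b ha hb
    funext g
    unfold mulF
    by_cases hg : g ∈ Subgroup.centralizer (R : Set G)
    · have hV : ∀ v : F, ℓ • v = 0 := by
        intro v
        rw [nsmul_eq_mul, CharP.cast_eq_zero, zero_mul]
      have h2 : br R (fun x => ∑ᶠ t, a t * b (t⁻¹ * x)) g = ∑ᶠ t, a t * b (t⁻¹ * g) := by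
        simp only [br, if_pos hg]
      rw [h2, finsum_eq_sum_of_fintype, finsum_eq_sum_of_fintype]
      rw [conj_sum hF.prime hV R hR (fun t => a t * b (t⁻¹ * g)) (fun r hr t => by
        show a (r * t * r⁻¹) * b ((r * t * r⁻¹)⁻¹ * g) = a t * b (t⁻¹ * g)
        have h3 : r * g = g * r := Subgroup.mem_centralizer_iff.1 hg r hr
        have h4 : (r * t * r⁻¹)⁻¹ * g = r * (t⁻¹ * g) * r⁻¹ := by
          have h5 : r⁻¹ * g = g * r⁻¹ := by
            calc r⁻¹ * g = r⁻¹ * (g * r) * r⁻¹ := by group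
              _ = r⁻¹ * (r * g) * r⁻¹ := by rw [h3]
              _ = g * r⁻¹ := by group
          calc (r * t * r⁻¹)⁻¹ * g = r * t⁻¹ * (r⁻¹ * g) := by group
            _ = r * t⁻¹ * (g * r⁻¹) := by rw [h5]
            _ = r * (t⁻¹ * g) * r⁻¹ := by group
        rw [ha, h4, hb])]
      apply Finset.sum_congr rfl
      intro t _
      by_cases ht : t ∈ Subgroup.centralizer (R : Set G)
      · have h6 : t⁻¹ * g ∈ Subgroup.centralizer (R : Set G) := mul_mem (inv_mem ht) hg
        simp only [br, if_pos ht, if_pos h6]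
      · simp only [br, if_neg ht, zero_mul]
    · have h2 : br R (fun x => ∑ᶠ t, a t * b (t⁻¹ * x)) g = 0 := by
        simp only [br, if_neg hg]
      rw [h2, finsum_eq_sum_of_fintype, eq_comm]
      apply Finset.sum_eq_zero
      intro t _
      by_cases ht : t ∈ Subgroup.centralizer (R : Set G)
      · have h6 : ¬ t⁻¹ * g ∈ Subgroup.centralizer (R : Set G) := by
          intro hc
          apply hg
          have h7 := mul_mem ht hc
          rwa [mul_inv_cancel_left] at h7
        simp only [br, if_neg h6, mul_zero]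
      · simp only [br, if_neg ht, zero_mul]
  have h2 : ∀ a b : G → F, (fun t : X => mulF (br R a) (br R b) t) =
      mulF (fun t : X => br R a t) (fun t : X => br R b t) := by
    intro a b
    funext x
    unfold mulF
    rw [finsum_eq_sum_of_fintype, finsum_eq_sum_of_fintype]
    symm
    apply Fintype.sum_of_injective (fun t : X => (t : G)) Subtype.val_injective
    · intro t ht
      have h3 : t ∉ Subgroup.centralizer (R : Set G) := by
        intro hc
        exact ht ⟨⟨t, hCX hc⟩, rfl⟩
      simp only [br, if_neg h3, zero_mul]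
    · intro t
      rfl
  refine ⟨h1, h2, fun e he => ⟨?_, ?_⟩⟩
  · intro x y
    show br R e ((y * x * y⁻¹ : X) : G) = br R e (x : G)
    have h3 : ((y * x * y⁻¹ : X) : G) = (y : G) * x * (y : G)⁻¹ := rfl
    rw [h3]
    by_cases hx : (x : G) ∈ Subgroup.centralizer (R : Set G)
    · have h4 := (cent_conj_iff (hXN y.2)).2 hx
      simp only [br, if_pos hx, if_pos h4]
      exact he.1 _ _
    · have h4 : ¬ (y : G) * x * (y : G)⁻¹ ∈ Subgroup.centralizer (R : Set G) :=
        fun hc => hx ((cent_conj_iff (hXN y.2)).1 hc)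
      simp only [br, if_neg hx, if_neg h4]
  · rw [← h2, ← h1 e e he.1 he.1, he.2]

end Pool.Agent.PP.H20
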