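import Pool.Agent.Helper20_PP.Ibr
import Pool.Agent.Helper74_PP.Orbit

/-!
Calculus of functions as elements of the group ring; the image of the trace map.
-/

open scoped BigOperators

noncomputable section

namespace Pool.Agent.PP.H20

variable {F H : Type} [Field F] [Group H] [Finite H]

theorem toMA_zero : toMA (0 : H → F) = 0 := (maE (F := F) (H := H)).map_zero

theorem toMA_add (a b : H → F) : toMA (a + b) = toMA a + toMA b :=
  (maE (F := F) (H := H)).map_add a b

theorem toMA_sub (a b : H → F) : toMA (a - b) = toMA a - toMA b :=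
  (maE (F := F) (H := H)).map_sub a b

theorem toMA_smul (c : F) (a : H → F) : toMA (c • a) = c • toMA a :=
  (maE (F := F) (H := H)).map_smul c a

theorem toMA_inj {a b : H → F} : toMA a = toMA b ↔ a = b := toMA_injective.eq_iff

theorem mulF_assoc (a b c : H → F) : mulF (mulF a b) c = mulF a (mulF b c) := by
  apply toMA_injective
  rw [toMA_mulF, toMA_mulF, toMA_mulF, toMA_mulF, mul_assoc]

theorem mulF_add (a b c : H → F) : mulF a (b + c) = mulF a b + mulF a c := by
  apply toMA_injective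
  rw [toMA_mulF, toMA_add, toMA_add, toMA_mulF, toMA_mulF, mul_add]

theorem add_mulF (a b c : H → F) : mulF (a + b) c = mulF a c + mulF b c := by
  apply toMA_injective
  rw [toMA_mulF, toMA_add, toMA_add, toMA_mulF, toMA_mulF, add_mul]

theorem mulF_sub (a b c : H → F) : mulF a (b - c) = mulF a b - mulF a c := by
  apply toMA_injective
  rw [toMA_mulF, toMA_sub, toMA_sub, toMA_mulF, toMA_mulF, mul_sub]

theorem sub_mulF (a b c : H → F) : mulF (a - b) c = mulF a c - mulF b c := by
  apply toMA_injective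
  rw [toMA_mulF, toMA_sub, toMA_sub, toMA_mulF, toMA_mulF, sub_mul]

theorem mulF_zero (a : H → F) : mulF a 0 = 0 := by
  apply toMA_injective
  rw [toMA_mulF, toMA_zero, mul_zero]

theorem zero_mulF (a : H → F) : mulF 0 a = 0 := by
  apply toMA_injective
  rw [toMA_mulF, toMA_zero, zero_mul]

theorem mulF_smul (c : F) (a b : H → F) : mulF a (c • b) = c • mulF a b := by
  apply toMA_injective
  rw [toMA_mulF, toMA_smul, toMA_smul, toMA_mulF, mul_smul_comm]

theorem smul_mulF (c : F) (a b : H → F) : mulF (c • a) b = c • mulF a b := by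
  apply toMA_injective
  rw [toMA_mulF, toMA_smul, toMA_smul, toMA_mulF, smul_mul_assoc]

theorem single_mul_toMA (g : H) (a : H → F) :
    MonoidAlgebra.single g (1 : F) * toMA a = toMA (fun y => a (g⁻¹ * y)) := by
  apply MonoidAlgebra.coeff_injective
  ext y
  rw [toMA_coeff]
  have := MonoidAlgebra.coeff_single_mul_apply (toMA a) (1 : F) g y
  rw [one_mul] at this
  exact this

theorem toMA_mul_single (g : H) (a : H → F) :
    toMA a * MonoidAlgebra.single g (1 : F) = toMA (fun y => a (y * g⁻¹)) := by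
  apply MonoidAlgebra.coeff_injective
  ext y
  rw [toMA_coeff]
  have := MonoidAlgebra.coeff_mul_single_apply (toMA a) (1 : F) g y
  rw [mul_one] at this
  exact this

/-- class functions are the central elements -/
theorem isCl_iff (a : H → F) : IsCl a ↔ ∀ x : MonoidAlgebra F H, toMA a * x = x * toMA a := by
  have := Fintype.ofFinite H
  constructor
  · intro ha x
    obtain ⟨c, rfl⟩ := toMA_surjective x
    rw [toMA_eq c, Finset.mul_sum, Finset.sum_mul]
    apply Finset.sum_congr rfl
    intro g _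
    have h1 : MonoidAlgebra.single g (c g) = c g • MonoidAlgebra.single g (1 : F) := by
      rw [MonoidAlgebra.smul_single, smul_eq_mul, mul_one]
    rw [h1, mul_smul_comm, smul_mul_assoc, toMA_mul_single, single_mul_toMA]
    congr 2
    funext y
    have := ha (g⁻¹ * y) g
    rw [← this]
    congr 1
    group
  · intro h x y
    have h1 := h (MonoidAlgebra.single y (1 : F))
    rw [toMA_mul_single, single_mul_toMA, toMA_inj] at h1
    have h2 := congrFun h1 (y * x)
    have h3 : a (y * x * y⁻¹) = a (y⁻¹ * (y * x)) := h2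
    rw [h3]
    congr 1
    group

theorem mulF_comm_of_cl {a : H → F} (ha : IsCl a) (b : H → F) : mulF a b = mulF b a := by
  apply toMA_injective
  rw [toMA_mulF, toMA_mulF]
  exact (isCl_iff a).1 ha _

theorem isCl_mulF {a b : H → F} (ha : IsCl a) (hb : IsCl b) : IsCl (mulF a b) := by
  rw [isCl_iff] at *
  intro x
  rw [toMA_mulF, mul_assoc, hb, ← mul_assoc, ha, mul_assoc]

omit [Finite H] in
theorem isCl_sum {ι : Type*} (s : Finset ι) {a : ι → H → F} (ha : ∀ i ∈ s, IsCl (a i)) :
    IsCl (∑ i ∈ s, a i) := (cfs F H).sum_mem ha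

omit [Finite H] in
theorem isCl_smul (c : F) {a : H → F} (ha : IsCl a) : IsCl (c • a) := (cfs F H).smul_mem c ha

omit [Finite H] in
theorem isCl_sub {a b : H → F} (ha : IsCl a) (hb : IsCl b) : IsCl (a - b) :=
  (cfs F H).sub_mem ha hb

omit [Finite H] in
theorem isCl_add {a b : H → F} (ha : IsCl a) (hb : IsCl b) : IsCl (a + b) :=
  (cfs F H).add_mem ha hb

omit [Finite H] in
theorem isCl_zero : IsCl (0 : H → F) := (cfs F H).zero_mem

/-- the trace map -/
def Trc (w : H → F) : H → F := fun y => ∑ᶠ n, w (n⁻¹ * y * n)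

theorem toMA_Trc (w : H → F) [Fintype H] : toMA (Trc w) =
    ∑ n : H, MonoidAlgebra.single n (1 : F) * toMA w * MonoidAlgebra.single n⁻¹ (1 : F) := by
  apply MonoidAlgebra.coeff_injective
  ext y
  rw [toMA_coeff, MonoidAlgebra.coeff_sum, Finsupp.finsetSum_apply, Trc, finsum_eq_sum_of_fintype]
  apply Finset.sum_congr rfl
  intro n _
  rw [single_mul_toMA, toMA_mul_single, toMA_coeff]
  congr 1
  group

omit [Finite H] in
theorem card_conj_eq {y z : H} (n0 : H) (h0 : n0⁻¹ * y * n0 = z) :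
    Nat.card {n : H // n⁻¹ * y * n = z} = Nat.card (Subgroup.centralizer ({y} : Set H)) := by
  apply Nat.card_congr
  refine
    { toFun := fun n => ⟨n.1 * n0⁻¹, ?_⟩
      invFun := fun c => ⟨c.1 * n0, ?_⟩
      left_inv := fun n => Subtype.ext (by
        show n.1 * n0⁻¹ * n0 = n.1
        group)
      right_inv := fun c => Subtype.ext (by
        show c.1 * n0 * n0⁻¹ = c.1
        group) }
  · rw [Subgroup.mem_centralizer_singleton_iff]
    have h1 : n.1⁻¹ * y * n.1 = n0⁻¹ * y * n0 := n.2.trans h0.symm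
    calc n.1 * n0⁻¹ * y = n.1 * (n0⁻¹ * y * n0) * n0⁻¹ := by group
      _ = n.1 * (n.1⁻¹ * y * n.1) * n0⁻¹ := by rw [h1]
      _ = y * (n.1 * n0⁻¹) := by group
  · have h1 := Subgroup.mem_centralizer_singleton_iff.1 c.2
    calc (c.1 * n0)⁻¹ * y * (c.1 * n0) = n0⁻¹ * c.1⁻¹ * (y * c.1) * n0 := by group
      _ = n0⁻¹ * c.1⁻¹ * (c.1 * y) * n0 := by rw [h1]
      _ = n0⁻¹ * y * n0 := by group
      _ = z := h0

/-- the support condition -/
def Sup0 (ℓ : ℕ) {N : Type} [Group N] (a : N → F) : Prop :=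
  ∀ x, ℓ ∣ Nat.card (Subgroup.centralizer ({x} : Set N)) → a x = 0

theorem isCl_Trc (w : H → F) : IsCl (Trc w) := by
  have := Fintype.ofFinite H
  intro x y
  simp only [Trc, finsum_eq_sum_of_fintype]
  apply Fintype.sum_equiv (Equiv.mulLeft y⁻¹)
  intro n
  show w (n⁻¹ * (y * x * y⁻¹) * n) = w ((y⁻¹ * n)⁻¹ * x * (y⁻¹ * n))
  congr 1
  group

theorem sup0_Trc {ℓ : ℕ} (hℓ : ℓ.Prime) (hF : CharP F ℓ) (w : H → F) : Sup0 ℓ (Trc w) := by
  have hfin := Fintype.ofFinite H
  have : Fact ℓ.Prime := ⟨hℓ⟩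
  classical
  intro y hy
  obtain ⟨c, hc⟩ := exists_prime_orderOf_dvd_card' ℓ hy
  have hV : ∀ v : F, ℓ • v = 0 := by
    intro v
    rw [nsmul_eq_mul, CharP.cast_eq_zero, zero_mul]
  let R : Subgroup H := Subgroup.zpowers (c : H)
  have hco : orderOf (c : H) = ℓ := by rw [Subgroup.orderOf_coe, hc]
  have hR : IsPGroup ℓ R := by
    apply IsPGroup.of_card (n := 1)
    rw [Nat.card_zpowers, hco, pow_one]
  have hRy : ∀ r ∈ R, r⁻¹ * y * r = y := by
    intro r hr
    have h1 : r ∈ Subgroup.centralizer ({y} : Set H) := by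
      have : R ≤ Subgroup.centralizer ({y} : Set H) := by
        rw [Subgroup.zpowers_le]
        exact c.2
      exact this hr
    have h2 := Subgroup.mem_centralizer_singleton_iff.1 h1
    calc r⁻¹ * y * r = r⁻¹ * (y * r) := by group
      _ = r⁻¹ * (r * y) := by rw [h2]
      _ = y := by group
  let _ : MulAction R H :=
    { smul := fun r t => (r : H) * t
      one_smul := fun t => one_mul t
      mul_smul := fun r s t => mul_assoc (r : H) s t }
  have hsm : ∀ (r : R) (t : H), r • t = (r : H) * t := fun _ _ => rfl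
  rw [Trc, finsum_eq_sum_of_fintype]
  rw [Pool.Agent.PP.H74.orbit_sum hR hV (fun n => w (n⁻¹ * y * n)) (fun r t => by
    rw [hsm]
    show w (((r : H) * t)⁻¹ * y * ((r : H) * t)) = w (t⁻¹ * y * t)
    congr 1
    calc ((r : H) * t)⁻¹ * y * ((r : H) * t) = t⁻¹ * ((r : H)⁻¹ * y * r) * t := by group
      _ = t⁻¹ * y * t := by rw [hRy r r.2])]
  apply Finset.sum_eq_zero
  intro t ht
  exfalso
  have h1 := (Finset.mem_filter.1 ht).2 ⟨(c : H), Subgroup.mem_zpowers _⟩
  rw [hsm] at h1
  have h2 : (c : H) = 1 := by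
    have h3 : (c : H) * t = t := h1
    exact mul_eq_right.1 h3
  rw [h2, orderOf_one] at hco
  exact hℓ.one_lt.ne hco

/-- class functions with the support condition are traces -/
theorem exists_Trc {ℓ : ℕ} (hℓ : ℓ.Prime) (hF : CharP F ℓ) {a : H → F} (ha : IsCl a)
    (hs : Sup0 ℓ a) : ∃ w, a = Trc w := by
  have hfin := Fintype.ofFinite H
  classical
  let o : H → H := fun x => Quotient.out (ConjClasses.mk x)
  have ho : ∀ x, ∃ n : H, n⁻¹ * x * n = o x := by
    intro x
    have h1 : ConjClasses.mk (o x) = ConjClasses.mk x := Quotient.out_eq _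
    obtain ⟨c, hc⟩ := isConj_iff.1 (ConjClasses.mk_eq_mk_iff_isConj.1 h1)
    refine ⟨c, ?_⟩
    calc c⁻¹ * x * c = c⁻¹ * (c * o x * c⁻¹) * c := by rw [hc]
      _ = o x := by group
  have hoo : ∀ x n, o (n⁻¹ * x * n) = o x := by
    intro x n
    have : ConjClasses.mk (n⁻¹ * x * n) = ConjClasses.mk x := by
      rw [ConjClasses.mk_eq_mk_iff_isConj, isConj_iff]
      exact ⟨n, by group⟩
    show Quotient.out (ConjClasses.mk (n⁻¹ * x * n)) = Quotient.out (ConjClasses.mk x)
    rw [this]
  refine ⟨fun x => if x = o x then a x * (Nat.card (Subgroup.centralizer ({x} : Set H)) : F)⁻¹ else 0,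
    ?_⟩
  funext y
  obtain ⟨n0, hn0⟩ := ho y
  have hn1 : n0 * o y * n0⁻¹ = y := by
    calc n0 * o y * n0⁻¹ = n0 * (n0⁻¹ * y * n0) * n0⁻¹ := by rw [hn0]
      _ = y := by group
  have hcard := card_conj_eq n0 hn0
  have hay : a (o y) = a y := by
    rw [← hn0]
    have := ha y n0⁻¹
    rwa [inv_inv] at this
  have hcy : Nat.card (Subgroup.centralizer ({o y} : Set H)) =
      Nat.card (Subgroup.centralizer ({y} : Set H)) := by
    have h1 := card_conj_eq (y := y) (z := o y) n0 hn0
    have h2 := card_conj_eq (y := o y) (z := o y) 1 (by group)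
    rw [← h1, ← h2]
    apply Nat.card_congr
    refine
      { toFun := fun n => ⟨n0 * n.1, ?_⟩
        invFun := fun n => ⟨n0⁻¹ * n.1, ?_⟩
        left_inv := fun n => Subtype.ext (by
          show n0⁻¹ * (n0 * n.1) = n.1
          group)
        right_inv := fun n => Subtype.ext (by
          show n0 * (n0⁻¹ * n.1) = n.1
          group) }
    · calc (n0 * n.1)⁻¹ * y * (n0 * n.1) = n.1⁻¹ * (n0⁻¹ * y * n0) * n.1 := by group
        _ = n.1⁻¹ * (o y) * n.1 := by rw [hn0]
        _ = o y := n.2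
    · calc (n0⁻¹ * n.1)⁻¹ * o y * (n0⁻¹ * n.1) = n.1⁻¹ * (n0 * o y * n0⁻¹) * n.1 := by group
        _ = n.1⁻¹ * y * n.1 := by rw [hn1]
        _ = o y := n.2
  have hsum : Trc (fun x => if x = o x then
      a x * (Nat.card (Subgroup.centralizer ({x} : Set H)) : F)⁻¹ else 0) y =
      ∑ n : H, if n⁻¹ * y * n = o y then
        a y * (Nat.card (Subgroup.centralizer ({y} : Set H)) : F)⁻¹ else 0 := by
    rw [Trc, finsum_eq_sum_of_fintype]
    apply Finset.sum_congr rfl
    intro n _
    show (if n⁻¹ * y * n = o (n⁻¹ * y * n) then _ else _) = _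
    rw [hoo]
    by_cases h : n⁻¹ * y * n = o y
    · rw [if_pos h, if_pos h, h, hay, hcy]
    · rw [if_neg h, if_neg h]
  rw [hsum, Finset.sum_ite, Finset.sum_const_zero, add_zero, Finset.sum_const, nsmul_eq_mul]
  have hc2 : (Finset.univ.filter fun n : H => n⁻¹ * y * n = o y).card =
      Nat.card (Subgroup.centralizer ({y} : Set H)) := by
    rw [← hcard, Nat.card_eq_fintype_card, Fintype.card_subtype]
  rw [hc2]
  by_cases h : ℓ ∣ Nat.card (Subgroup.centralizer ({y} : Set H))
  · rw [hs y h, zero_mul, mul_zero]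
  · have h1 : (Nat.card (Subgroup.centralizer ({y} : Set H)) : F) ≠ 0 := by
      rw [Ne, CharP.cast_eq_zero_iff F ℓ]
      exact h
    rw [mul_comm (a y), ← mul_assoc, mul_inv_cancel₀ h1, one_mul]

/-- the image of the trace map is an ideal -/
theorem mulF_Trc {z : H → F} (hz : IsCl z) (w : H → F) : mulF z (Trc w) = Trc (mulF z w) := by
  have hfin := Fintype.ofFinite H
  apply toMA_injective
  rw [toMA_mulF, toMA_Trc, toMA_Trc, Finset.mul_sum, toMA_mulF]
  apply Finset.sum_congr rfl
  intro n _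
  have h1 := (isCl_iff z).1 hz (MonoidAlgebra.single n (1 : F))
  rw [← mul_assoc, ← mul_assoc, h1, mul_assoc (MonoidAlgebra.single n (1 : F))]

theorem sup0_mulF {ℓ : ℕ} (hℓ : ℓ.Prime) (hF : CharP F ℓ) {z a : H → F} (hz : IsCl z) (ha : IsCl a)
    (hs : Sup0 ℓ a) : Sup0 ℓ (mulF z a) := by
  obtain ⟨w, rfl⟩ := exists_Trc hℓ hF ha hs
  rw [mulF_Trc hz]
  exact sup0_Trc hℓ hF _

end Pool.Agent.PP.H20
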