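import Pool.Agent.Helper20_PP.Fun

/-!
MAT: blocks of defect zero are matrix algebras.
-/

open scoped BigOperators

noncomputable section

namespace Pool.Agent.PP.H20

section abs

variable {F : Type} [Field F]

/-- the complement of a kernel -/
theorem mat_abs {A : Type} [Ring A] [Algebra F A] {N : Type} [Group N] [Fintype N] (g : N →* A)
    (hg : Submodule.span F (Set.range g) = ⊤) {n : ℕ} (ρ : A →ₐ[F] Matrix (Fin n) (Fin n) F)
    (hρ : Function.Surjective ρ) (b w : A) (hb : ∀ x, b * x = x * b) (hbb : b * b = b)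
    (hbw : b = ∑ m, g m * w * g m⁻¹) (hρb : ρ b = 1) :
    ∃ f : A, (∀ x, f * x = x * f) ∧ f * f = f ∧ f * b = f ∧ ρ f = 0 ∧
      ∀ a, ρ a = 0 → a * b * f = a * b := by
  obtain ⟨σ, hσ⟩ := ρ.toLinearMap.exists_rightInverse_of_surjective
    (LinearMap.range_eq_top.2 hρ)
  have hσ' : ∀ X, ρ (σ X) = X := fun X => LinearMap.congr_fun hσ X
  -- left section
  let τ : Matrix (Fin n) (Fin n) F →ₗ[F] A :=
    { toFun := fun X => ∑ m, g m * w * σ (ρ (g m⁻¹) * X) * b
      map_add' := by
        intro X Y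
        rw [← Finset.sum_add_distrib]
        apply Finset.sum_congr rfl
        intro m _
        rw [mul_add, map_add, mul_add, add_mul]
      map_smul' := by
        intro c X
        rw [Finset.smul_sum]
        apply Finset.sum_congr rfl
        intro m _
        rw [mul_smul_comm, map_smul, mul_smul_comm, smul_mul_assoc]
        rfl }
  have hτ : ∀ X, τ X = ∑ m, g m * w * σ (ρ (g m⁻¹) * X) * b := fun _ => rfl
  have hτρ : ∀ X, ρ (τ X) = X := by
    intro X
    have h1 : ρ b * X = X := by rw [hρb, one_mul]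
    rw [hbw, map_sum, Finset.sum_mul] at h1
    rw [hτ, map_sum]
    refine Eq.trans (Finset.sum_congr rfl fun m _ => ?_) h1
    rw [map_mul, map_mul, hσ', hρb, mul_one, map_mul _ (g m * w) (g m⁻¹), mul_assoc]
  have hτg : ∀ k X, τ (ρ (g k) * X) = g k * τ X := by
    intro k X
    rw [hτ, hτ, Finset.mul_sum]
    symm
    apply Fintype.sum_equiv (Equiv.mulLeft k)
    intro m
    show g k * (g m * w * σ (ρ (g m⁻¹) * X) * b) =
      g (k * m) * w * σ (ρ (g (k * m)⁻¹) * (ρ (g k) * X)) * b
    have h1 : ρ (g (k * m)⁻¹) * (ρ (g k) * X) = ρ (g m⁻¹) * X := by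
      rw [← mul_assoc, ← map_mul, ← map_mul]
      congr 3
      group
    rw [h1, map_mul g k m]
    noncomm_ring
  have hτa : ∀ a X, τ (ρ a * X) = a * τ X := by
    intro a X
    have ha : a ∈ Submodule.span F (Set.range g) := by rw [hg]; trivial
    induction ha using Submodule.span_induction with
    | mem x hx =>
      obtain ⟨k, rfl⟩ := hx
      exact hτg k X
    | zero => rw [map_zero, zero_mul, map_zero, zero_mul]
    | add x y _ _ hx hy => rw [map_add, add_mul, map_add, hx, hy, add_mul]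
    | smul c x _ hx => rw [map_smul, smul_mul_assoc, map_smul, hx, smul_mul_assoc]
  have hτb : τ 1 * b = τ 1 := by
    rw [hτ, Finset.sum_mul]
    apply Finset.sum_congr rfl
    intro m _
    rw [mul_assoc, hbb]
  -- right section
  let τ' : Matrix (Fin n) (Fin n) F →ₗ[F] A :=
    { toFun := fun X => ∑ m, b * σ (X * ρ (g m)) * w * g m⁻¹
      map_add' := by
        intro X Y
        rw [← Finset.sum_add_distrib]
        apply Finset.sum_congr rfl
        intro m _
        rw [add_mul, map_add, mul_add, add_mul, add_mul]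
      map_smul' := by
        intro c X
        rw [Finset.smul_sum]
        apply Finset.sum_congr rfl
        intro m _
        rw [smul_mul_assoc, map_smul, mul_smul_comm, smul_mul_assoc, smul_mul_assoc]
        rfl }
  have hτ' : ∀ X, τ' X = ∑ m, b * σ (X * ρ (g m)) * w * g m⁻¹ := fun _ => rfl
  have hτρ' : ∀ X, ρ (τ' X) = X := by
    intro X
    have h1 : X * ρ b = X := by rw [hρb, mul_one]
    rw [hbw, map_sum, Finset.mul_sum] at h1
    rw [hτ', map_sum]
    refine Eq.trans (Finset.sum_congr rfl fun m _ => ?_) h1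
    rw [map_mul, map_mul, map_mul, hσ', hρb, one_mul, map_mul _ (g m * w) (g m⁻¹), map_mul _ (g m)]
    noncomm_ring
  have hτg' : ∀ k X, τ' (X * ρ (g k)) = τ' X * g k := by
    intro k X
    rw [hτ', hτ', Finset.sum_mul]
    apply Fintype.sum_equiv (Equiv.mulLeft k)
    intro m
    show b * σ (X * ρ (g k) * ρ (g m)) * w * g m⁻¹ =
      b * σ (X * ρ (g (k * m))) * w * g (k * m)⁻¹ * g k
    have h1 : g (k * m)⁻¹ * g k = g m⁻¹ := by
      rw [← map_mul]
      congr 1
      group
    rw [mul_assoc _ (g (k * m)⁻¹) (g k), h1, map_mul g k m, map_mul ρ (g k) (g m), mul_assoc X]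
  have hτa' : ∀ a X, τ' (X * ρ a) = τ' X * a := by
    intro a X
    have ha : a ∈ Submodule.span F (Set.range g) := by rw [hg]; trivial
    induction ha using Submodule.span_induction with
    | mem x hx =>
      obtain ⟨k, rfl⟩ := hx
      exact hτg' k X
    | zero => rw [map_zero, mul_zero, map_zero, mul_zero]
    | add x y _ _ hx hy => rw [map_add, mul_add, map_add, hx, hy, mul_add]
    | smul c x _ hx => rw [map_smul, mul_smul_comm, map_smul, hx, mul_smul_comm]
  have hτb' : b * τ' 1 = τ' 1 := by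
    rw [hτ', Finset.mul_sum]
    apply Finset.sum_congr rfl
    intro m _
    rw [← mul_assoc, ← mul_assoc, ← mul_assoc, hbb]
  -- the idempotents
  have hl : ∀ a, ρ a = 0 → a * b * (b - τ 1) = a * b := by
    intro a ha
    have h1 : a * b * τ 1 = 0 := by
      rw [← hτa, map_mul ρ a b, ha, zero_mul, zero_mul, map_zero]
    rw [mul_sub, h1, sub_zero, mul_assoc, hbb]
  have hr : ∀ a, ρ a = 0 → (b - τ' 1) * (b * a) = b * a := by
    intro a ha
    have h1 : τ' 1 * (b * a) = 0 := by
      rw [← hτa', map_mul ρ b a, ha, mul_zero, mul_zero, map_zero]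
    rw [sub_mul, h1, sub_zero, ← mul_assoc, hbb]
  have hf0 : ρ (b - τ 1) = 0 := by rw [map_sub, hτρ, hρb, sub_self]
  have hf0' : ρ (b - τ' 1) = 0 := by rw [map_sub, hτρ', hρb, sub_self]
  have hfb : (b - τ 1) * b = b - τ 1 := by rw [sub_mul, hbb, hτb]
  have hfb' : b * (b - τ' 1) = b - τ' 1 := by rw [mul_sub, hbb, hτb']
  have hbf : b * (b - τ 1) = b - τ 1 := by rw [hb, hfb]
  have hfb'' : (b - τ' 1) * b = b - τ' 1 := by rw [← hb, hfb']
  have hff : b - τ 1 = b - τ' 1 := by
    have h1 := hr _ hf0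
    rw [hbf] at h1
    have h2 := hl _ hf0'
    rw [hfb''] at h2
    rw [← h1, h2]
  have hxf : ∀ x, ρ x = 0 → x * b = x → x * (b - τ 1) = x := by
    intro x hx hxb
    have := hl x hx
    rwa [hxb] at this
  have hfx : ∀ x, ρ x = 0 → b * x = x → (b - τ 1) * x = x := by
    intro x hx hxb
    have := hr x hx
    rw [hxb] at this
    rwa [hff]
  refine ⟨b - τ 1, ?_, ?_, hfb, hf0, hl⟩
  · intro x
    have h1 : x * (b - τ 1) * b = x * (b - τ 1) := by rw [mul_assoc, hfb]
    have h2 : b * (x * (b - τ 1)) = x * (b - τ 1) := by rw [hb, h1]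
    have h3 : b * ((b - τ 1) * x) = (b - τ 1) * x := by rw [← mul_assoc, hbf]
    have h4 : (b - τ 1) * x * b = (b - τ 1) * x := by rw [← hb, h3]
    have h5 := hfx (x * (b - τ 1)) (by rw [map_mul, hf0, mul_zero]) h2
    have h6 := hxf ((b - τ 1) * x) (by rw [map_mul, hf0, zero_mul]) h4
    rw [← h5, ← mul_assoc, h6]
  · exact hxf _ hf0 hfb

end abs

section blk

variable {F N : Type} [Field F] [Group N] [Finite N]

/-- a block has an irreducible representation -/
theorem blk_rep {ℓ : ℕ} (hF : GoodF ℓ F) {b : N → F} (hb : IsIdem b) (h0 : b ≠ 0) :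
    ∃ (n : ℕ) (ρ : N →* Matrix (Fin n) (Fin n) F), IsIrr ρ ∧ ev ρ b = 1 := by
  by_contra hc
  push Not at hc
  apply h0
  obtain ⟨k, hk⟩ := ibn ℓ F hF N b (by
    intro n ρ hρ
    obtain ⟨w, hw, -, h2⟩ := eig F N n ρ hρ b hb.1
    rcases h2 hb with h | h
    · rw [hw, h, map_zero]
    · exfalso
      apply hc n ρ hρ
      rw [hw, h, map_one])
  have h1 : ∀ k : ℕ, (mulF b)^[k] b = b := by
    intro k
    induction k with
    | zero => rfl
    | succ k ih => rw [Function.iterate_succ_apply', ih, hb.2]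
  rw [← h1 k, hk]

/-- a block of defect zero is a matrix algebra -/
theorem mat {ℓ : ℕ} (hF : GoodF ℓ F) {b : N → F} (hb : IsBlk b) (hs : Sup0 ℓ b) {n : ℕ}
    {ρ : N →* Matrix (Fin n) (Fin n) F} (hρ : IsIrr ρ) (hρb : ev ρ b = 1) {a : N → F}
    (ha : ev ρ a = 0) : mulF a b = 0 := by
  have hfin := Fintype.ofFinite N
  have hN : NeZero n := ⟨hρ.1.ne'⟩
  obtain ⟨w, hw⟩ := exists_Trc hF.prime hF.char hb.1.1 hs
  have hspan : Submodule.span F (Set.range (MonoidAlgebra.of F N)) = ⊤ := by
    rw [eq_top_iff]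
    rintro x -
    obtain ⟨c, rfl⟩ := toMA_surjective x
    rw [toMA_eq c]
    apply Submodule.sum_mem
    intro g _
    have h1 : MonoidAlgebra.single g (c g) = c g • MonoidAlgebra.of F N g := by
      rw [MonoidAlgebra.of_apply, MonoidAlgebra.smul_single, smul_eq_mul, mul_one]
    rw [h1]
    exact Submodule.smul_mem _ _ (Submodule.subset_span ⟨g, rfl⟩)
  obtain ⟨f, hfc, hff, hfb, hf0, hfa⟩ := mat_abs (MonoidAlgebra.of F N) hspan
    (MonoidAlgebra.lift F (Matrix (Fin n) (Fin n) F) N ρ) ((lift_surjective ρ).2 hρ.2) (toMA b)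
    (toMA w) ((isCl_iff b).1 hb.1.1) (by rw [← toMA_mulF, hb.1.2]) (by
      rw [hw, toMA_Trc]
      rfl) (by rw [lift_toMA, hρb])
  obtain ⟨g, rfl⟩ := toMA_surjective f
  have hg : IsIdem g := ⟨(isCl_iff g).2 hfc, toMA_injective (by rw [toMA_mulF, hff])⟩
  have hbg : mulF b g = g := by
    rw [mulF_comm_of_cl hb.1.1]
    apply toMA_injective
    rw [toMA_mulF, hfb]
  have hg0 : g = 0 := by
    rcases hb.2.2 g hg with h | h
    · exfalso
      rw [hbg] at h
      rw [h, lift_toMA, hρb] at hf0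
      exact one_ne_zero hf0
    · rw [← hbg, h]
  have h1 := hfa (toMA a) (by rw [lift_toMA, ha])
  rw [hg0, toMA_zero, mul_zero, ← toMA_mulF] at h1
  apply toMA_injective
  rw [← h1, toMA_zero]

/-- central elements act on a block of defect zero by scalars -/
theorem mat_central {ℓ : ℕ} (hF : GoodF ℓ F) {b : N → F} (hb : IsBlk b) (hs : Sup0 ℓ b) {n : ℕ}
    {ρ : N →* Matrix (Fin n) (Fin n) F} (hρ : IsIrr ρ) (hρb : ev ρ b = 1) {z : N → F}
    (hz : IsCl z) : ∃ w : F, ev ρ z = Matrix.scalar (Fin n) w ∧ mulF z b = w • b := by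
  obtain ⟨w, hw, -, -⟩ := eig F N n ρ hρ z hz
  refine ⟨w, hw, ?_⟩
  have h1 : ev ρ (z - w • b) = 0 := by
    rw [← lift_toMA, toMA_sub, toMA_smul, map_sub, map_smul, lift_toMA, lift_toMA, hw, hρb,
      Matrix.scalar_apply, Matrix.smul_one_eq_diagonal, sub_self]
  have h2 := mat hF hb hs hρ hρb h1
  rw [sub_mulF, smul_mulF, hb.1.2, sub_eq_zero] at h2
  exact h2

/-- uniqueness of the irreducible representation -/
theorem mat_unique {ℓ : ℕ} (hF : GoodF ℓ F) {b : N → F} (hb : IsBlk b) (hs : Sup0 ℓ b) {n m : ℕ}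
    {ρ : N →* Matrix (Fin n) (Fin n) F} (hρ : IsIrr ρ) (hρb : ev ρ b = 1)
    {ρ' : N →* Matrix (Fin m) (Fin m) F} (hρ' : IsIrr ρ') (hρb' : ev ρ' b = 1) :
    tr ρ = tr ρ' := by
  by_contra hne
  have hN : NeZero n := ⟨hρ.1.ne'⟩
  have hM : NeZero m := ⟨hρ'.1.ne'⟩
  let d : Bool → ℕ := fun i => if i then n else m
  let P : ∀ i : Bool, N →* Matrix (Fin (d i)) (Fin (d i)) F := fun i =>
    match i with
    | true => ρ
    | false => ρ'
  obtain ⟨a, ha⟩ := ibj ℓ F hF N Bool d P (by
    intro i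
    match i with
    | true => exact hρ
    | false => exact hρ') (by
    intro i j hij
    match i, j with
    | true, true => rfl
    | false, false => rfl
    | true, false => exact absurd hij hne
    | false, true => exact absurd hij.symm hne) (fun i =>
      match i with
      | true => (0 : Matrix (Fin n) (Fin n) F)
      | false => (1 : Matrix (Fin m) (Fin m) F))
  have h1 : ev ρ a = 0 := ha true
  have h2 : ev ρ' a = 1 := ha false
  have h3 := mat hF hb hs hρ hρb h1
  have h4 : ev ρ' (mulF a b) = 1 := by rw [ev_mulF, h2, hρb', one_mul]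
  rw [h3] at h4
  have h5 : ev ρ' (0 : N → F) = 0 := by rw [← lift_toMA, toMA_zero, map_zero]
  rw [h5] at h4
  exact zero_ne_one h4

end blk

end Pool.Agent.PP.H20
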