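import Pool.Agent.Helper18_PP.StmtsDZ
import Pool.Agent.Helper20_PP.Mat

/-!
MAT, PCI: the statements of part DZ.
-/

open scoped BigOperators

noncomputable section

namespace Pool.Agent.PP.H20

theorem matS : MatStmt := by
  intro ℓ F _ hF N _ _ b hb
  have hs : Sup0 ℓ b := hb.2.2
  refine ⟨blk_rep hF hb.1.1 hb.1.2.1, ?_, ?_, ?_⟩
  · intro n ρ hρ hρb a ha
    exact mat hF hb.1 hs hρ hρb ha
  · intro n m ρ σ hρ hσ hρb hσb
    exact mat_unique hF hb.1 hs hρ hρb hσ hσb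
  · intro z hz
    obtain ⟨n, ρ, hρ, hρb⟩ := blk_rep hF hb.1.1 hb.1.2.1
    obtain ⟨w, -, hw⟩ := mat_central hF hb.1 hs hρ hρb hz
    exact ⟨w, hw⟩

theorem pci : PciStmt := by
  intro ℓ F _ hF N _ _ a z ha hz
  have h1 : PrC ℓ (mulF z a) :=
    ⟨isCl_mulF hz ha.1, sup0_mulF hF.prime hF.char hz ha.1 ha.2⟩
  refine ⟨h1, ?_⟩
  rw [mulF_comm_of_cl ha.1]
  exact h1

end Pool.Agent.PP.H20
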