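import Pool.Agent.Helper20_PP.Mov
import Pool.Agent.Helper94_PP.Nch

/-!
RST (J7.3): restriction to a subgroup containing `Y`.
-/

open scoped BigOperators

noncomputable section

namespace Pool.Agent.PP.H20

open Pool.Agent.Helper51_AWC Pool.Agent.Helper79_WRA Pool.Agent.PP.H94

/-! ### transport along isomorphisms -/

section iso

variable {F H K : Type} [Field F] [Group H] [Group K]

theorem mulF_equiv (e : H ≃* K) (a b : K → F) :
    mulF (fun h => a (e h)) (fun h => b (e h)) = fun h => mulF a b (e h) := by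
  funext h
  unfold mulF
  rw [← finsum_comp_equiv e.toEquiv (f := fun t => a t * b (t⁻¹ * e h))]
  apply finsum_congr
  intro t
  show a (e t) * b (e (t⁻¹ * h)) = a (e t) * b ((e t)⁻¹ * e h)
  rw [map_mul, map_inv]

theorem actF_equiv (e : H ≃* K) (a b : K → F) :
    actF (fun h => a (e h)) (fun h => b (e h)) = fun h => actF a b (e h) := by
  funext h
  unfold actF
  rw [← finsum_comp_equiv e.toEquiv (f := fun t => a t * b (t * e h))]
  apply finsum_congr
  intro t
  show a (e t) * b (e (t * h)) = a (e t) * b (e t * e h)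
  rw [map_mul]

theorem ev_equiv (e : H ≃* K) {n : ℕ} (ρ : K →* Matrix (Fin n) (Fin n) F) (a : K → F) :
    ev (ρ.comp e.toMonoidHom) (fun h => a (e h)) = ev ρ a := by
  unfold ev
  rw [← finsum_comp_equiv e.toEquiv (f := fun t => a t • ρ t)]
  rfl

theorem irr_equiv (e : H ≃* K) {n : ℕ} {ρ : K →* Matrix (Fin n) (Fin n) F} (hρ : IsIrr ρ) :
    IsIrr (ρ.comp e.toMonoidHom) := by
  refine ⟨hρ.1, ?_⟩
  have h1 : Set.range (ρ.comp e.toMonoidHom) = Set.range ρ := by
    ext M
    constructor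
    · rintro ⟨h, rfl⟩
      exact ⟨e h, rfl⟩
    · rintro ⟨k, rfl⟩
      exact ⟨e.symm k, by
        show ρ (e (e.symm k)) = ρ k
        rw [MulEquiv.apply_symm_apply]⟩
  rw [h1]
  exact hρ.2

theorem IBr_equiv (e : H ≃* K) {φ : K → F} : (fun h => φ (e h)) ∈ IBr F H ↔ φ ∈ IBr F K := by
  constructor
  · rintro ⟨n, ρ, hρ, h⟩
    refine ⟨n, ρ.comp e.symm.toMonoidHom, irr_equiv e.symm hρ, ?_⟩
    funext k
    have h1 := congrFun h (e.symm k)
    have h2 : φ (e (e.symm k)) = tr ρ (e.symm k) := h1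
    rw [MulEquiv.apply_symm_apply] at h2
    exact h2
  · rintro ⟨n, ρ, hρ, rfl⟩
    exact ⟨n, ρ.comp e.toMonoidHom, irr_equiv e hρ, rfl⟩

theorem IsCl_equiv (e : H ≃* K) {a : K → F} : IsCl (fun h => a (e h)) ↔ IsCl a := by
  constructor
  · intro h x y
    have h1 := h (e.symm x) (e.symm y)
    simp only [map_mul, map_inv, MulEquiv.apply_symm_apply] at h1
    exact h1
  · intro h x y
    show a (e (y * x * y⁻¹)) = a (e x)
    rw [map_mul, map_mul, map_inv]
    exact h _ _

theorem IsIdem_equiv (e : H ≃* K) {a : K → F} : IsIdem (fun h => a (e h)) ↔ IsIdem a := by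
  unfold IsIdem
  rw [IsCl_equiv, mulF_equiv]
  apply and_congr_right
  intro _
  constructor
  · intro h
    funext k
    have := congrFun h (e.symm k)
    simp only [MulEquiv.apply_symm_apply] at this
    exact this
  · intro h
    rw [h]

theorem IsBlk_equiv (e : H ≃* K) {b : K → F} (hb : IsBlk b) : IsBlk (fun h => b (e h)) := by
  refine ⟨(IsIdem_equiv e).2 hb.1, ?_, ?_⟩
  · intro h
    apply hb.2.1
    funext k
    have := congrFun h (e.symm k)
    simp only [MulEquiv.apply_symm_apply] at this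
    exact this
  · intro g hg
    have h1 : g = fun h => (fun k => g (e.symm k)) (e h) := by
      funext h
      show g h = g (e.symm (e h))
      rw [MulEquiv.symm_apply_apply]
    rw [h1] at hg
    have h2 := hb.2.2 _ ((IsIdem_equiv e (a := fun k => g (e.symm k))).1 hg)
    have h3 := mulF_equiv e b (fun k => g (e.symm k))
    rw [h1]
    rcases h2 with h2 | h2
    · left
      exact h3.trans (by rw [h2])
    · right
      exact h3.trans (by rw [h2]; rfl)

end iso

/-! ### restriction -/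

section res

variable {F X : Type} [Field F] [Group X]

/-- the isomorphism -/
def eYS {Y L : Subgroup X} (hYL : Y ≤ L) {S : Subgroup X} {S' : Subgroup L}
    (hS : ∀ g : L, g ∈ S' ↔ (g : X) ∈ S) : ↥(Y.subgroupOf L ⊓ S') ≃* ↥(Y ⊓ S) where
  toFun g := ⟨((g : L) : X), Subgroup.mem_subgroupOf.1 g.2.1, (hS g).1 g.2.2⟩
  invFun g := ⟨⟨(g : X), hYL g.2.1⟩, Subgroup.mem_subgroupOf.2 g.2.1,
    (hS ⟨(g : X), hYL g.2.1⟩).2 g.2.2⟩
  left_inv _ := rfl
  right_inv _ := rfl
  map_mul' _ _ := rfl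

theorem eYS_coe {Y L : Subgroup X} (hYL : Y ≤ L) {S : Subgroup X} {S' : Subgroup L}
    (hS : ∀ g : L, g ∈ S' ↔ (g : X) ∈ S) (g : ↥(Y.subgroupOf L ⊓ S')) :
    ((eYS hYL hS g : ↥(Y ⊓ S)) : X) = ((g : L) : X) := rfl

theorem br_res {L R : Subgroup X} {R' : Subgroup L} (hR : ∀ r, r ∈ R ↔ ∃ r' ∈ R', (r' : X) = r)
    (u : X → F) (t : L) : br R' (fun g : L => u g) t = br R u t := by
  classical
  have hiff : t ∈ Subgroup.centralizer (R' : Set L) ↔
      (t : X) ∈ Subgroup.centralizer (R : Set X) := by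
    rw [Subgroup.mem_centralizer_iff, Subgroup.mem_centralizer_iff]
    constructor
    · intro h r hr
      obtain ⟨r', hr', rfl⟩ := (hR r).1 hr
      exact congrArg Subtype.val (h r' hr')
    · intro h r hr
      exact Subtype.ext (h r ((hR r).2 ⟨r, hr, rfl⟩))
  by_cases ht : t ∈ Subgroup.centralizer (R' : Set L)
  · simp only [br, if_pos ht, if_pos (hiff.1 ht)]
  · simp only [br, if_neg ht, if_neg (fun hc => ht (hiff.2 hc))]

theorem IsSC_res {Y L : Subgroup X} (hYL : Y ≤ L) {S R : Subgroup X} {S' R' : Subgroup L}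
    (hS : ∀ g : L, g ∈ S' ↔ (g : X) ∈ S) (hR : ∀ r, r ∈ R ↔ ∃ r' ∈ R', (r' : X) = r)
    (φ : ↥(Y ⊓ S) → F) (x y : L) (u : X → F) (c : F) :
    IsSC (Y.subgroupOf L) S' R' (fun g => φ (eYS hYL hS g)) x y (fun g : L => u g) c ↔
      IsSC Y S R φ x y u c := by
  obtain ⟨e, he⟩ : ∃ e, e = eYS hYL hS := ⟨_, rfl⟩
  have hcoe : ∀ g, ((e g : ↥(Y ⊓ S)) : X) = ((g : L) : X) := by
    intro g
    rw [he]
    rfl
  have hcoe' : ∀ g, (((e.symm g : ↥(Y.subgroupOf L ⊓ S')) : L) : X) = (g : X) := by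
    intro g
    rw [← hcoe, MulEquiv.apply_symm_apply]
  rw [← he]
  have hfun : (fun t : ↥(Y.subgroupOf L ⊓ S') => br R' (fun g : L => u g)
      (x * y * x⁻¹ * y⁻¹ * t)) =
      fun t => (fun s : ↥(Y ⊓ S) => br R u ((x : X) * y * (x : X)⁻¹ * (y : X)⁻¹ * s)) (e t) := by
    funext t
    rw [br_res hR]
    show br R u ((x : X) * y * (x : X)⁻¹ * (y : X)⁻¹ * (t : L)) = _
    rw [← hcoe]
  constructor
  · rintro ⟨n, ρ, A, B, hρ, htr, hA, hB, hc⟩
    refine ⟨n, ρ.comp e.symm.toMonoidHom, A, B, irr_equiv e.symm hρ, ?_, ⟨hA.1, ?_⟩, ⟨hB.1, ?_⟩, ?_⟩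
    · funext k
      have h1 := congrFun htr (e.symm k)
      have h2 : tr ρ (e.symm k) = φ (e (e.symm k)) := h1
      rw [MulEquiv.apply_symm_apply] at h2
      exact h2
    · intro g g' hg
      apply hA.2 (e.symm g) (e.symm g')
      apply Subtype.ext
      show (((e.symm g' : ↥(Y.subgroupOf L ⊓ S')) : L) : X) =
        x * ((e.symm g : ↥(Y.subgroupOf L ⊓ S')) : L) * (x : X)⁻¹
      rw [hcoe', hcoe', hg]
    · intro g g' hg
      apply hB.2 (e.symm g) (e.symm g')
      apply Subtype.ext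
      show (((e.symm g' : ↥(Y.subgroupOf L ⊓ S')) : L) : X) =
        y * ((e.symm g : ↥(Y.subgroupOf L ⊓ S')) : L) * (y : X)⁻¹
      rw [hcoe', hcoe', hg]
    · rw [hfun] at hc
      have h1 := ev_equiv e (ρ.comp e.symm.toMonoidHom)
        (fun s : ↥(Y ⊓ S) => br R u ((x : X) * y * (x : X)⁻¹ * (y : X)⁻¹ * s))
      have h2 : (ρ.comp e.symm.toMonoidHom).comp e.toMonoidHom = ρ := by
        ext g : 1
        show ρ (e.symm (e g)) = ρ g
        rw [MulEquiv.symm_apply_apply]
      rw [h2] at h1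
      rw [← h1]
      exact hc
  · rintro ⟨n, ρ, A, B, hρ, htr, hA, hB, hc⟩
    refine ⟨n, ρ.comp e.toMonoidHom, A, B, irr_equiv e hρ, ?_, ⟨hA.1, ?_⟩, ⟨hB.1, ?_⟩, ?_⟩
    · funext k
      exact congrFun htr (e k)
    · intro g g' hg
      apply hA.2 (e g) (e g')
      rw [hcoe, hcoe, hg]
      rfl
    · intro g g' hg
      apply hB.2 (e g) (e g')
      rw [hcoe, hcoe, hg]
      rfl
    · rw [hfun]
      have h1 := ev_equiv e ρ
        (fun s : ↥(Y ⊓ S) => br R u ((x : X) * y * (x : X)⁻¹ * (y : X)⁻¹ * s))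
      have h2 := congrArg (fun M => M * (A * B)) h1
      exact h2.trans hc

theorem sc_res {Y L : Subgroup X} (hYL : Y ≤ L) {S R : Subgroup X} {S' R' : Subgroup L}
    (hS : ∀ g : L, g ∈ S' ↔ (g : X) ∈ S) (hR : ∀ r, r ∈ R ↔ ∃ r' ∈ R', (r' : X) = r)
    (φ : ↥(Y ⊓ S) → F) (x y : L) (u : X → F) :
    sc (Y.subgroupOf L) S' R' (fun g => φ (eYS hYL hS g)) x y (fun g : L => u g) =
      sc Y S R φ x y u := by
  have h : (fun c => IsSC (Y.subgroupOf L) S' R' (fun g => φ (eYS hYL hS g)) x y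
      (fun g : L => u g) c) = fun c => IsSC Y S R φ x y u c :=
    funext fun c => propext (IsSC_res hYL hS hR φ x y u c)
  classical
  have h1 : ∀ P Q : F → Prop, P = Q → (if h : ∃ c, P c then h.choose else 0) =
      (if h : ∃ c, Q c then h.choose else 0) := by
    rintro P Q rfl
    rfl
  exact h1 _ _ h

theorem phiS_res {Y L : Subgroup X} (hYL : Y ≤ L) {S : Subgroup X} {S' : Subgroup L}
    (hS : ∀ g : L, g ∈ S' ↔ (g : X) ∈ S) (f : X → F) (φ : ↥(Y ⊓ S) → F) (x y : L) :
    (fun g => φ (eYS hYL hS g)) ∈ phiS (Y.subgroupOf L) S' (fun g : L => f g) x y ↔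
      φ ∈ phiS Y S f x y := by
  obtain ⟨e, he⟩ : ∃ e, e = eYS hYL hS := ⟨_, rfl⟩
  have hcoe : ∀ g, ((e g : ↥(Y ⊓ S)) : X) = ((g : L) : X) := by
    intro g
    rw [he]
    rfl
  have hcoe' : ∀ g, (((e.symm g : ↥(Y.subgroupOf L ⊓ S')) : L) : X) = (g : X) := by
    intro g
    rw [← hcoe, MulEquiv.apply_symm_apply]
  rw [← he]
  have hfun : (fun t : ↥(Y.subgroupOf L ⊓ S') => f ((t : L) : X)) =
      fun t => (fun s : ↥(Y ⊓ S) => f s) (e t) := by
    funext t
    show f ((t : L) : X) = f ((e t : ↥(Y ⊓ S)) : X)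
    rw [hcoe]
  constructor
  · rintro ⟨h1, h2, h3, h4⟩
    refine ⟨(IBr_equiv e).1 h1, ?_, ?_, ?_⟩
    · rw [hfun] at h2
      have h5 := (actF_equiv e (fun s : ↥(Y ⊓ S) => f s) φ).symm.trans h2
      funext k
      have := congrFun h5 (e.symm k)
      simp only [MulEquiv.apply_symm_apply] at this
      exact this
    · intro n n' hn
      have := h3 (e.symm n) (e.symm n') (by
        apply Subtype.ext
        show (((e.symm n' : ↥(Y.subgroupOf L ⊓ S')) : L) : X) =
          x * ((e.symm n : ↥(Y.subgroupOf L ⊓ S')) : L) * (x : X)⁻¹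
        rw [hcoe', hcoe', hn])
      simp only [MulEquiv.apply_symm_apply] at this
      exact this
    · intro n n' hn
      have := h4 (e.symm n) (e.symm n') (by
        apply Subtype.ext
        show (((e.symm n' : ↥(Y.subgroupOf L ⊓ S')) : L) : X) =
          y * ((e.symm n : ↥(Y.subgroupOf L ⊓ S')) : L) * (y : X)⁻¹
        rw [hcoe', hcoe', hn])
      simp only [MulEquiv.apply_symm_apply] at this
      exact this
  · rintro ⟨h1, h2, h3, h4⟩
    refine ⟨(IBr_equiv e).2 h1, ?_, ?_, ?_⟩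
    · rw [hfun]
      have h5 := actF_equiv e (fun s : ↥(Y ⊓ S) => f s) φ
      rw [h2] at h5
      exact h5
    · intro n n' hn
      apply h3
      rw [hcoe, hcoe, hn]
      rfl
    · intro n n' hn
      apply h4
      rw [hcoe, hcoe, hn]
      rfl

theorem SS_res {Y L : Subgroup X} (hYL : Y ≤ L) {S R : Subgroup X} {S' R' : Subgroup L}
    (hS : ∀ g : L, g ∈ S' ↔ (g : X) ∈ S) (hR : ∀ r, r ∈ R ↔ ∃ r' ∈ R', (r' : X) = r)
    (τ : F → ℂ) (f : X → F) (x y : L) (u : X → F) :
    SS τ (Y.subgroupOf L) S' R' (fun g : L => f g) x y (fun g : L => u g) =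
      SS τ Y S R f x y u := by
  unfold SS
  symm
  apply finsum_mem_eq_of_bijOn (fun φ : ↥(Y ⊓ S) → F => fun g => φ (eYS hYL hS g))
  · refine ⟨fun φ hφ => (phiS_res hYL hS f φ x y).2 hφ, ?_, ?_⟩
    · intro φ _ ψ _ h
      funext k
      have := congrFun h ((eYS hYL hS).symm k)
      simp only [MulEquiv.apply_symm_apply] at this
      exact this
    · intro ψ hψ
      have h1 : ψ = fun g => (fun k => ψ ((eYS hYL hS).symm k)) (eYS hYL hS g) := by
        funext g
        show ψ g = ψ ((eYS hYL hS).symm (eYS hYL hS g))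
        rw [MulEquiv.symm_apply_apply]
      rw [h1] at hψ
      exact ⟨fun k => ψ ((eYS hYL hS).symm k),
        (phiS_res hYL hS f (fun k => ψ ((eYS hYL hS).symm k)) x y).1 hψ, h1.symm⟩
  · intro φ _
    rw [sc_res hYL hS hR φ x y u]

end res

/-! ### chains -/

section chains

variable {X : Type} [Group X] {L : Subgroup X}

theorem norm_res (D : Subgroup L) (g : L) :
    (g : X) ∈ Subgroup.normalizer ((D.map L.subtype : Subgroup X) : Set X) ↔
      g ∈ Subgroup.normalizer (D : Set L) := by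
  rw [Subgroup.mem_normalizer_iff, Subgroup.mem_normalizer_iff]
  have hinj : Function.Injective L.subtype := Subtype.val_injective
  constructor
  · intro h x
    have h1 := h (x : X)
    have h2 : (x : X) ∈ D.map L.subtype ↔ x ∈ D := Subgroup.mem_map_iff_mem hinj (x := x)
    have h3 : ((g * x * g⁻¹ : L) : X) ∈ D.map L.subtype ↔ g * x * g⁻¹ ∈ D :=
      Subgroup.mem_map_iff_mem hinj (x := g * x * g⁻¹)
    rw [← h2, h1, ← h3]
    rfl
  · intro h x
    constructor
    · rintro ⟨y, hy, rfl⟩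
      exact ⟨g * y * g⁻¹, (h y).1 hy, rfl⟩
    · rintro ⟨y, hy, hxy⟩
      refine ⟨g⁻¹ * y * g, ?_, ?_⟩
      · have h1 := (h (g⁻¹ * y * g)).2 (by
          have : g * (g⁻¹ * y * g) * g⁻¹ = y := by group
          rw [this]
          exact hy)
        exact h1
      · show (g : X)⁻¹ * y * g = x
        have h1 : (y : X) = g * x * (g : X)⁻¹ := hxy
        rw [h1]
        group

open Classical in
/-- the image of a chain -/
def upC (t : Finset (Subgroup L)) : Finset (Subgroup X) := t.image (Subgroup.map L.subtype)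

open Classical in
/-- the restriction of a chain -/
def dnC (L : Subgroup X) (t : Finset (Subgroup X)) : Finset (Subgroup L) :=
  t.image (fun D => D.subgroupOf L)

theorem stab_res (t : Finset (Subgroup L)) (g : L) : g ∈ stab t ↔ (g : X) ∈ stab (upC t) := by
  classical
  rw [mem_stab', mem_stab']
  unfold upC
  constructor
  · intro h D hD
    obtain ⟨D', hD', rfl⟩ := Finset.mem_image.1 hD
    exact (norm_res D' g).2 (h D' hD')
  · intro h D hD
    exact (norm_res D g).1 (h _ (Finset.mem_image_of_mem _ hD))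

theorem top_res (t : Finset (Subgroup L)) : top (upC t) = (top t).map L.subtype := by
  classical
  unfold top upC
  rw [Finset.coe_image, (Subgroup.gc_map_comap L.subtype).l_sSup, sSup_image]

theorem normal_res (t : Finset (Subgroup L)) : NormalChain (upC t) ↔ NormalChain t := by
  classical
  unfold NormalChain
  rw [top_res]
  unfold upC
  constructor
  · intro h D hD g hg
    have h1 := h _ (Finset.mem_image_of_mem _ hD) (Subgroup.mem_map_of_mem L.subtype hg)
    exact (norm_res D g).1 h1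
  · intro h D hD g hg
    obtain ⟨D', hD', rfl⟩ := Finset.mem_image.1 hD
    obtain ⟨g', hg', rfl⟩ := hg
    exact (norm_res D' g').2 (h D' hD' hg')

theorem upC_inj : Function.Injective (Subgroup.map L.subtype : Subgroup L → Subgroup X) :=
  Subgroup.map_injective Subtype.val_injective

theorem upC_card (t : Finset (Subgroup L)) : (upC t).card = t.card := by
  classical
  exact Finset.card_image_of_injective _ upC_inj

theorem dn_up (t : Finset (Subgroup L)) : dnC L (upC t) = t := by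
  classical
  unfold dnC upC
  rw [Finset.image_image]
  have h1 : ((fun D : Subgroup X => D.subgroupOf L) ∘ Subgroup.map L.subtype) = id := by
    funext D
    show (D.map L.subtype).comap L.subtype = D
    exact Subgroup.comap_map_eq_self_of_injective Subtype.val_injective D
  rw [h1, Finset.image_id]

theorem up_dn {t : Finset (Subgroup X)} (ht : ∀ D ∈ t, D ≤ L) : upC (dnC L t) = t := by
  classical
  unfold dnC upC
  rw [Finset.image_image]
  ext D
  rw [Finset.mem_image]
  constructor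
  · rintro ⟨E, hE, rfl⟩
    show (E.subgroupOf L).map L.subtype ∈ t
    rw [Subgroup.subgroupOf_map_subtype, inf_eq_left.2 (ht E hE)]
    exact hE
  · intro hD
    refine ⟨D, hD, ?_⟩
    show (D.subgroupOf L).map L.subtype = D
    rw [Subgroup.subgroupOf_map_subtype, inf_eq_left.2 (ht D hD)]

theorem upC_mem {ℓ : ℕ} [Finite X] {Y : Subgroup X} (hYL : Y ≤ L) {t : Finset (Subgroup L)}
    (ht : t ∈ chainsOn (psubIn ℓ (Y.subgroupOf L)) ⊥) : upC t ∈ chainsOn (psubIn ℓ Y) ⊥ := by
  classical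
  rw [mem_chainsOn] at ht ⊢
  refine ⟨?_, ?_, ?_⟩
  · intro D hD
    obtain ⟨D', hD', rfl⟩ := Finset.mem_image.1 hD
    have h1 := ht.1 hD'
    rw [mem_psubIn] at h1 ⊢
    refine ⟨?_, h1.2.map _⟩
    rintro _ ⟨g, hg, rfl⟩
    exact Subgroup.mem_subgroupOf.1 (h1.1 hg)
  · refine Finset.mem_image.2 ⟨⊥, ht.2.1, ?_⟩
    exact Subgroup.map_bot _
  · intro D hD E hE _
    obtain ⟨D', hD', rfl⟩ := Finset.mem_image.1 (Finset.mem_coe.1 hD)
    obtain ⟨E', hE', rfl⟩ := Finset.mem_image.1 (Finset.mem_coe.1 hE)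
    rcases chain_total ht.2.2 hD' hE' with h | h
    · left; exact Subgroup.map_mono h
    · right; exact Subgroup.map_mono h

theorem dnC_mem {ℓ : ℕ} [Finite X] {Y : Subgroup X} {t : Finset (Subgroup X)}
    (ht : t ∈ chainsOn (psubIn ℓ Y) ⊥) : dnC L t ∈ chainsOn (psubIn ℓ (Y.subgroupOf L)) ⊥ := by
  classical
  rw [mem_chainsOn] at ht ⊢
  refine ⟨?_, ?_, ?_⟩
  · intro D hD
    obtain ⟨D', hD', rfl⟩ := Finset.mem_image.1 hD
    have h1 := ht.1 hD'
    rw [mem_psubIn] at h1 ⊢
    exact ⟨fun g hg => Subgroup.mem_subgroupOf.2 (h1.1 (Subgroup.mem_subgroupOf.1 hg)),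
      h1.2.comap_subtype⟩
  · refine Finset.mem_image.2 ⟨⊥, ht.2.1, ?_⟩
    exact Subgroup.bot_subgroupOf L
  · intro D hD E hE _
    obtain ⟨D', hD', rfl⟩ := Finset.mem_image.1 (Finset.mem_coe.1 hD)
    obtain ⟨E', hE', rfl⟩ := Finset.mem_image.1 (Finset.mem_coe.1 hE)
    rcases chain_total ht.2.2 hD' hE' with h | h
    · left; exact Subgroup.comap_mono h
    · right; exact Subgroup.comap_mono h

end chains

/-! ### the statement -/

section final

variable {F X : Type} [Field F] [Group X] [Finite X] {ℓ : ℕ} {Y L : Subgroup X}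

theorem TT1_res [Fintype X] [Fintype L] (hYL : Y ≤ L) (τ : F → ℂ) (f : X → F) (x y : L)
    (u : X → F) (t : Finset (Subgroup L)) :
    TT1 τ (Y.subgroupOf L) (fun g : L => f g) x y (fun g : L => u g) t =
      TT1 τ Y f (x : X) (y : X) u (upC t) := by
  classical
  have hS : ∀ g : L, g ∈ stab t ↔ (g : X) ∈ stab (upC t) := stab_res t
  have hR : ∀ r, r ∈ top (upC t) ↔ ∃ r' ∈ top t, (r' : X) = r := by
    intro r
    rw [top_res]
    rfl
  unfold TT1
  apply Fintype.sum_equiv (Subgroup.subgroupOfEquivOfLe hYL).toEquiv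
  intro n
  apply Fintype.sum_equiv (Subgroup.subgroupOfEquivOfLe hYL).toEquiv
  intro m
  have hn : (((Subgroup.subgroupOfEquivOfLe hYL).toEquiv n : Y) : X) = ((n : L) : X) := rfl
  have hm : (((Subgroup.subgroupOfEquivOfLe hYL).toEquiv m : Y) : X) = ((m : L) : X) := rfl
  rw [hn, hm]
  have h1 : x * (n : L) ∈ stab t ↔ (x : X) * ((n : L) : X) ∈ stab (upC t) := hS (x * n)
  have h2 : y * (m : L) ∈ stab t ↔ (y : X) * ((m : L) : X) ∈ stab (upC t) := hS (y * m)
  by_cases hc : x * (n : L) ∈ stab t ∧ y * (m : L) ∈ stab t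
  · rw [if_pos hc, if_pos ⟨h1.1 hc.1, h2.1 hc.2⟩, upC_card]
    have h3 : Nat.card ↥(Y.subgroupOf L ⊓ stab t) = Nat.card ↥(Y ⊓ stab (upC t)) :=
      Nat.card_congr (eYS hYL hS).toEquiv
    have h4 := SS_res hYL hS hR τ f (x * (n : L)) (y * (m : L)) u
    rw [h3, h4]
    rfl
  · rw [if_neg hc, if_neg (fun h => hc ⟨h1.2 h.1, h2.2 h.2⟩)]

theorem DJ_res (hYL : Y ≤ L) (τ : F → ℂ) (f : X → F) (x y : L) (u : X → F) :
    DJ τ ℓ (Y.subgroupOf L) (fun g : L => f g) x y (fun g : L => u g) =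
      DJ τ ℓ Y f (x : X) (y : X) u := by
  have h1 := Fintype.ofFinite X
  have h2 := Fintype.ofFinite L
  classical
  rw [DJ_eq, DJ_eq]
  refine Finset.sum_bij' (fun t _ => upC t) (fun t _ => dnC L t) ?_ ?_ ?_ ?_ ?_
  · intro t ht
    rw [Finset.mem_filter] at ht ⊢
    exact ⟨upC_mem hYL ht.1, (normal_res t).2 ht.2⟩
  · intro t ht
    rw [Finset.mem_filter] at ht ⊢
    have h3 : upC (dnC L t) = t := by
      apply up_dn
      intro D hD
      exact ((mem_psubIn.1 ((mem_chainsOn.1 ht.1).1 hD)).1).trans hYL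
    refine ⟨dnC_mem ht.1, ?_⟩
    rw [← normal_res, h3]
    exact ht.2
  · intro t _
    exact dn_up t
  · intro t ht
    rw [Finset.mem_filter] at ht
    apply up_dn
    intro D hD
    exact ((mem_psubIn.1 ((mem_chainsOn.1 ht.1).1 hD)).1).trans hYL
  · intro t _
    exact TT1_res hYL τ f x y u t

/-- extension by zero -/
def exL (L : Subgroup X) (u : L → F) : X → F :=
  open Classical in fun g => if h : g ∈ L then u ⟨g, h⟩ else 0

omit [Finite X] in
theorem exL_res (u : L → F) (g : L) : exL L u (g : X) = u g := by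
  classical
  simp only [exL, dif_pos g.2]

omit [Finite X] in
theorem exL_out (u : L → F) {g : X} (hg : g ∉ L) : exL L u g = 0 := by
  classical
  simp only [exL, dif_neg hg]

omit [Finite X] in
theorem res_ext {a b : X → F} (ha : ∀ t, t ∉ L → a t = 0) (hb : ∀ t, t ∉ L → b t = 0)
    (h : (fun t : L => a t) = fun t : L => b t) : a = b := by
  funext t
  by_cases ht : t ∈ L
  · exact congrFun h ⟨t, ht⟩
  · rw [ha t ht, hb t ht]

theorem mulF_out {a b : X → F} (ha : ∀ t, t ∉ L → a t = 0) (hb : ∀ t, t ∉ L → b t = 0) {t : X}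
    (ht : t ∉ L) : mulF a b t = 0 := by
  have hfin := Fintype.ofFinite X
  rw [mulF, finsum_eq_sum_of_fintype]
  apply Finset.sum_eq_zero
  intro s _
  by_cases hs : s ∈ L
  · have h5 : s⁻¹ * t ∉ L := by
      intro hc
      apply ht
      have := L.mul_mem hs hc
      rwa [mul_inv_cancel_left] at this
    rw [hb _ h5, mul_zero]
  · rw [ha _ hs, zero_mul]

omit [Finite X] in
theorem CE_out {f : X → F} (hYL : Y ≤ L) {g : L} {u : X → F} (hu : CE f Y (g : X) u) :
    ∀ t, t ∉ L → u t = 0 := by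
  intro t ht
  apply hu.supp
  intro hc
  apply ht
  have := L.mul_mem g.2 (hYL hc)
  rwa [mul_inv_cancel_left] at this

theorem CE_res {f : X → F} (hf : SBlk Y f) (hYL : Y ≤ L) {g : L} {u : X → F}
    (hu : CE f Y (g : X) u) : CE (fun t : L => f t) (Y.subgroupOf L) g (fun t : L => u t) := by
  refine ⟨?_, ?_, ?_⟩
  · intro h hh
    apply hu.supp
    intro hc
    exact hh (Subgroup.mem_subgroupOf.2 hc)
  · intro n hn h
    exact hu.inv _ (Subgroup.mem_subgroupOf.1 hn) _
  · rw [← restr_mul L (fun t ht => hf.supp t (fun hc => ht (hYL hc))), hu.abs]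

theorem unit_res {f : X → F} (hf : SBlk Y f) (hYL : Y ≤ L) {g : L} {u u' : X → F}
    (hu : IsUnitOver f Y (g : X) u u') :
    IsUnitOver (fun t : L => f t) (Y.subgroupOf L) g (fun t : L => u t) (fun t : L => u' t) := by
  refine ⟨CE_res hf hYL hu.left, CE_res hf hYL hu.right, ?_⟩
  rw [← restr_mul L (CE_out hYL hu.left), hu.mul]

theorem CE_exL {f : X → F} (hf : SBlk Y f) (hYL : Y ≤ L) {g : L} {u : L → F}
    (hu : CE (fun t : L => f t) (Y.subgroupOf L) g u) : CE f Y (g : X) (exL L u) := by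
  have hfL : ∀ t, t ∉ L → f t = 0 := fun t ht => hf.supp t (fun hc => ht (hYL hc))
  refine ⟨?_, ?_, ?_⟩
  · intro h hh
    by_cases hL : h ∈ L
    · have h1 := exL_res u ⟨h, hL⟩
      have h2 : exL L u h = u ⟨h, hL⟩ := h1
      rw [h2]
      apply hu.supp
      intro hc
      exact hh (Subgroup.mem_subgroupOf.1 hc)
    · exact exL_out u hL
  · intro n hn h
    by_cases hL : h ∈ L
    · have h2 : exL L u h = u ⟨h, hL⟩ := exL_res u ⟨h, hL⟩
      have h3 : exL L u (n * h * n⁻¹) = u (⟨n, hYL hn⟩ * ⟨h, hL⟩ * ⟨n, hYL hn⟩⁻¹) :=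
        exL_res u (⟨n, hYL hn⟩ * ⟨h, hL⟩ * ⟨n, hYL hn⟩⁻¹)
      rw [h2, h3]
      exact hu.inv _ (Subgroup.mem_subgroupOf.2 hn) _
    · have h4 : n * h * n⁻¹ ∉ L := by
        intro hc
        apply hL
        have h5 := L.mul_mem (L.mul_mem (L.inv_mem (hYL hn)) hc) (hYL hn)
        have h6 : n⁻¹ * (n * h * n⁻¹) * n = h := by group
        rwa [h6] at h5
      rw [exL_out u hL, exL_out u h4]
  · apply res_ext (L := L) (fun t ht => mulF_out hfL (fun s hs => exL_out u hs) ht)
      (fun s hs => exL_out u hs)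
    rw [restr_mul L hfL]
    have h1 : (fun t : L => exL L u t) = u := funext fun t => exL_res u t
    rw [h1, hu.abs]

theorem rst : RstStmt := by
  intro ℓ F _ hF τ X _ _ Y hY f hf L hYL
  have hfL : ∀ t, t ∉ L → f t = 0 := fun t ht => hf.supp t (fun hc => ht (hYL hc))
  have hf' : SBlk (Y.subgroupOf L) (fun t : L => f t) := by
    refine ⟨?_, ?_, ?_⟩
    · intro x hx
      exact hf.supp x (fun hc => hx (Subgroup.mem_subgroupOf.2 hc))
    · intro x y
      exact hf.cl x y
    · exact IsBlk_equiv (Subgroup.subgroupOfEquivOfLe hYL) hf.blk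
  have hY' : (Y.subgroupOf L).Normal := hY.subgroupOf L
  refine ⟨hf', ?_, ?_⟩
  · intro g
    rw [mem_XF hf' hY', mem_XF hf hY]
    constructor
    · rintro ⟨u, u', hu⟩
      refine ⟨exL L u, exL L u', CE_exL hf hYL hu.left, CE_exL hf hYL hu.right, ?_⟩
      apply res_ext (L := L) (fun t ht => mulF_out (fun s hs => exL_out u hs)
        (fun s hs => exL_out u' hs) ht) hfL
      rw [restr_mul L (fun s hs => exL_out u hs)]
      have h1 : ∀ u : L → F, (fun t : L => exL L u t) = u := fun u => funext fun t => exL_res u t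
      rw [h1, h1, hu.mul]
    · rintro ⟨u, u', hu⟩
      exact ⟨_, _, unit_res hf hYL hu⟩
  · intro x y hD u u' hu
    have h1 := hD _ _ (unit_res (g := x * y * x⁻¹ * y⁻¹) hf hYL hu)
    rw [DJ_res hYL] at h1
    exact h1

end final

end Pool.Agent.PP.H20
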