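import Pool.Agent.Helper20_PP.MatS

/-!
BLK: the block of the fixed points of an `ℓ`-group of automorphisms.
-/

open scoped BigOperators

noncomputable section

namespace Pool.Agent.PP.H20

section fix

variable {N : Type} [Group N]

/-- the elements conjugating `x` into `y` -/
def Tra (x y : N) : Type := {n : N // n * x * n⁻¹ = y}

/-- the action of a group of automorphisms on the transporter -/
@[instance_reducible] def traAct (P : Subgroup (MulAut N)) {x y : N} (hx : x ∈ fixN P) (hy : y ∈ fixN P) :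
    MulAction P (Tra x y) where
  smul p n := ⟨(p : MulAut N) n.1, by
    have h1 := congrArg (p : MulAut N) n.2
    rw [map_mul, map_mul, map_inv, hx p p.2, hy p p.2] at h1
    exact h1⟩
  one_smul _ := rfl
  mul_smul _ _ _ := rfl

theorem card_tra [Finite N] {x y : N} (q : N) (hq : q * x * q⁻¹ = y) :
    Nat.card (Tra x y) = Nat.card (Tra x x) := by
  apply Nat.card_congr
  refine
    { toFun := fun n => ⟨q⁻¹ * n.1, ?_⟩
      invFun := fun n => ⟨q * n.1, ?_⟩
      left_inv := fun n => Subtype.ext (by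
        show q * (q⁻¹ * n.1) = n.1
        group)
      right_inv := fun n => Subtype.ext (by
        show q⁻¹ * (q * n.1) = n.1
        group) }
  · calc q⁻¹ * n.1 * x * (q⁻¹ * n.1)⁻¹ = q⁻¹ * (n.1 * x * n.1⁻¹) * q := by group
      _ = q⁻¹ * y * q := by rw [n.2]
      _ = q⁻¹ * (q * x * q⁻¹) * q := by rw [hq]
      _ = x := by group
  · calc q * n.1 * x * (q * n.1)⁻¹ = q * (n.1 * x * n.1⁻¹) * q⁻¹ := by group
      _ = q * x * q⁻¹ := by rw [n.2]
      _ = y := hq

theorem card_tra_fixed (P : Subgroup (MulAut N)) {x : N} (hx : x ∈ fixN P) :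
    Nat.card (letI := traAct P hx hx; MulAction.fixedPoints P (Tra x x)) =
      Nat.card (Subgroup.centralizer ({(⟨x, hx⟩ : fixN P)} : Set (fixN P))) := by
  let _ := traAct P hx hx
  apply Nat.card_congr
  refine
    { toFun := fun n => ⟨⟨n.1.1, ?_⟩, ?_⟩
      invFun := fun c => ⟨⟨c.1.1, ?_⟩, ?_⟩
      left_inv := fun n => rfl
      right_inv := fun n => rfl }
  · intro p hp
    have := n.2 ⟨p, hp⟩
    exact congrArg Subtype.val this
  · rw [Subgroup.mem_centralizer_singleton_iff]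
    apply Subtype.ext
    show n.1.1 * x = x * n.1.1
    have h1 := n.1.2
    calc n.1.1 * x = n.1.1 * x * n.1.1⁻¹ * n.1.1 := by group
      _ = x * n.1.1 := by rw [h1]
  · have h1 := congrArg Subtype.val (Subgroup.mem_centralizer_singleton_iff.1 c.2)
    have h2 : c.1.1 * x = x * c.1.1 := h1
    rw [h2]
    group
  · intro p
    apply Subtype.ext
    exact c.1.2 p p.2

/-- centralisers of fixed elements -/
theorem cent_mod {ℓ : ℕ} (hℓ : ℓ.Prime) [Finite N] (P : Subgroup (MulAut N)) (hP : IsPGroup ℓ P)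
    {x : N} (hx : x ∈ fixN P) :
    Nat.card (Tra x x) ≡
      Nat.card (Subgroup.centralizer ({(⟨x, hx⟩ : fixN P)} : Set (fixN P))) [MOD ℓ] := by
  have : Fact ℓ.Prime := ⟨hℓ⟩
  have hfin : Finite (Tra x x) := Subtype.finite
  rw [← card_tra_fixed P hx]
  let _ := traAct P hx hx
  exact hP.card_modEq_card_fixedPoints (Tra x x)

/-- conjugation in the group and in the fixed points -/
theorem fix_conj {ℓ : ℕ} (hℓ : ℓ.Prime) [Finite N] (P : Subgroup (MulAut N)) (hP : IsPGroup ℓ P)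
    {x y : N} (hx : x ∈ fixN P) (hy : y ∈ fixN P)
    (hc : ¬ ℓ ∣ Nat.card (Subgroup.centralizer ({(⟨x, hx⟩ : fixN P)} : Set (fixN P)))) (q : N)
    (hq : q * x * q⁻¹ = y) : ∃ n ∈ fixN P, n * x * n⁻¹ = y := by
  have : Fact ℓ.Prime := ⟨hℓ⟩
  have hfin : Finite (Tra x y) := Subtype.finite
  have h1 : ¬ ℓ ∣ Nat.card (Tra x y) := by
    intro h
    rw [card_tra q hq] at h
    apply hc
    exact (Nat.ModEq.dvd_iff (cent_mod hℓ P hP hx) dvd_rfl).1 h
  let _ := traAct P hx hy
  have h2 := hP.card_modEq_card_fixedPoints (Tra x y)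
  have h3 : ¬ ℓ ∣ Nat.card (MulAction.fixedPoints P (Tra x y)) := by
    intro h
    exact h1 ((Nat.ModEq.dvd_iff h2 dvd_rfl).2 h)
  have h4 : Nonempty (MulAction.fixedPoints P (Tra x y)) := by
    by_contra hne
    rw [not_nonempty_iff] at hne
    apply h3
    rw [Nat.card_of_isEmpty]
    exact dvd_zero _
  obtain ⟨n, hn⟩ := h4
  refine ⟨n.1, ?_, n.2⟩
  intro p hp
  exact congrArg Subtype.val (hn ⟨p, hp⟩)

end fix

section blk

variable {F N : Type} [Field F] [Group N] [Finite N]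

/-- truncation to the fixed points is multiplicative on invariant functions -/
theorem trunc_mul {ℓ : ℕ} (hF : GoodF ℓ F) (P : Subgroup (MulAut N)) (hP : IsPGroup ℓ P)
    {a c : N → F} (ha : InvF P a) (hc : InvF P c) :
    (fun x : fixN P => mulF a c x) = mulF (fun x : fixN P => a x) (fun x : fixN P => c x) := by
  have hch := hF.char
  have : Fact ℓ.Prime := ⟨hF.prime⟩
  have hfin := Fintype.ofFinite N
  classical
  funext g
  have hV : ∀ v : F, ℓ • v = 0 := by
    intro v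
    rw [nsmul_eq_mul, CharP.cast_eq_zero, zero_mul]
  let _ : MulAction P N :=
    { smul := fun p t => (p : MulAut N) t
      one_smul := fun _ => rfl
      mul_smul := fun _ _ _ => rfl }
  have hsm : ∀ (p : P) (t : N), p • t = (p : MulAut N) t := fun _ _ => rfl
  show mulF a c (g : N) = mulF (fun x : fixN P => a x) (fun x : fixN P => c x) g
  unfold mulF
  rw [finsum_eq_sum_of_fintype, finsum_eq_sum_of_fintype]
  rw [Pool.Agent.PP.H74.orbit_sum hP hV (fun t => a t * c (t⁻¹ * g)) (fun p t => by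
    rw [hsm]
    show a ((p : MulAut N) t) * c (((p : MulAut N) t)⁻¹ * g) = a t * c (t⁻¹ * g)
    have h1 : ((p : MulAut N) t)⁻¹ * g = (p : MulAut N) (t⁻¹ * g) := by
      rw [map_mul, map_inv, g.2 p p.2]
    rw [h1, ha p p.2, hc p p.2])]
  symm
  rw [Finset.sum_filter]
  apply Fintype.sum_of_injective (fun t : fixN P => (t : N)) Subtype.val_injective
  · intro t ht
    rw [if_neg]
    intro hc
    exact ht ⟨⟨t, fun p hp => hc ⟨p, hp⟩⟩, rfl⟩
  · intro t
    rw [if_pos]
    · rfl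
    · intro p
      exact t.2 p p.2

theorem blk : BlkStmt := by
  intro ℓ F _ hF N _ _ b hb P hP hinv hex
  have hℓ := hF.prime
  have hch := hF.char
  classical
  have hcl : IsCl (fun x : fixN P => b x) := by
    intro x y
    exact hb.2.1 x y
  have hprc : PrC ℓ (fun x : fixN P => b x) := by
    refine ⟨hcl, ?_⟩
    intro x hx
    apply hb.2.2
    apply hx.trans
    let φ : Subgroup.centralizer ({x} : Set (fixN P)) →* Subgroup.centralizer ({(x : N)} : Set N) :=
      { toFun := fun c => ⟨c.1.1, by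
          rw [Subgroup.mem_centralizer_singleton_iff]
          exact congrArg Subtype.val (Subgroup.mem_centralizer_singleton_iff.1 c.2)⟩
        map_one' := rfl
        map_mul' := fun _ _ => rfl }
    apply Subgroup.card_dvd_of_injective φ
    intro c c' h
    have h1 : (φ c).1 = (φ c').1 := by rw [h]
    apply Subtype.ext
    apply Subtype.ext
    exact h1
  have hidem : IsIdem (fun x : fixN P => b x) := by
    refine ⟨hcl, ?_⟩
    rw [← trunc_mul hF P hP hinv hinv, hb.1.1.2]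
  have hne : (fun x : fixN P => b x) ≠ 0 := by
    obtain ⟨x, hx, hbx⟩ := hex
    intro h
    exact hbx (congrFun h ⟨x, hx⟩)
  refine ⟨⟨hidem, hne, ?_⟩, hprc⟩
  intro c hc
  -- the idempotent below `b`
  obtain ⟨c1, hc1⟩ : ∃ c1, c1 = mulF (fun x : fixN P => b x) c := ⟨_, rfl⟩
  have hc1cl : IsCl c1 := by rw [hc1]; exact isCl_mulF hcl hc.1
  have hc1s : Sup0 ℓ c1 := by
    rw [hc1]
    exact (pci ℓ F hF (fixN P) _ c hprc hc.1).2.2
  have hc1b : mulF c1 (fun x : fixN P => b x) = c1 := by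
    rw [mulF_comm_of_cl hc1cl, hc1, ← mulF_assoc, hidem.2]
  have hc1i : mulF c1 c1 = c1 := by
    have h1 : mulF c1 c = c1 := by rw [hc1, mulF_assoc, hc.2]
    have h2 : mulF c1 c1 = mulF (mulF c1 (fun x : fixN P => b x)) c := by
      rw [mulF_assoc, ← hc1]
    rw [h2, hc1b, h1]
  -- the lift
  have hdef : ∀ (x x' : fixN P), ¬ ℓ ∣ Nat.card (Subgroup.centralizer ({x} : Set (fixN P))) →
      (∃ q : N, q * x * q⁻¹ = x') → c1 x = c1 x' := by
    intro x x' hx hq
    obtain ⟨q, hq⟩ := hq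
    obtain ⟨n, hn, hn'⟩ := fix_conj hℓ P hP x.2 x'.2 hx q hq
    have h1 := hc1cl x ⟨n, hn⟩
    rw [← h1]
    congr 1
    exact Subtype.ext hn'
  let z : N → F := fun y => if h : ∃ x : fixN P,
    (¬ ℓ ∣ Nat.card (Subgroup.centralizer ({x} : Set (fixN P)))) ∧ ∃ q : N, q * x * q⁻¹ = y
    then c1 h.choose else 0
  have hz1 : ∀ (y : N) (x : fixN P), (¬ ℓ ∣ Nat.card (Subgroup.centralizer ({x} : Set (fixN P)))) →
      (∃ q : N, q * x * q⁻¹ = y) → z y = c1 x := by
    intro y x hx hq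
    have h : ∃ x : fixN P, (¬ ℓ ∣ Nat.card (Subgroup.centralizer ({x} : Set (fixN P)))) ∧
        ∃ q : N, q * x * q⁻¹ = y := ⟨x, hx, hq⟩
    have h1 : z y = c1 h.choose := dif_pos h
    rw [h1]
    obtain ⟨h2, q2, hq2⟩ := h.choose_spec
    obtain ⟨q, hq⟩ := hq
    apply hdef _ _ h2
    refine ⟨q⁻¹ * q2, ?_⟩
    calc q⁻¹ * q2 * (h.choose : N) * (q⁻¹ * q2)⁻¹ = q⁻¹ * (q2 * (h.choose : N) * q2⁻¹) * q := by
          group
      _ = q⁻¹ * y * q := by rw [hq2]
      _ = q⁻¹ * (q * x * q⁻¹) * q := by rw [hq]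
      _ = x := by group
  have hz0 : ∀ y : N, (¬ ∃ x : fixN P, (¬ ℓ ∣ Nat.card (Subgroup.centralizer ({x} : Set (fixN P)))) ∧
      ∃ q : N, q * x * q⁻¹ = y) → z y = 0 := fun y h => dif_neg h
  have hzcl : IsCl z := by
    intro y k
    by_cases h : ∃ x : fixN P, (¬ ℓ ∣ Nat.card (Subgroup.centralizer ({x} : Set (fixN P)))) ∧
      ∃ q : N, q * x * q⁻¹ = y
    · obtain ⟨x, hx, q, hq⟩ := h
      rw [hz1 y x hx ⟨q, hq⟩, hz1 _ x hx ⟨k * q, by rw [← hq]; group⟩]
    · rw [hz0 y h, hz0]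
      rintro ⟨x, hx, q, hq⟩
      apply h
      refine ⟨x, hx, k⁻¹ * q, ?_⟩
      calc k⁻¹ * q * x * (k⁻¹ * q)⁻¹ = k⁻¹ * (q * x * q⁻¹) * k := by group
        _ = k⁻¹ * (k * y * k⁻¹) * k := by rw [hq]
        _ = y := by group
  have hzinv : InvF P z := by
    intro p hp y
    by_cases h : ∃ x : fixN P, (¬ ℓ ∣ Nat.card (Subgroup.centralizer ({x} : Set (fixN P)))) ∧
      ∃ q : N, q * x * q⁻¹ = y
    · obtain ⟨x, hx, q, hq⟩ := h
      rw [hz1 y x hx ⟨q, hq⟩, hz1 _ x hx ⟨p q, by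
        rw [← hq, map_mul, map_mul, map_inv, x.2 p hp]⟩]
    · rw [hz0 y h, hz0]
      rintro ⟨x, hx, q, hq⟩
      apply h
      refine ⟨x, hx, p⁻¹ q, ?_⟩
      have h1 := congrArg (p⁻¹ : MulAut N) hq
      rw [map_mul, map_mul, map_inv, x.2 p⁻¹ (P.inv_mem hp), MulAut.inv_apply_self] at h1
      exact h1
  have hztr : (fun x : fixN P => z x) = c1 := by
    funext y
    show z y = c1 y
    by_cases h : ℓ ∣ Nat.card (Subgroup.centralizer ({y} : Set (fixN P)))
    · rw [hc1s y h]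
      by_cases h' : ∃ x : fixN P, (¬ ℓ ∣ Nat.card (Subgroup.centralizer ({x} : Set (fixN P)))) ∧
        ∃ q : N, q * x * q⁻¹ = y
      · obtain ⟨x, hx, q, hq⟩ := h'
        rw [hz1 y x hx ⟨q, hq⟩, hdef x y hx ⟨q, hq⟩, hc1s y h]
      · exact hz0 y h'
    · exact hz1 y y h ⟨1, by group⟩
  -- conclusion
  obtain ⟨n, ρ, hρ, hρb⟩ := blk_rep hF hb.1.1 hb.1.2.1
  obtain ⟨w, -, hw⟩ := mat_central hF hb.1 hb.2.2 hρ hρb hzcl
  have h1 : mulF c1 (fun x : fixN P => b x) = w • (fun x : fixN P => b x) := by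
    rw [← hztr, ← trunc_mul hF P hP hzinv hinv, hw]
    rfl
  rw [hc1b] at h1
  have h2 : w * w = w ∨ c1 = 0 := by
    by_cases h0 : w = 0
    · right
      rw [h1, h0, zero_smul]
    · left
      have h3 : w • (w • (fun x : fixN P => b x)) = w • (fun x : fixN P => b x) := by
        have h4 := hc1i
        rw [h1, mulF_smul, smul_mulF, hidem.2] at h4
        exact h4
      rw [smul_smul, ← sub_eq_zero, ← sub_smul, smul_eq_zero] at h3
      rcases h3 with h3 | h3
      · exact sub_eq_zero.1 h3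
      · exact absurd h3 hne
  rw [← hc1]
  rcases h2 with h2 | h2
  · by_cases h0 : w = 0
    · right
      rw [h1, h0, zero_smul]
    · left
      have h3 : w = 1 := mul_left_cancel₀ h0 (h2.trans (mul_one w).symm)
      rw [h1, h3, one_smul]
  · exact Or.inr h2

end blk

end Pool.Agent.PP.H20
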