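import Pool.Agent.Helper66_PP.StmtsJ

/-!
FRA (J7.2): two elements which commute modulo `J` can be moved into a subgroup which is nilpotent
modulo `Y`.
-/

noncomputable section

namespace Pool.Agent.PP.H20

/-- a minimal supplement of a normal subgroup -/
theorem min_supp (Q : Type) [Group Q] [Finite Q] (T : Subgroup Q) :
    ∃ V : Subgroup Q, V ⊔ T = ⊤ ∧ Group.IsNilpotent ↥(V ⊓ T) := by
  have hfin : Finite (Subgroup Q) := inferInstance
  obtain ⟨V, hV, hmin⟩ := Set.Finite.exists_minimal (s := {V : Subgroup Q | V ⊔ T = ⊤})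
    (Set.toFinite _) ⟨⊤, top_sup_eq _⟩
  have hV' : V ⊔ T = ⊤ := hV
  refine ⟨V, hV', ?_⟩
  have hle : T.subgroupOf V ≤ frattini V := by
    unfold frattini Order.radical
    refine le_iInf₂ fun K hK => ?_
    by_contra hc
    have hKc : IsCoatom K := hK
    have h1 : K ⊔ T.subgroupOf V = ⊤ := by
      apply hKc.2
      exact left_lt_sup.2 hc
    have h2 : (K.map V.subtype) ⊔ T = ⊤ := by
      rw [eq_top_iff, ← hV']
      apply sup_le _ le_sup_right
      have h3 : V ≤ (K ⊔ T.subgroupOf V).map V.subtype := by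
        rw [h1, ← MonoidHom.range_eq_map, Subgroup.range_subtype]
      refine h3.trans ?_
      rw [Subgroup.map_sup]
      refine sup_le le_sup_left (le_trans ?_ le_sup_right)
      rintro _ ⟨t, ht, rfl⟩
      exact Subgroup.mem_subgroupOf.1 ht
    have h4 : K.map V.subtype ≤ V := by
      rintro _ ⟨k, -, rfl⟩
      exact k.2
    have h5 := hmin h2 h4
    apply hKc.1
    rw [eq_top_iff]
    intro v _
    obtain ⟨k, hk, hkv⟩ := h5 v.2
    have : k = v := Subtype.ext hkv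
    rwa [← this]
  have hfr : Group.IsNilpotent (frattini V) := frattini_nilpotent
  have h6 : Group.IsNilpotent ↥(T.subgroupOf V) :=
    Group.nilpotent_of_mulEquiv (Subgroup.subgroupOfEquivOfLe hle)
  have e1 : ↥((T ⊓ V).subgroupOf V) ≃* ↥(T ⊓ V) := Subgroup.subgroupOfEquivOfLe inf_le_right
  rw [Subgroup.inf_subgroupOf_right] at e1
  rw [inf_comm]
  exact Group.nilpotent_of_mulEquiv e1

/-- commutators in a group generated by two elements which commute modulo `T` -/
theorem comm_closure {Q : Type} [Group Q] (T : Subgroup Q) [T.Normal] {a b : Q}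
    (hab : a * b * a⁻¹ * b⁻¹ ∈ T) :
    ∀ g ∈ Subgroup.closure {a, b}, ∀ h ∈ Subgroup.closure {a, b}, g * h * g⁻¹ * h⁻¹ ∈ T := by
  have hAB : (QuotientGroup.mk' T) a * (QuotientGroup.mk' T) b =
      (QuotientGroup.mk' T) b * (QuotientGroup.mk' T) a := by
    have h1 : (QuotientGroup.mk' T) (a * b * a⁻¹ * b⁻¹) = 1 := (QuotientGroup.eq_one_iff _).2 hab
    rw [map_mul, map_mul, map_mul, map_inv, map_inv] at h1
    rw [mul_inv_eq_one, mul_inv_eq_iff_eq_mul] at h1
    exact h1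
  have key : ∀ c : Q, (QuotientGroup.mk' T) c * (QuotientGroup.mk' T) a =
      (QuotientGroup.mk' T) a * (QuotientGroup.mk' T) c →
      (QuotientGroup.mk' T) c * (QuotientGroup.mk' T) b =
      (QuotientGroup.mk' T) b * (QuotientGroup.mk' T) c →
      ∀ g ∈ Subgroup.closure {a, b}, (QuotientGroup.mk' T) c * (QuotientGroup.mk' T) g =
        (QuotientGroup.mk' T) g * (QuotientGroup.mk' T) c := by
    intro c hca hcb g hg
    have h1 : Subgroup.closure {a, b} ≤
        (Subgroup.centralizer {(QuotientGroup.mk' T) c}).comap (QuotientGroup.mk' T) := by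
      rw [Subgroup.closure_le]
      intro x hx
      rcases hx with rfl | rfl
      · exact Subgroup.mem_centralizer_singleton_iff.2 hca.symm
      · exact Subgroup.mem_centralizer_singleton_iff.2 hcb.symm
    exact (Subgroup.mem_centralizer_singleton_iff.1 (h1 hg)).symm
  intro g hg h hh
  have h1 := key g (key a rfl hAB g hg).symm (key b hAB.symm rfl g hg).symm h hh
  have h2 : (QuotientGroup.mk' T) (g * h * g⁻¹ * h⁻¹) = 1 := by
    rw [map_mul, map_mul, map_mul, map_inv, map_inv, h1]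
    group
  exact (QuotientGroup.eq_one_iff _).1 h2

/-- two elements which commute modulo `T` can be moved modulo `T` into a nilpotent subgroup -/
theorem min_pair (Q : Type) [Group Q] [Finite Q] (T : Subgroup Q) (hT : T.Normal) (a b : Q)
    (hab : a * b * a⁻¹ * b⁻¹ ∈ T) :
    ∃ V : Subgroup Q, (∃ t ∈ T, a * t ∈ V) ∧ (∃ t ∈ T, b * t ∈ V) ∧ Group.IsNilpotent V := by
  have hfin : Finite (Subgroup Q) := inferInstance
  obtain ⟨V, hV, hmin⟩ := Set.Finite.exists_minimal
    (s := {V : Subgroup Q | (∃ t ∈ T, a * t ∈ V) ∧ ∃ t ∈ T, b * t ∈ V})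
    (Set.toFinite _) ⟨⊤, ⟨1, T.one_mem, trivial⟩, ⟨1, T.one_mem, trivial⟩⟩
  obtain ⟨⟨t1, ht1, ha⟩, ⟨t2, ht2, hb⟩⟩ := hV
  refine ⟨V, ⟨t1, ht1, ha⟩, ⟨t2, ht2, hb⟩, ?_⟩
  have hVc : V = Subgroup.closure {a * t1, b * t2} := by
    apply le_antisymm
    · apply hmin
      · exact ⟨⟨t1, ht1, Subgroup.subset_closure (Or.inl rfl)⟩,
          ⟨t2, ht2, Subgroup.subset_closure (Or.inr rfl)⟩⟩
      · rw [Subgroup.closure_le]
        rintro x (rfl | rfl)
        · exact ha
        · exact hb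
    · rw [Subgroup.closure_le]
      rintro x (rfl | rfl)
      · exact ha
      · exact hb
  have hab' : (a * t1) * (b * t2) * (a * t1)⁻¹ * (b * t2)⁻¹ ∈ T := by
    have h1 : ((t1 : Q) : Q ⧸ T) = 1 := (QuotientGroup.eq_one_iff t1).2 ht1
    have h2 : ((t2 : Q) : Q ⧸ T) = 1 := (QuotientGroup.eq_one_iff t2).2 ht2
    have h3 : ((a * b * a⁻¹ * b⁻¹ : Q) : Q ⧸ T) = 1 := (QuotientGroup.eq_one_iff _).2 hab
    apply (QuotientGroup.eq_one_iff _).1
    simp only [QuotientGroup.mk_mul, QuotientGroup.mk_inv, h1, h2, mul_one] at h3 ⊢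
    exact h3
  have hcomm : ∀ g ∈ V, ∀ h ∈ V, g * h * g⁻¹ * h⁻¹ ∈ T := by
    intro g hg h hh
    rw [hVc] at hg hh
    exact comm_closure T hab' g hg h hh
  -- the maximal subgroups contain `T`
  have hmax : ∀ K : Subgroup V, IsCoatom K → T.subgroupOf V ≤ K := by
    intro K hK
    by_contra hc
    have h1 : K ⊔ T.subgroupOf V = ⊤ := hK.2 _ (left_lt_sup.2 hc)
    have hTn : (T.subgroupOf V).Normal := hT.subgroupOf V
    have hmov : ∀ c : Q, (∃ t ∈ T, c * t ∈ V) → ∃ t ∈ T, c * t ∈ K.map V.subtype := by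
      rintro c ⟨t, ht, hct⟩
      have h2 : (⟨c * t, hct⟩ : V) ∈ K ⊔ T.subgroupOf V := by rw [h1]; trivial
      obtain ⟨k, hk, s, hs, hks⟩ := Subgroup.mem_sup_of_normal_right.1 h2
      have hs' : (s : Q) ∈ T := Subgroup.mem_subgroupOf.1 hs
      have h3 : (k : Q) * (s : Q) = c * t := congrArg Subtype.val hks
      refine ⟨t * (s : Q)⁻¹, T.mul_mem ht (T.inv_mem hs'), ⟨k, hk, ?_⟩⟩
      show (k : Q) = c * (t * (s : Q)⁻¹)
      rw [← mul_assoc, ← h3]
      group
    have h4 : K.map V.subtype ≤ V := by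
      rintro _ ⟨k, -, rfl⟩
      exact k.2
    have h5 := hmin (y := K.map V.subtype) ⟨hmov a ⟨t1, ht1, ha⟩, hmov b ⟨t2, ht2, hb⟩⟩ h4
    apply hK.1
    rw [eq_top_iff]
    intro v _
    obtain ⟨k, hk, hkv⟩ := h5 v.2
    have : k = v := Subtype.ext hkv
    rwa [← this]
  have htfae := Group.isNilpotent_of_finite_tfae (G := V)
  refine (htfae.out 0 2).2 ?_
  intro K hK
  refine ⟨fun k hk g => ?_⟩
  have h6 : g * k * g⁻¹ * k⁻¹ ∈ K := hmax K hK (Subgroup.mem_subgroupOf.2
    (hcomm g g.2 k k.2))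
  have h7 := K.mul_mem h6 hk
  rwa [inv_mul_cancel_right] at h7

theorem fra : FraStmt := by
  intro X _ _ Y J hY hJ hYJ x y hxy
  have hJn : (J.map (QuotientGroup.mk' Y)).Normal := hJ.map _ (QuotientGroup.mk'_surjective Y)
  obtain ⟨V, ⟨s, hs, hxs⟩, ⟨t, ht, hyt⟩, hnil⟩ := min_pair (X ⧸ Y) (J.map (QuotientGroup.mk' Y)) hJn
    (QuotientGroup.mk' Y x) (QuotientGroup.mk' Y y) (by
      rw [← map_mul, ← map_inv, ← map_mul, ← map_inv, ← map_mul]
      exact Subgroup.mem_map_of_mem _ hxy)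
  obtain ⟨j, hj, rfl⟩ := hs
  obtain ⟨j', hj', rfl⟩ := ht
  have hmapL : (V.comap (QuotientGroup.mk' Y)).map (QuotientGroup.mk' Y) = V :=
    Subgroup.map_comap_eq_self_of_surjective (QuotientGroup.mk'_surjective Y) V
  refine ⟨V.comap (QuotientGroup.mk' Y), ?_, ⟨j, hj, ?_⟩, ⟨j', hj', ?_⟩, ?_⟩
  · intro g hg
    rw [Subgroup.mem_comap]
    have h1 : (QuotientGroup.mk' Y) g = 1 := (QuotientGroup.eq_one_iff g).2 hg
    rw [h1]
    exact V.one_mem
  · rw [Subgroup.mem_comap, map_mul]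
    exact hxs
  · rw [Subgroup.mem_comap, map_mul]
    exact hyt
  · obtain ⟨n, hn⟩ := (Subgroup.isNilpotent_iff_lowerCentralSeries V).1 hnil
    refine ⟨n, ?_⟩
    intro g hg
    have h1 : (QuotientGroup.mk' Y) g ∈
        ((V.comap (QuotientGroup.mk' Y)).lowerCentralSeries n).map (QuotientGroup.mk' Y) :=
      Subgroup.mem_map_of_mem _ hg
    rw [Subgroup.map_lowerCentralSeries, hmapL, hn, Subgroup.mem_bot] at h1
    exact (QuotientGroup.eq_one_iff g).1 h1

end Pool.Agent.PP.H20
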