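import Mathlib

/-!
AWC, base: trace functions of the simple modules of a finite dimensional algebra over an
algebraically closed field.
-/

open scoped BigOperators

noncomputable section

namespace Pool.Agent.PP.H20

variable (F : Type) [Field F]

/-- the trace functions of the surjections of `A` onto matrix algebras -/
def Sim (A : Type) [Ring A] [Algebra F A] : Set (A → F) :=
  {τ | ∃ (n : ℕ) (ρ : A →ₐ[F] Matrix (Fin n) (Fin n) F), 0 < n ∧ Function.Surjective ρ ∧
    ∀ a, τ a = (ρ a).trace}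

variable {F}

variable {A : Type} [Ring A] [Algebra F A]

theorem sim_of_end {V : Type} [AddCommGroup V] [Module F V] [FiniteDimensional F V]
    [Nontrivial V] (ρ : A →ₐ[F] Module.End F V) (h : Function.Surjective ρ) :
    (fun a => LinearMap.trace F V (ρ a)) ∈ Sim F A := by
  have b := Module.finBasis F V
  refine ⟨Module.finrank F V, ((LinearMap.toMatrixAlgEquiv b).toAlgHom.comp ρ), ?_, ?_, ?_⟩
  · exact Module.finrank_pos
  · exact (LinearMap.toMatrixAlgEquiv b).surjective.comp h
  · intro a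
    show LinearMap.trace F V (ρ a) = ((LinearMap.toMatrixAlgEquiv b) (ρ a)).trace
    rw [LinearMap.trace_eq_matrix_trace F b]
    rfl

theorem mat_gen {n : ℕ} (M : Matrix (Fin n) (Fin n) F) (h : M ≠ 0) :
    ∃ (i j : Fin n), M i j ≠ 0 ∧
      ∑ p, Matrix.single p i (M i j)⁻¹ * M * Matrix.single j p 1 = 1 := by
  obtain ⟨i, j, hij⟩ : ∃ i j, M i j ≠ 0 := by
    by_contra hc
    push Not at hc
    exact h (Matrix.ext hc)
  refine ⟨i, j, hij, ?_⟩
  simp only [Matrix.single_mul_mul_single, mul_one, inv_mul_cancel₀ hij]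
  ext a b
  simp only [Matrix.sum_apply, Matrix.single_apply, Matrix.one_apply]
  by_cases hab : a = b
  · subst hab
    simp
  · rw [if_neg hab]
    apply Finset.sum_eq_zero
    intro p _
    rw [if_neg]
    rintro ⟨rfl, rfl⟩
    exact hab rfl

/-- A surjection onto a matrix algebra kills the nilpotent two sided ideals. -/
theorem surj_nil {n : ℕ} (hn : 0 < n) (ρ : A →ₐ[F] Matrix (Fin n) (Fin n) F)
    (h : Function.Surjective ρ) (J : Ideal A) [J.IsTwoSided] (hJ : ∀ a ∈ J, IsNilpotent a) (a : A)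
    (ha : a ∈ J) : ρ a = 0 := by
  have : NeZero n := ⟨hn.ne'⟩
  by_contra hne
  obtain ⟨i, j, -, hs⟩ := mat_gen _ hne
  choose g hg using h
  have hb : ∑ p, g (Matrix.single p i (ρ a i j)⁻¹) * a * g (Matrix.single j p 1) ∈ J := by
    apply Submodule.sum_mem
    intro p _
    exact J.mul_mem_right _ (J.mul_mem_left _ ha)
  obtain ⟨k, hk⟩ := hJ _ hb
  have h1 := congrArg ρ hk
  rw [map_pow, map_sum] at h1
  simp only [map_mul, hg, hs, one_pow, map_zero] at h1
  exact one_ne_zero h1

theorem comm_scalar {n : ℕ} (M : Matrix (Fin n) (Fin n) F) (h : ∀ N, N * M = M * N) :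
    ∃ c : F, M = c • 1 := by
  have h1 : M ∈ Set.range (Matrix.scalar (Fin n)) := by
    rw [Matrix.mem_range_scalar_iff_commute_single']
    intro i j
    exact h _
  obtain ⟨c, rfl⟩ := h1
  exact ⟨c, by rw [Matrix.scalar_apply, Matrix.smul_one_eq_diagonal]⟩

/-- an algebra isomorphism of matrix algebras is a conjugation -/
theorem equiv_conj {m n : ℕ} (f : Matrix (Fin m) (Fin m) F ≃ₐ[F] Matrix (Fin n) (Fin n) F) :
    ∃ (X : Matrix (Fin n) (Fin m) F) (Y : Matrix (Fin m) (Fin n) F), n = m ∧ X * Y = 1 ∧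
      Y * X = 1 ∧ ∀ x, X * x = f x * X := by
  let g : Module.End F (Fin m → F) ≃ₐ[F] Module.End F (Fin n → F) :=
    (Matrix.toLinAlgEquiv' (R := F) (n := Fin m)).symm.trans
      (f.trans (Matrix.toLinAlgEquiv' (R := F) (n := Fin n)))
  obtain ⟨T, hT⟩ := AlgEquiv.eq_linearEquivConjAlgEquiv g
  have h1 : ∀ x, Matrix.toLin' (f x) = T.toLinearMap ∘ₗ Matrix.toLin' x ∘ₗ T.symm.toLinearMap := by
    intro x
    have h2 : Matrix.toLinAlgEquiv' (f x) = g (Matrix.toLinAlgEquiv' x) := by
      show _ = Matrix.toLinAlgEquiv' (f (Matrix.toLinAlgEquiv'.symm (Matrix.toLinAlgEquiv' x)))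
      rw [AlgEquiv.symm_apply_apply]
    rw [hT] at h2
    exact h2
  refine ⟨LinearMap.toMatrix' T.toLinearMap, LinearMap.toMatrix' T.symm.toLinearMap, ?_, ?_, ?_, ?_⟩
  · have := T.finrank_eq
    simpa using this.symm
  · rw [← LinearMap.toMatrix'_comp, LinearEquiv.comp_coe, LinearEquiv.symm_trans_self]
    exact LinearMap.toMatrix'_id
  · rw [← LinearMap.toMatrix'_comp, LinearEquiv.comp_coe, LinearEquiv.self_trans_symm]
    exact LinearMap.toMatrix'_id
  · intro x
    have h2 := congrArg LinearMap.toMatrix' (h1 x)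
    rw [LinearMap.toMatrix'_toLin'] at h2
    rw [h2, ← LinearMap.toMatrix'_comp]
    have h3 : (LinearMap.toMatrix' T.toLinearMap) * x =
        LinearMap.toMatrix' (T.toLinearMap ∘ₗ Matrix.toLin' x) := by
      rw [LinearMap.toMatrix'_comp, LinearMap.toMatrix'_toLin']
    rw [h3]
    congr 1
    ext v
    simp

/-- an algebra isomorphism of matrix algebras preserves the trace -/
theorem trace_equiv {m n : ℕ} (f : Matrix (Fin m) (Fin m) F ≃ₐ[F] Matrix (Fin n) (Fin n) F)
    (x : Matrix (Fin m) (Fin m) F) : (f x).trace = x.trace := by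
  let g : Module.End F (Fin m → F) ≃ₐ[F] Module.End F (Fin n → F) :=
    (Matrix.toLinAlgEquiv' (R := F) (n := Fin m)).symm.trans
      (f.trans (Matrix.toLinAlgEquiv' (R := F) (n := Fin n)))
  obtain ⟨T, hT⟩ := AlgEquiv.eq_linearEquivConjAlgEquiv g
  have h1 : Matrix.toLinAlgEquiv' (f x) = g (Matrix.toLinAlgEquiv' x) := by
    show _ = Matrix.toLinAlgEquiv' (f (Matrix.toLinAlgEquiv'.symm (Matrix.toLinAlgEquiv' x)))
    rw [AlgEquiv.symm_apply_apply]
  have h2 : LinearMap.trace F _ (Matrix.toLinAlgEquiv' (f x)) =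
      LinearMap.trace F _ (Matrix.toLinAlgEquiv' x) := by
    rw [h1, hT]
    exact LinearMap.trace_conj' _ T
  have h3 : ∀ {k : ℕ} (y : Matrix (Fin k) (Fin k) F),
      LinearMap.trace F _ (Matrix.toLinAlgEquiv' y) = y.trace := by
    intro k y
    have := Matrix.trace_toLin'_eq y
    exact this
  rw [h3, h3] at h2
  exact h2

/-- structure theorem -/
theorem sim_struct (A : Type) [Ring A] [Algebra F A] [IsAlgClosed F] [FiniteDimensional F A] :
    ∃ (n : ℕ) (d : Fin n → ℕ) (π : A →ₐ[F] Π i, Matrix (Fin (d i)) (Fin (d i)) F),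
      (∀ i, 0 < d i) ∧ Function.Surjective π ∧ (∀ a, π a = 0 ↔ a ∈ Ring.jacobson A) ∧
      (∀ (m : ℕ) (ρ : A →ₐ[F] Matrix (Fin m) (Fin m) F), 0 < m → Function.Surjective ρ →
        ∃ i, (∀ a, (ρ a).trace = (π a i).trace) ∧ ∀ a, ρ a = 0 ↔ π a i = 0) := by
  have : IsArtinianRing A := IsArtinianRing.of_finite F A
  obtain ⟨n, d, hd, ⟨e⟩⟩ := IsSemisimpleRing.exists_algEquiv_pi_matrix_of_isAlgClosed F
    (A ⧸ Ring.jacobson A)
  let q : A →ₐ[F] A ⧸ Ring.jacobson A := Ideal.Quotient.mkₐ F (Ring.jacobson A)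
  have hq : Function.Surjective q := Ideal.Quotient.mkₐ_surjective F _
  have hq0 : ∀ a, q a = 0 ↔ a ∈ Ring.jacobson A := fun a => Ideal.Quotient.eq_zero_iff_mem
  let π : A →ₐ[F] Π i, Matrix (Fin (d i)) (Fin (d i)) F := e.toAlgHom.comp q
  have hπ : Function.Surjective π := e.surjective.comp hq
  have hπ0 : ∀ a, π a = 0 ↔ a ∈ Ring.jacobson A := by
    intro a
    rw [← hq0]
    show e (q a) = 0 ↔ _
    exact map_eq_zero_iff e e.injective
  refine ⟨n, d, π, fun i => Nat.pos_of_ne_zero (hd i).out, hπ, hπ0, ?_⟩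
  intro m ρ hm hρ
  have : NeZero m := ⟨hm.ne'⟩
  have hnil : ∀ a ∈ Ring.jacobson A, IsNilpotent a := by
    intro a ha
    obtain ⟨k, hk⟩ := IsSemiprimaryRing.isNilpotent (R := A)
    refine ⟨k, ?_⟩
    have := Ideal.pow_mem_pow ha k
    rw [hk] at this
    exact this
  have hker : ∀ a, π a = 0 → ρ a = 0 := fun a ha => surj_nil hm ρ hρ _ hnil a ((hπ0 a).1 ha)
  choose s hs using hπ
  have hρs : ∀ a, ρ (s (π a)) = ρ a := by
    intro a
    have h1 : π (s (π a) - a) = 0 := by rw [map_sub, hs, sub_self]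
    have h2 := hker _ h1
    rw [map_sub, sub_eq_zero] at h2
    exact h2
  -- the central idempotents
  let ε : Fin n → Π i, Matrix (Fin (d i)) (Fin (d i)) F := fun i => Pi.single i 1
  have hε1 : ∑ i, ε i = 1 := by
    funext j
    rw [Finset.sum_apply]
    exact Finset.univ_sum_single (1 : Π i, Matrix (Fin (d i)) (Fin (d i)) F) |> fun h => by
      have := congrFun h j
      rw [Finset.sum_apply] at this
      exact this
  have hεc : ∀ i, ∃ c : F, ρ (s (ε i)) = c • 1 := by
    intro i
    apply comm_scalar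
    intro N
    obtain ⟨a, rfl⟩ := hρ N
    rw [← map_mul, ← map_mul, ← hρs (a * s (ε i)), ← hρs (s (ε i) * a), map_mul, map_mul, hs]
    congr 2
    funext j
    simp only [Pi.mul_apply, ε]
    by_cases hij : j = i
    · subst hij; rw [Pi.single_eq_same, mul_one, one_mul]
    · rw [Pi.single_eq_of_ne hij, mul_zero, zero_mul]
  have hsum : ∑ i, ρ (s (ε i)) = 1 := by
    rw [← map_sum, ← hρs, map_sum]
    simp only [hs]
    rw [hε1]
    have := hρs 1
    rw [map_one] at this
    rw [this, map_one]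
  obtain ⟨i, hi⟩ : ∃ i, ρ (s (ε i)) ≠ 0 := by
    by_contra hc
    push Not at hc
    rw [Finset.sum_eq_zero (fun i _ => hc i)] at hsum
    exact zero_ne_one hsum
  have hi1 : ρ (s (ε i)) = 1 := by
    obtain ⟨c, hc⟩ := hεc i
    have h1 : ρ (s (ε i)) * ρ (s (ε i)) = ρ (s (ε i)) := by
      rw [← map_mul, ← hρs, map_mul, hs]
      congr 2
      funext j
      simp only [Pi.mul_apply, ε]
      by_cases hij : j = i
      · subst hij; rw [Pi.single_eq_same, mul_one]
      · rw [Pi.single_eq_of_ne hij, mul_zero]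
    rw [hc] at h1 hi ⊢
    rw [smul_mul_smul_comm, one_mul] at h1
    have h2 : c * c = c := by
      have := congrFun (congrFun h1 0) 0
      simpa using this
    have h3 : c ≠ 0 := by
      rintro rfl
      exact hi (zero_smul _ _)
    have h4 : c = 1 := by
      have := mul_left_cancel₀ h3 (h2.trans (mul_one c).symm)
      exact this
    rw [h4, one_smul]
  have hfac : ∀ a, ρ a = ρ (s (Pi.single i (π a i))) := by
    intro a
    calc ρ a = ρ a * ρ (s (ε i)) := by rw [hi1, mul_one]
      _ = ρ (a * s (ε i)) := (map_mul _ _ _).symm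
      _ = ρ (s (π (a * s (ε i)))) := (hρs _).symm
      _ = ρ (s (Pi.single i (π a i))) := by
        rw [map_mul, hs]
        congr 2
        funext j
        simp only [Pi.mul_apply, ε]
        by_cases hij : j = i
        · subst hij; rw [Pi.single_eq_same, mul_one, Pi.single_eq_same]
        · rw [Pi.single_eq_of_ne hij, mul_zero, Pi.single_eq_of_ne hij]
  have hval : ∀ u a, π a = u → ρ (s u) = ρ a := by
    rintro u a rfl
    exact hρs a
  let L : Matrix (Fin (d i)) (Fin (d i)) F →ₗ[F] Matrix (Fin m) (Fin m) F :=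
    { toFun := fun x => ρ (s (Pi.single i x))
      map_add' := by
        intro x y
        rw [← map_add]
        apply hval
        rw [map_add, hs, hs, Pi.single_add]
      map_smul' := by
        intro c x
        rw [RingHom.id_apply, ← map_smul]
        apply hval
        rw [map_smul, hs, Pi.single_smul] }
  let σ : Matrix (Fin (d i)) (Fin (d i)) F →ₐ[F] Matrix (Fin m) (Fin m) F :=
    AlgHom.ofLinearMap L hi1 (by
      intro x y
      show ρ (s (Pi.single i (x * y))) = ρ (s (Pi.single i x)) * ρ (s (Pi.single i y))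
      rw [← map_mul]
      apply hval
      rw [map_mul, hs, hs]
      funext j
      rw [Pi.mul_apply]
      by_cases hij : j = i
      · subst hij; rw [Pi.single_eq_same, Pi.single_eq_same, Pi.single_eq_same]
      · rw [Pi.single_eq_of_ne hij, Pi.single_eq_of_ne hij, Pi.single_eq_of_ne hij, mul_zero])
  have hσ : ∀ a, ρ a = σ (π a i) := hfac
  have hσs : Function.Surjective σ := by
    intro y
    obtain ⟨a, rfl⟩ := hρ y
    exact ⟨π a i, (hσ a).symm⟩
  have : NeZero (d i) := hd i
  have hσi : Function.Injective σ := by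
    have h := RingHom.injective σ.toRingHom
    exact h
  let σe := AlgEquiv.ofBijective σ ⟨hσi, hσs⟩
  refine ⟨i, fun a => ?_, fun a => ?_⟩
  · rw [hσ a]
    exact trace_equiv σe _
  · rw [hσ a]
    exact map_eq_zero_iff σ hσi

theorem sim_ker {k l : ℕ} (σ : A →ₐ[F] Matrix (Fin k) (Fin k) F)
    (σ' : A →ₐ[F] Matrix (Fin l) (Fin l) F) (hs' : Function.Surjective σ')
    (hh : ∀ a, (σ a).trace = (σ' a).trace) (a : A) (ha : σ a = 0) : σ' a = 0 := by
  apply Matrix.ext
  intro i j
  obtain ⟨b, hb⟩ := hs' (Matrix.single j i 1)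
  have h1 := hh (a * b)
  rw [map_mul, ha, zero_mul, Matrix.trace_zero, map_mul, hb, Matrix.trace_mul_single,
    MulOpposite.op_one, one_smul] at h1
  rw [Matrix.zero_apply, h1]

/-- two surjections with the same trace have the same kernel and are conjugate -/
theorem sim_equiv {m n : ℕ} (ρ : A →ₐ[F] Matrix (Fin m) (Fin m) F)
    (ρ' : A →ₐ[F] Matrix (Fin n) (Fin n) F) (h : Function.Surjective ρ)
    (h' : Function.Surjective ρ') (ht : ∀ a, (ρ a).trace = (ρ' a).trace) :
    ∃ f : Matrix (Fin m) (Fin m) F ≃ₐ[F] Matrix (Fin n) (Fin n) F, ∀ a, ρ' a = f (ρ a) := by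
  choose s hs using h
  have hval : ∀ u a, ρ a = u → ρ' (s u) = ρ' a := by
    rintro u a rfl
    have h1 : ρ (s (ρ a) - a) = 0 := by rw [map_sub, hs, sub_self]
    have h2 := sim_ker ρ ρ' h' ht _ h1
    rw [map_sub, sub_eq_zero] at h2
    exact h2
  let L : Matrix (Fin m) (Fin m) F →ₗ[F] Matrix (Fin n) (Fin n) F :=
    { toFun := fun x => ρ' (s x)
      map_add' := by
        intro x y
        rw [← map_add]
        apply hval
        rw [map_add, hs, hs]
      map_smul' := by
        intro c x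
        rw [RingHom.id_apply, ← map_smul]
        apply hval
        rw [map_smul, hs] }
  let σ : Matrix (Fin m) (Fin m) F →ₐ[F] Matrix (Fin n) (Fin n) F :=
    AlgHom.ofLinearMap L (by
      show ρ' (s 1) = 1
      rw [hval 1 1 (map_one ρ), map_one]) (by
      intro x y
      show ρ' (s (x * y)) = ρ' (s x) * ρ' (s y)
      rw [← map_mul]
      apply hval
      rw [map_mul, hs, hs])
  have hσ : ∀ a, ρ' a = σ (ρ a) := fun a => (hval _ a rfl).symm
  have hσs : Function.Surjective σ := by
    intro y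
    obtain ⟨a, rfl⟩ := h' y
    exact ⟨ρ a, (hσ a).symm⟩
  have hσi : Function.Injective σ := by
    rw [injective_iff_map_eq_zero]
    intro x hx
    rw [← hs x]
    apply sim_ker ρ' ρ _ (fun a => (ht a).symm) (s x) hx
    intro y
    exact ⟨s y, hs y⟩
  exact ⟨AlgEquiv.ofBijective σ ⟨hσi, hσs⟩, hσ⟩

end Pool.Agent.PP.H20
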