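import Pool.Agent.Helper94_PP.StmtsKR
import Pool.Agent.Helper20_PP.Sim

/-!
IBF, IBC, IBJ, IBN, EIG: irreducible modular characters as functions.
-/

open scoped BigOperators

noncomputable section

namespace Pool.Agent.PP.H20

variable {F H : Type} [Field F] [Group H]

section ma

variable [Finite H]

/-- a function as an element of the group algebra -/
def toMA (a : H → F) : MonoidAlgebra F H := MonoidAlgebra.ofCoeff (Finsupp.equivFunOnFinite.symm a)

omit [Group H] in
theorem toMA_coeff (a : H → F) (h : H) : (toMA a).coeff h = a h := rfl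

omit [Group H] in
theorem toMA_injective : Function.Injective (toMA : (H → F) → MonoidAlgebra F H) := by
  intro a b hab
  funext h
  rw [← toMA_coeff a, hab, toMA_coeff]

omit [Group H] in
theorem toMA_eq (a : H → F) [Fintype H] : toMA a = ∑ h, MonoidAlgebra.single h (a h) := by
  apply MonoidAlgebra.coeff_injective
  rw [MonoidAlgebra.coeff_sum]
  ext g
  rw [toMA_coeff, Finsupp.finsetSum_apply, Finset.sum_eq_single g]
  · rw [MonoidAlgebra.coeff_single, Finsupp.single_eq_same]
  · intro h _ hne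
    rw [MonoidAlgebra.coeff_single, Finsupp.single_eq_of_ne (Ne.symm hne)]
  · intro h; exact absurd (Finset.mem_univ _) h

omit [Group H] in
theorem toMA_surjective : Function.Surjective (toMA : (H → F) → MonoidAlgebra F H) := by
  intro x
  refine ⟨fun h => x.coeff h, ?_⟩
  apply MonoidAlgebra.coeff_injective
  ext g
  rfl

/-- the linear equivalence -/
def maE : (H → F) ≃ₗ[F] MonoidAlgebra F H where
  toFun := toMA
  invFun x := fun h => x.coeff h
  left_inv _ := rfl
  right_inv x := by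
    apply MonoidAlgebra.coeff_injective
    ext g
    rfl
  map_add' a b := by
    apply MonoidAlgebra.coeff_injective
    ext g
    rfl
  map_smul' c a := by
    apply MonoidAlgebra.coeff_injective
    ext g
    rfl

instance finMA : FiniteDimensional F (MonoidAlgebra F H) := Module.Finite.equiv maE

theorem toMA_mulF (a b : H → F) : toMA (mulF a b) = toMA a * toMA b := by
  have := Fintype.ofFinite H
  apply MonoidAlgebra.coeff_injective
  ext g
  rw [toMA_coeff, mulF, finsum_eq_sum_of_fintype, toMA_eq a, toMA_eq b, Finset.sum_mul,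
    MonoidAlgebra.coeff_sum, Finsupp.finsetSum_apply]
  apply Finset.sum_congr rfl
  intro t _
  rw [Finset.mul_sum, MonoidAlgebra.coeff_sum, Finsupp.finsetSum_apply]
  simp only [MonoidAlgebra.single_mul_single, MonoidAlgebra.coeff_single]
  rw [Finset.sum_eq_single (t⁻¹ * g)]
  · rw [mul_inv_cancel_left, Finsupp.single_eq_same]
  · intro s _ hs
    rw [Finsupp.single_eq_of_ne]
    rintro rfl
    exact hs (by rw [inv_mul_cancel_left])
  · intro h; exact absurd (Finset.mem_univ _) h

theorem lift_toMA {n : ℕ} (ρ : H →* Matrix (Fin n) (Fin n) F) (a : H → F) :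
    MonoidAlgebra.lift F (Matrix (Fin n) (Fin n) F) H ρ (toMA a) = ev ρ a := by
  have := Fintype.ofFinite H
  rw [toMA_eq, map_sum, ev, finsum_eq_sum_of_fintype]
  simp only [MonoidAlgebra.lift_single]

theorem ev_mulF {n : ℕ} (ρ : H →* Matrix (Fin n) (Fin n) F) (a b : H → F) :
    ev ρ (mulF a b) = ev ρ a * ev ρ b := by
  rw [← lift_toMA, toMA_mulF, map_mul, lift_toMA, lift_toMA]

theorem lift_surjective {n : ℕ} (ρ : H →* Matrix (Fin n) (Fin n) F) :
    Function.Surjective (MonoidAlgebra.lift F (Matrix (Fin n) (Fin n) F) H ρ) ↔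
      Submodule.span F (Set.range ρ) = ⊤ := by
  have := Fintype.ofFinite H
  constructor
  · intro h
    rw [eq_top_iff]
    rintro x -
    obtain ⟨y, rfl⟩ := h x
    obtain ⟨a, rfl⟩ := toMA_surjective y
    rw [lift_toMA, ev, finsum_eq_sum_of_fintype]
    exact Submodule.sum_mem _ fun t _ => Submodule.smul_mem _ _ (Submodule.subset_span ⟨t, rfl⟩)
  · intro h x
    have hx : x ∈ Submodule.span F (Set.range ρ) := by rw [h]; trivial
    have : Submodule.span F (Set.range ρ) ≤
        LinearMap.range (MonoidAlgebra.lift F (Matrix (Fin n) (Fin n) F) H ρ).toLinearMap := by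
      rw [Submodule.span_le]
      rintro _ ⟨t, rfl⟩
      exact ⟨MonoidAlgebra.single t 1, by
        show MonoidAlgebra.lift F _ H ρ (MonoidAlgebra.single t 1) = _
        rw [MonoidAlgebra.lift_single, one_smul]⟩
    obtain ⟨y, hy⟩ := this hx
    exact ⟨y, hy⟩

/-- the representation of an algebra homomorphism -/
def ofAlg {n : ℕ} (Φ : MonoidAlgebra F H →ₐ[F] Matrix (Fin n) (Fin n) F) :
    H →* Matrix (Fin n) (Fin n) F := (MonoidAlgebra.lift F (Matrix (Fin n) (Fin n) F) H).symm Φ

theorem ofAlg_ev {n : ℕ} (Φ : MonoidAlgebra F H →ₐ[F] Matrix (Fin n) (Fin n) F) (a : H → F) :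
    ev (ofAlg Φ) a = Φ (toMA a) := by
  rw [← lift_toMA, ofAlg, Equiv.apply_symm_apply]

theorem ofAlg_irr {n : ℕ} (hn : 0 < n) (Φ : MonoidAlgebra F H →ₐ[F] Matrix (Fin n) (Fin n) F)
    (h : Function.Surjective Φ) : IsIrr (ofAlg Φ) := by
  refine ⟨hn, ?_⟩
  rw [← lift_surjective, ofAlg, Equiv.apply_symm_apply]
  exact h

omit [Finite H] in
theorem ev_trace {n : ℕ} (ρ : H →* Matrix (Fin n) (Fin n) F) (a : H → F) [Fintype H] :
    (ev ρ a).trace = ∑ t, a t * tr ρ t := by
  rw [ev, finsum_eq_sum_of_fintype, Matrix.trace_sum]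
  apply Finset.sum_congr rfl
  intro t _
  rw [Matrix.trace_smul]
  rfl

theorem actF_tr {n : ℕ} (ρ : H →* Matrix (Fin n) (Fin n) F) (a : H → F) (x : H) :
    actF a (tr ρ) x = (ev ρ a * ρ x).trace := by
  have := Fintype.ofFinite H
  rw [actF, finsum_eq_sum_of_fintype, ev, finsum_eq_sum_of_fintype, Finset.sum_mul,
    Matrix.trace_sum]
  apply Finset.sum_congr rfl
  intro t _
  rw [tr, map_mul, Matrix.smul_mul, Matrix.trace_smul]
  rfl

end ma

/-- the structure theorem for the group algebra -/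
theorem ibr_struct [Finite H] [IsAlgClosed F] :
    ∃ (n : ℕ) (d : Fin n → ℕ) (π : MonoidAlgebra F H →ₐ[F] Π i, Matrix (Fin (d i)) (Fin (d i)) F)
      (ρ : ∀ i, H →* Matrix (Fin (d i)) (Fin (d i)) F),
      Function.Surjective π ∧ (∀ a, π a = 0 → IsNilpotent a) ∧ (∀ i, IsIrr (ρ i)) ∧
      (∀ i a, ev (ρ i) a = π (toMA a) i) ∧
      (∀ (m : ℕ) (σ : H →* Matrix (Fin m) (Fin m) F), IsIrr σ →
        ∃ i, tr σ = tr (ρ i) ∧ ∀ a, ev σ a = 0 ↔ ev (ρ i) a = 0) ∧
      Function.Injective (fun i => tr (ρ i)) := by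
  have hF := Fintype.ofFinite H
  obtain ⟨n, d, π, hd, hπ, hker, hall⟩ := sim_struct (F := F) (MonoidAlgebra F H)
  let φ : ∀ i, MonoidAlgebra F H →ₐ[F] Matrix (Fin (d i)) (Fin (d i)) F := fun i =>
    (Pi.evalAlgHom F (fun i => Matrix (Fin (d i)) (Fin (d i)) F) i).comp π
  have hφ : ∀ i, Function.Surjective (φ i) := by
    intro i y
    obtain ⟨x, hx⟩ := hπ (Pi.single i y)
    refine ⟨x, ?_⟩
    show π x i = y
    rw [hx, Pi.single_eq_same]
  refine ⟨n, d, π, fun i => ofAlg (φ i), hπ, ?_, fun i => ofAlg_irr (hd i) _ (hφ i),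
    fun i a => ofAlg_ev _ _, ?_, ?_⟩
  · intro a ha
    have h1 := (hker a).1 ha
    have : IsArtinianRing (MonoidAlgebra F H) := IsArtinianRing.of_finite F _
    obtain ⟨k, hk⟩ := IsSemiprimaryRing.isNilpotent (R := MonoidAlgebra F H)
    refine ⟨k, ?_⟩
    have := Ideal.pow_mem_pow h1 k
    rw [hk] at this
    exact this
  · intro m σ hσ
    obtain ⟨i, hi, hi'⟩ := hall m (MonoidAlgebra.lift F _ H σ) hσ.1 ((lift_surjective σ).2 hσ.2)
    refine ⟨i, ?_, ?_⟩
    · funext h
      have h1 := hi (MonoidAlgebra.single h 1)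
      rw [MonoidAlgebra.lift_single, one_smul] at h1
      rw [tr, h1]
      rfl
    · intro a
      rw [← lift_toMA, hi', ofAlg_ev]
      rfl
  · intro i j hij
    by_contra hne
    -- an element with different traces
    obtain ⟨x, hx⟩ := hπ (Pi.single i (Matrix.single ⟨0, hd i⟩ ⟨0, hd i⟩ 1))
    obtain ⟨a, rfl⟩ := toMA_surjective x
    have h1 : (ev (ofAlg (φ i)) a).trace = 1 := by
      rw [ofAlg_ev]
      show (π (toMA a) i).trace = 1
      rw [hx, Pi.single_eq_same, Matrix.trace_single_eq_same]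
    have h2 : (ev (ofAlg (φ j)) a).trace = 0 := by
      rw [ofAlg_ev]
      show (π (toMA a) j).trace = 0
      rw [hx, Pi.single_eq_of_ne (Ne.symm hne), Matrix.trace_zero]
    rw [ev_trace] at h1 h2
    have h3 : tr (ofAlg (φ i)) = tr (ofAlg (φ j)) := hij
    rw [h3, h2] at h1
    exact zero_ne_one h1

theorem ibf : IbfStmt := by
  intro ℓ F _ hF H _ _
  have := hF.closed
  have hfin := Fintype.ofFinite H
  obtain ⟨n, d, π, ρ, hπ, -, hirr, hev, hall, hinj⟩ := ibr_struct (F := F) (H := H)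
  have hrange : IBr F H = Set.range (fun i => tr (ρ i)) := by
    ext f
    constructor
    · rintro ⟨m, σ, hσ, rfl⟩
      obtain ⟨i, hi, -⟩ := hall m σ hσ
      exact ⟨i, hi.symm⟩
    · rintro ⟨i, rfl⟩
      exact ⟨d i, ρ i, hirr i, rfl⟩
  have hli : LinearIndependent F (fun i => tr (ρ i)) := by
    rw [Fintype.linearIndependent_iff]
    intro g hg i
    obtain ⟨x, hx⟩ := hπ (Pi.single i (Matrix.single ⟨0, (hirr i).1⟩ ⟨0, (hirr i).1⟩ 1))
    obtain ⟨a, rfl⟩ := toMA_surjective x
    have h1 : ∀ j, ∑ t, a t * tr (ρ j) t = if j = i then 1 else 0 := by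
      intro j
      rw [← ev_trace, hev, hx]
      by_cases hji : j = i
      · subst hji
        rw [Pi.single_eq_same, Matrix.trace_single_eq_same, if_pos rfl]
      · rw [Pi.single_eq_of_ne hji, Matrix.trace_zero, if_neg hji]
    have h2 : ∑ t, a t * (∑ j, g j • tr (ρ j)) t = 0 := by
      rw [hg]
      simp
    have h3 : ∑ t, a t * (∑ j, g j • tr (ρ j)) t = g i := by
      simp only [Finset.sum_apply, Pi.smul_apply, smul_eq_mul, Finset.mul_sum]
      rw [Finset.sum_comm]
      have : ∀ j, ∑ t, a t * (g j * tr (ρ j) t) = g j * if j = i then 1 else 0 := by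
        intro j
        rw [← h1 j, Finset.mul_sum]
        exact Finset.sum_congr rfl fun t _ => by ring
      rw [Finset.sum_congr rfl fun j _ => this j]
      simp
    rw [← h3, h2]
  constructor
  · rw [hrange]
    exact Set.finite_range _
  · rw [hrange]
    exact hli.linearIndepOn_id

theorem tr_lift [Finite H] {n m : ℕ} (ρ : H →* Matrix (Fin n) (Fin n) F)
    (σ : H →* Matrix (Fin m) (Fin m) F) (h : tr ρ = tr σ) (x : MonoidAlgebra F H) :
    (MonoidAlgebra.lift F (Matrix (Fin n) (Fin n) F) H ρ x).trace =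
      (MonoidAlgebra.lift F (Matrix (Fin m) (Fin m) F) H σ x).trace := by
  have := Fintype.ofFinite H
  obtain ⟨a, rfl⟩ := toMA_surjective x
  rw [lift_toMA, lift_toMA, ev_trace, ev_trace, h]

theorem ibc : IbcStmt := by
  intro ℓ F _ hF H _ _ n m ρ σ hρ hσ h
  obtain ⟨f, hf⟩ := sim_equiv _ _ ((lift_surjective ρ).2 hρ.2) ((lift_surjective σ).2 hσ.2)
    (tr_lift ρ σ h)
  obtain ⟨X, Y, h1, h2, h3, h4⟩ := equiv_conj f
  refine ⟨X, Y, h1.symm, h2, h3, ?_⟩
  intro t
  have h5 := hf (MonoidAlgebra.single t 1)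
  rw [MonoidAlgebra.lift_single, MonoidAlgebra.lift_single, one_smul, one_smul] at h5
  rw [h5, h4]

theorem ibj : IbjStmt := by
  intro ℓ F _ hF H _ _ ι _ n ρ hρ hinj B
  have := hF.closed
  have hι := Fintype.ofFinite ι
  obtain ⟨k, d, π, σ, hπ, -, hirr, hev, hall, hinj'⟩ := ibr_struct (F := F) (H := H)
  choose j hj hj' using fun i => hall (n i) (ρ i) (hρ i)
  have hjinj : Function.Injective j := by
    intro i i' h
    apply hinj
    show tr (ρ i) = tr (ρ i')
    rw [hj, hj, h]
  choose f hf using fun i => sim_equiv _ _ ((lift_surjective (σ (j i))).2 (hirr (j i)).2)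
    ((lift_surjective (ρ i)).2 (hρ i).2) (tr_lift (σ (j i)) (ρ i) (hj i).symm)
  obtain ⟨x, hx⟩ := hπ (∑ i, Pi.single (j i) ((f i).symm (B i)))
  obtain ⟨a, rfl⟩ := toMA_surjective x
  refine ⟨a, fun i => ?_⟩
  rw [← lift_toMA, hf, lift_toMA, hev, hx, Finset.sum_apply, Finset.sum_eq_single i]
  · rw [Pi.single_eq_same, AlgEquiv.apply_symm_apply]
  · intro i' _ hne
    rw [Pi.single_eq_of_ne]
    intro h
    exact hne (hjinj h.symm)
  · intro h; exact absurd (Finset.mem_univ _) h

theorem mulF_iterate [Finite H] (a b : H → F) (k : ℕ) :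
    toMA ((mulF a)^[k] b) = toMA a ^ k * toMA b := by
  induction k with
  | zero => simp
  | succ k ih => rw [Function.iterate_succ_apply', toMA_mulF, ih, pow_succ', mul_assoc]

theorem ibn : IbnStmt := by
  intro ℓ F _ hF H _ _ a ha
  have := hF.closed
  obtain ⟨k, d, π, σ, hπ, hnil, hirr, hev, hall, hinj'⟩ := ibr_struct (F := F) (H := H)
  obtain ⟨m, hm⟩ := hnil (toMA a) (by
    funext i
    rw [← hev, ha _ _ (hirr i), Pi.zero_apply])
  refine ⟨m, toMA_injective ?_⟩
  rw [mulF_iterate, hm, zero_mul]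
  exact (maE (F := F) (H := H)).map_zero.symm

theorem ev_class [Finite H] {n : ℕ} (ρ : H →* Matrix (Fin n) (Fin n) F) (a : H → F) (ha : IsCl a)
    (t : H) : ρ t * ev ρ a = ev ρ a * ρ t := by
  have := Fintype.ofFinite H
  rw [ev, finsum_eq_sum_of_fintype, Finset.mul_sum, Finset.sum_mul]
  rw [← Equiv.sum_comp (MulAut.conj t⁻¹).toEquiv]
  apply Finset.sum_congr rfl
  intro s _
  show ρ t * (a (t⁻¹ * s * t⁻¹⁻¹) • ρ (t⁻¹ * s * t⁻¹⁻¹)) = a s • ρ s * ρ t
  rw [ha, Matrix.mul_smul, Matrix.smul_mul, ← map_mul, ← map_mul]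
  congr 2
  group

theorem eig : EigStmt := by
  intro F _ H _ _ n ρ hρ a ha
  have hN : NeZero n := ⟨hρ.1.ne'⟩
  obtain ⟨w, hw⟩ := comm_scalar (ev ρ a) (by
    intro N
    have hN' : N ∈ Submodule.span F (Set.range ρ) := by rw [hρ.2]; trivial
    induction hN' using Submodule.span_induction with
    | mem x hx =>
      obtain ⟨t, rfl⟩ := hx
      exact ev_class ρ a ha t
    | zero => rw [zero_mul, mul_zero]
    | add x y _ _ hx hy => rw [add_mul, mul_add, hx, hy]
    | smul c x _ hx => rw [Matrix.smul_mul, Matrix.mul_smul, hx])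
  have hw' : ev ρ a = Matrix.scalar (Fin n) w := by
    rw [hw, Matrix.scalar_apply, Matrix.smul_one_eq_diagonal]
  refine ⟨w, hw', ?_, ?_⟩
  · funext x
    rw [actF_tr, hw, Matrix.smul_mul, one_mul, Matrix.trace_smul]
    rfl
  · intro hi
    have h1 : ev ρ a * ev ρ a = ev ρ a := by rw [← ev_mulF, hi.2]
    rw [hw, smul_mul_smul_comm, one_mul] at h1
    have h2 : w * w = w := by
      have := congrFun (congrFun h1 0) 0
      simpa using this
    by_cases h0 : w = 0
    · exact Or.inl h0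
    · right
      exact mul_left_cancel₀ h0 (h2.trans (mul_one w).symm)

end Pool.Agent.PP.H20
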