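import Pool.Agent.Helper96_PP.StmtsA
import Pool.Agent.Helper20_PP.Nls
import Pool.Agent.Helper20_PP.Fun

/-!
POS1 (PS1): positivity passes to the local subgroups.
-/

open scoped BigOperators

noncomputable section

namespace Pool.Agent.PP.H20

section tra

variable {G : Type} [Group G]

/-- the elements of `Q` conjugating `x` into `y` -/
def TraQ (Q : Subgroup G) (x y : G) : Type := {n : G // n ∈ Q ∧ n * x * n⁻¹ = y}

/-- the conjugation action of `P` on the transporter -/
@[instance_reducible] def traQAct (P Q : Subgroup G) (hQ : Q.Normal) {x y : G}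
    (hx : x ∈ Subgroup.centralizer (P : Set G)) (hy : y ∈ Subgroup.centralizer (P : Set G)) :
    MulAction P (TraQ Q x y) where
  smul p n := ⟨(p : G) * n.1 * (p : G)⁻¹, hQ.conj_mem _ n.2.1 p, by
    have h1 : (p : G) * x = x * p := Subgroup.mem_centralizer_iff.1 hx p p.2
    have h2 : (p : G) * y = y * p := Subgroup.mem_centralizer_iff.1 hy p p.2
    have h3 : (p : G)⁻¹ * x * p = x := by rw [mul_assoc, ← h1]; group
    have h4 : (p : G) * y * (p : G)⁻¹ = y := by rw [h2]; group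
    calc (p : G) * n.1 * (p : G)⁻¹ * x * ((p : G) * n.1 * (p : G)⁻¹)⁻¹ =
        (p : G) * (n.1 * ((p : G)⁻¹ * x * p) * n.1⁻¹) * (p : G)⁻¹ := by group
      _ = (p : G) * (n.1 * x * n.1⁻¹) * (p : G)⁻¹ := by rw [h3]
      _ = (p : G) * y * (p : G)⁻¹ := by rw [n.2.2]
      _ = y := h4⟩
  one_smul n := Subtype.ext (by
    show (1 : G) * n.1 * (1 : G)⁻¹ = n.1
    rw [one_mul, inv_one, mul_one])
  mul_smul p r n := Subtype.ext (by
    show ((p : G) * r) * n.1 * ((p : G) * r)⁻¹ = p * (r * n.1 * (r : G)⁻¹) * (p : G)⁻¹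
    group)

theorem card_traQ [Finite G] (Q : Subgroup G) {x y : G} (q : G) (hqQ : q ∈ Q)
    (hq : q * x * q⁻¹ = y) : Nat.card (TraQ Q x y) = Nat.card (TraQ Q x x) := by
  apply Nat.card_congr
  refine
    { toFun := fun n => ⟨q⁻¹ * n.1, Q.mul_mem (Q.inv_mem hqQ) n.2.1, ?_⟩
      invFun := fun n => ⟨q * n.1, Q.mul_mem hqQ n.2.1, ?_⟩
      left_inv := fun n => Subtype.ext (by
        show q * (q⁻¹ * n.1) = n.1
        group)
      right_inv := fun n => Subtype.ext (by
        show q⁻¹ * (q * n.1) = n.1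
        group) }
  · calc q⁻¹ * n.1 * x * (q⁻¹ * n.1)⁻¹ = q⁻¹ * (n.1 * x * n.1⁻¹) * q := by group
      _ = q⁻¹ * y * q := by rw [n.2.2]
      _ = q⁻¹ * (q * x * q⁻¹) * q := by rw [hq]
      _ = x := by group
  · calc q * n.1 * x * (q * n.1)⁻¹ = q * (n.1 * x * n.1⁻¹) * q⁻¹ := by group
      _ = q * x * q⁻¹ := by rw [n.2.2]
      _ = y := hq

theorem card_traQ_self (Q : Subgroup G) (x : G) :
    Nat.card (TraQ Q x x) = Nat.card (Subgroup.centralizer ({x} : Set G) ⊓ Q : Subgroup G) := by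
  apply Nat.card_congr
  refine
    { toFun := fun n => ⟨n.1, ?_, n.2.1⟩
      invFun := fun c => ⟨c.1, c.2.2, ?_⟩
      left_inv := fun n => rfl
      right_inv := fun n => rfl }
  · show n.1 ∈ Subgroup.centralizer ({x} : Set G)
    rw [Subgroup.mem_centralizer_singleton_iff]
    calc n.1 * x = n.1 * x * n.1⁻¹ * n.1 := by group
      _ = x * n.1 := by rw [n.2.2]
  · have h1 := Subgroup.mem_centralizer_singleton_iff.1 c.2.1
    rw [h1]
    group

/-- centralisers of fixed elements -/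
theorem centQ_mod {ℓ : ℕ} (hℓ : ℓ.Prime) [Finite G] (P Q : Subgroup G) (hP : IsPGroup ℓ P)
    (hQ : Q.Normal) {x : G} (hx : x ∈ Subgroup.centralizer (P : Set G)) :
    Nat.card (Subgroup.centralizer ({x} : Set G) ⊓ Q : Subgroup G) ≡
      Nat.card (Subgroup.centralizer ({x} : Set G) ⊓ (Subgroup.centralizer (P : Set G) ⊓ Q) :
        Subgroup G) [MOD ℓ] := by
  have : Fact ℓ.Prime := ⟨hℓ⟩
  have hfin : Finite (TraQ Q x x) := Subtype.finite
  rw [← card_traQ_self]
  let _ := traQAct P Q hQ hx hx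
  have h1 := hP.card_modEq_card_fixedPoints (TraQ Q x x)
  have h2 : Nat.card (MulAction.fixedPoints P (TraQ Q x x)) =
      Nat.card (Subgroup.centralizer ({x} : Set G) ⊓ (Subgroup.centralizer (P : Set G) ⊓ Q) :
        Subgroup G) := by
    apply Nat.card_congr
    refine
      { toFun := fun n => ⟨n.1.1, ?_, ?_, n.1.2.1⟩
        invFun := fun c => ⟨⟨c.1, c.2.2.2, ?_⟩, ?_⟩
        left_inv := fun n => rfl
        right_inv := fun n => rfl }
    · show n.1.1 ∈ Subgroup.centralizer ({x} : Set G)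
      rw [Subgroup.mem_centralizer_singleton_iff]
      calc n.1.1 * x = n.1.1 * x * n.1.1⁻¹ * n.1.1 := by group
        _ = x * n.1.1 := by rw [n.1.2.2]
    · show n.1.1 ∈ Subgroup.centralizer (P : Set G)
      rw [Subgroup.mem_centralizer_iff]
      intro p hp
      have h3 : p * n.1.1 * p⁻¹ = n.1.1 := congrArg Subtype.val (n.2 ⟨p, hp⟩)
      calc p * n.1.1 = p * n.1.1 * p⁻¹ * p := by group
        _ = n.1.1 * p := by rw [h3]
    · have h4 := Subgroup.mem_centralizer_singleton_iff.1 c.2.1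
      rw [h4]
      group
    · intro p
      apply Subtype.ext
      show (p : G) * c.1 * (p : G)⁻¹ = c.1
      have h5 : (p : G) * c.1 = c.1 * p := Subgroup.mem_centralizer_iff.1 c.2.2.1 p p.2
      rw [h5]
      group
  rw [h2] at h1
  exact h1

/-- conjugation in `Q` and in `C_Q(P)` -/
theorem centQ_conj {ℓ : ℕ} (hℓ : ℓ.Prime) [Finite G] (P Q : Subgroup G) (hP : IsPGroup ℓ P)
    (hQ : Q.Normal) {x y : G} (hx : x ∈ Subgroup.centralizer (P : Set G))
    (hy : y ∈ Subgroup.centralizer (P : Set G))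
    (hc : ¬ ℓ ∣ Nat.card (Subgroup.centralizer ({x} : Set G) ⊓ Q : Subgroup G)) (q : G)
    (hqQ : q ∈ Q) (hq : q * x * q⁻¹ = y) :
    ∃ n ∈ Subgroup.centralizer (P : Set G) ⊓ Q, n * x * n⁻¹ = y := by
  have : Fact ℓ.Prime := ⟨hℓ⟩
  have hfin : Finite (TraQ Q x y) := Subtype.finite
  have h1 : ¬ ℓ ∣ Nat.card (TraQ Q x y) := by
    rw [card_traQ Q q hqQ hq, card_traQ_self]
    exact hc
  let _ := traQAct P Q hQ hx hy
  have h2 := hP.card_modEq_card_fixedPoints (TraQ Q x y)
  have h3 : ¬ ℓ ∣ Nat.card (MulAction.fixedPoints P (TraQ Q x y)) := by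
    intro h
    exact h1 ((Nat.ModEq.dvd_iff h2 dvd_rfl).2 h)
  have h4 : Nonempty (MulAction.fixedPoints P (TraQ Q x y)) := by
    by_contra hne
    rw [not_nonempty_iff] at hne
    apply h3
    rw [Nat.card_of_isEmpty]
    exact dvd_zero _
  obtain ⟨n, hn⟩ := h4
  refine ⟨n.1, ⟨?_, n.2.1⟩, n.2.2⟩
  show n.1 ∈ Subgroup.centralizer (P : Set G)
  rw [Subgroup.mem_centralizer_iff]
  intro p hp
  have h3 : p * n.1 * p⁻¹ = n.1 := congrArg Subtype.val (hn ⟨p, hp⟩)
  calc p * n.1 = p * n.1 * p⁻¹ * p := by group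
    _ = n.1 * p := by rw [h3]

end tra

section br

variable {F G : Type} [Field F] [Group G] [Finite G]

/-- the Brauer map is multiplicative on functions invariant under `R` -/
theorem br_mul_inv {ℓ : ℕ} (hF : GoodF ℓ F) (R : Subgroup G) (hR : IsPGroup ℓ R) {a b : G → F}
    (ha : ∀ r ∈ R, ∀ t, a (r * t * r⁻¹) = a t) (hb : ∀ r ∈ R, ∀ t, b (r * t * r⁻¹) = b t) :
    br R (mulF a b) = mulF (br R a) (br R b) := by
  have hch := hF.char
  have hfin := Fintype.ofFinite G
  classical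
  funext g
  unfold mulF
  by_cases hg : g ∈ Subgroup.centralizer (R : Set G)
  · have hV : ∀ v : F, ℓ • v = 0 := by
      intro v
      rw [nsmul_eq_mul, CharP.cast_eq_zero, zero_mul]
    have h2 : br R (fun x => ∑ᶠ t, a t * b (t⁻¹ * x)) g = ∑ᶠ t, a t * b (t⁻¹ * g) := by
      simp only [br, if_pos hg]
    rw [h2, finsum_eq_sum_of_fintype, finsum_eq_sum_of_fintype]
    rw [conj_sum hF.prime hV R hR (fun t => a t * b (t⁻¹ * g)) (fun r hr t => by
      show a (r * t * r⁻¹) * b ((r * t * r⁻¹)⁻¹ * g) = a t * b (t⁻¹ * g)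
      have h3 : r * g = g * r := Subgroup.mem_centralizer_iff.1 hg r hr
      have h4 : (r * t * r⁻¹)⁻¹ * g = r * (t⁻¹ * g) * r⁻¹ := by
        have h5 : r⁻¹ * g = g * r⁻¹ := by
          calc r⁻¹ * g = r⁻¹ * (g * r) * r⁻¹ := by group
            _ = r⁻¹ * (r * g) * r⁻¹ := by rw [h3]
            _ = g * r⁻¹ := by group
        calc (r * t * r⁻¹)⁻¹ * g = r * t⁻¹ * (r⁻¹ * g) := by group
          _ = r * t⁻¹ * (g * r⁻¹) := by rw [h5]
          _ = r * (t⁻¹ * g) * r⁻¹ := by group
      rw [ha r hr, h4, hb r hr])]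
    apply Finset.sum_congr rfl
    intro t _
    by_cases ht : t ∈ Subgroup.centralizer (R : Set G)
    · have h6 : t⁻¹ * g ∈ Subgroup.centralizer (R : Set G) := mul_mem (inv_mem ht) hg
      simp only [br, if_pos ht, if_pos h6]
    · simp only [br, if_neg ht, zero_mul]
  · have h2 : br R (fun x => ∑ᶠ t, a t * b (t⁻¹ * x)) g = 0 := by
      simp only [br, if_neg hg]
    rw [h2, finsum_eq_sum_of_fintype, eq_comm]
    apply Finset.sum_eq_zero
    intro t _
    by_cases ht : t ∈ Subgroup.centralizer (R : Set G)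
    · have h6 : ¬ t⁻¹ * g ∈ Subgroup.centralizer (R : Set G) := by
        intro hc
        apply hg
        have h7 := mul_mem ht hc
        rwa [mul_inv_cancel_left] at h7
      simp only [br, if_neg h6, mul_zero]
    · simp only [br, if_neg ht, zero_mul]

/-- restriction to a subgroup containing the support of the first factor -/
theorem restr_mul (X : Subgroup G) {a : G → F} (ha : ∀ t, t ∉ X → a t = 0) (b : G → F) :
    (fun t : X => mulF a b t) = mulF (fun t : X => a t) (fun t : X => b t) := by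
  have hfin := Fintype.ofFinite G
  classical
  funext x
  unfold mulF
  rw [finsum_eq_sum_of_fintype, finsum_eq_sum_of_fintype]
  symm
  apply Fintype.sum_of_injective (fun t : X => (t : G)) Subtype.val_injective
  · intro t ht
    have h3 : t ∉ X := by
      intro hc
      exact ht ⟨⟨t, hc⟩, rfl⟩
    rw [ha t h3, zero_mul]
  · intro t
    rfl

/-- products of invariant functions are invariant -/
theorem inv_mulF {R : Subgroup G} {a b : G → F}
    (ha : ∀ r ∈ R, ∀ t, a (r * t * r⁻¹) = a t) (hb : ∀ r ∈ R, ∀ t, b (r * t * r⁻¹) = b t) :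
    ∀ r ∈ R, ∀ t, mulF a b (r * t * r⁻¹) = mulF a b t := by
  have hfin := Fintype.ofFinite G
  intro r hr t
  unfold mulF
  rw [finsum_eq_sum_of_fintype, finsum_eq_sum_of_fintype, ← Equiv.sum_comp (MulAut.conj r).toEquiv]
  apply Finset.sum_congr rfl
  intro s _
  show a (r * s * r⁻¹) * b ((r * s * r⁻¹)⁻¹ * (r * t * r⁻¹)) = a s * b (s⁻¹ * t)
  have h1 : (r * s * r⁻¹)⁻¹ * (r * t * r⁻¹) = r * (s⁻¹ * t) * r⁻¹ := by group
  rw [ha r hr, h1, hb r hr]

theorem ps1 : Ps1Stmt := by
  intro ℓ F _ hF G _ _ P Q hP hQ _ e he hpos X hCX hXN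
  have hℓ := hF.prime
  classical
  intro x hx hdz
  have hxm : (x : G) ∈ Subgroup.centralizer (P : Set G) ⊓ Q := Subgroup.mem_subgroupOf.1 hx
  -- the centraliser
  have hcard : Nat.card (Subgroup.centralizer ({x} : Set X) ⊓
      (Subgroup.centralizer (P : Set G) ⊓ Q).subgroupOf X : Subgroup X) =
      Nat.card (Subgroup.centralizer ({(x : G)} : Set G) ⊓
        (Subgroup.centralizer (P : Set G) ⊓ Q) : Subgroup G) := by
    apply Nat.card_congr
    refine
      { toFun := fun n => ⟨n.1.1, ?_, Subgroup.mem_subgroupOf.1 n.2.2⟩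
        invFun := fun c => ⟨⟨c.1, hCX c.2.2.1⟩, ?_, Subgroup.mem_subgroupOf.2 c.2.2⟩
        left_inv := fun n => rfl
        right_inv := fun n => rfl }
    · show n.1.1 ∈ Subgroup.centralizer ({(x : G)} : Set G)
      rw [Subgroup.mem_centralizer_singleton_iff]
      exact congrArg Subtype.val (Subgroup.mem_centralizer_singleton_iff.1 n.2.1)
    · show (⟨c.1, hCX c.2.2.1⟩ : X) ∈ Subgroup.centralizer ({x} : Set X)
      rw [Subgroup.mem_centralizer_singleton_iff]
      apply Subtype.ext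
      exact Subgroup.mem_centralizer_singleton_iff.1 c.2.1
  rw [hcard] at hdz
  have hdzQ : ¬ ℓ ∣ Nat.card (Subgroup.centralizer ({(x : G)} : Set G) ⊓ Q : Subgroup G) := by
    intro h
    exact hdz ((Nat.ModEq.dvd_iff (centQ_mod hℓ P Q hP hQ hxm.1) dvd_rfl).1 h)
  obtain ⟨n, hn⟩ := hpos x hxm.2 hdzQ
  -- invariance
  have hK : ∀ r ∈ P, ∀ t, clsum F Q (x : G) (r * t * r⁻¹) = clsum F Q (x : G) t := by
    intro r hr t
    have h1 : r * (x : G) = x * r := Subgroup.mem_centralizer_iff.1 hxm.1 r hr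
    have h2 : r⁻¹ * (x : G) * r = x := by rw [mul_assoc, ← h1]; group
    have h3 : r * (x : G) * r⁻¹ = x := by rw [h1]; group
    have hiff : (∃ q ∈ Q, r * t * r⁻¹ = q * (x : G) * q⁻¹) ↔ ∃ q ∈ Q, t = q * (x : G) * q⁻¹ := by
      constructor
      · rintro ⟨q, hq, h⟩
        refine ⟨r⁻¹ * q * r, by
          have := hQ.conj_mem q hq r⁻¹
          rwa [inv_inv] at this, ?_⟩
        calc t = r⁻¹ * (r * t * r⁻¹) * r := by group
          _ = r⁻¹ * (q * x * q⁻¹) * r := by rw [h]
          _ = r⁻¹ * (q * (r * x * r⁻¹) * q⁻¹) * r := by rw [h3]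
          _ = r⁻¹ * q * r * x * (r⁻¹ * q * r)⁻¹ := by group
      · rintro ⟨q, hq, h⟩
        refine ⟨r * q * r⁻¹, hQ.conj_mem q hq r, ?_⟩
        calc r * t * r⁻¹ = r * (q * x * q⁻¹) * r⁻¹ := by rw [h]
          _ = r * (q * (r⁻¹ * x * r) * q⁻¹) * r⁻¹ := by rw [h2]
          _ = r * q * r⁻¹ * x * (r * q * r⁻¹)⁻¹ := by group
    unfold clsum
    by_cases h : ∃ q ∈ Q, t = q * (x : G) * q⁻¹
    · rw [if_pos h, if_pos (hiff.2 h)]
    · rw [if_neg h, if_neg (fun hc => h (hiff.1 hc))]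
  -- restriction of the class sum
  have hres : (fun t : X => br P (clsum F Q (x : G)) t) =
      clsum F ((Subgroup.centralizer (P : Set G) ⊓ Q).subgroupOf X) x := by
    funext y
    show br P (clsum F Q (x : G)) (y : G) = _
    by_cases hy : (y : G) ∈ Subgroup.centralizer (P : Set G)
    · have hiff : (∃ q ∈ Q, (y : G) = q * (x : G) * q⁻¹) ↔
          ∃ q ∈ (Subgroup.centralizer (P : Set G) ⊓ Q).subgroupOf X, y = q * x * q⁻¹ := by
        constructor
        · rintro ⟨q, hq, h⟩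
          obtain ⟨m, hm, hm'⟩ := centQ_conj hℓ P Q hP hQ hxm.1 hy hdzQ q hq h.symm
          exact ⟨⟨m, hCX hm.1⟩, Subgroup.mem_subgroupOf.2 hm, Subtype.ext hm'.symm⟩
        · rintro ⟨q, hq, h⟩
          exact ⟨q, (Subgroup.mem_subgroupOf.1 hq).2, congrArg Subtype.val h⟩
      have h1 : br P (clsum F Q (x : G)) (y : G) = clsum F Q (x : G) (y : G) := by
        simp only [br, if_pos hy]
      rw [h1]
      unfold clsum
      by_cases h : ∃ q ∈ Q, (y : G) = q * (x : G) * q⁻¹
      · rw [if_pos h, if_pos (hiff.1 h)]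
      · rw [if_neg h, if_neg (fun hc => h (hiff.2 hc))]
    · have h1 : br P (clsum F Q (x : G)) (y : G) = 0 := by
        simp only [br, if_neg hy]
      rw [h1]
      unfold clsum
      rw [if_neg]
      rintro ⟨q, hq, h⟩
      apply hy
      have h2 : (y : G) = q * x * (q : G)⁻¹ := congrArg Subtype.val h
      rw [h2]
      exact mul_mem (mul_mem (Subgroup.mem_subgroupOf.1 hq).1 hxm.1)
        (inv_mem (Subgroup.mem_subgroupOf.1 hq).1)
  -- iteration
  have hiter : ∀ m : ℕ, (∀ r ∈ P, ∀ t, (mulF (clsum F Q (x : G)))^[m] e (r * t * r⁻¹) =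
      (mulF (clsum F Q (x : G)))^[m] e t) ∧
      (mulF (clsum F ((Subgroup.centralizer (P : Set G) ⊓ Q).subgroupOf X) x))^[m]
        (fun t : X => br P e t) = fun t : X => br P ((mulF (clsum F Q (x : G)))^[m] e) t := by
    intro m
    induction m with
    | zero => exact ⟨fun r _ t => he.1 t r, rfl⟩
    | succ m ih =>
      rw [Function.iterate_succ_apply', Function.iterate_succ_apply']
      refine ⟨inv_mulF hK ih.1, ?_⟩
      rw [ih.2, br_mul_inv hF P hP hK ih.1, restr_mul X (fun t ht => ?_), hres]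
      have h1 : t ∉ Subgroup.centralizer (P : Set G) := fun hc => ht (hCX hc)
      simp only [br, if_neg h1]
  refine ⟨n, ?_⟩
  rw [(hiter n).2, hn]
  funext t
  show br P (0 : G → F) (t : G) = 0
  by_cases h : (t : G) ∈ Subgroup.centralizer (P : Set G)
  · simp only [br, if_pos h]; rfl
  · simp only [br, if_neg h]

end br

end Pool.Agent.PP.H20
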