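import Pool.Agent.Helper66_PP.DefsJ
import Pool.Agent.Helper20_PP.Pos1

/-!
MOV: the pair sums do not change when the pair is multiplied by elements of `X[f]`.
-/

open scoped BigOperators

noncomputable section

namespace Pool.Agent.PP.H20

variable {F X : Type} [Field F] [Group X]

/-! ### translates and conjugates -/

/-- left translate `g a` -/
def lt (g : X) (a : X → F) : X → F := fun h => a (g⁻¹ * h)

/-- right translate `a g` -/
def rt (g : X) (a : X → F) : X → F := fun h => a (h * g⁻¹)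

/-- group elements in the group algebra -/
def sg (g : X) : MonoidAlgebra F X := MonoidAlgebra.single g 1

theorem sg_mul (g h : X) : (sg g : MonoidAlgebra F X) * sg h = sg (g * h) := by
  rw [sg, sg, MonoidAlgebra.single_mul_single, one_mul]
  rfl

theorem sg_one : (sg 1 : MonoidAlgebra F X) = 1 := rfl

section fin

variable [Finite X]

theorem toMA_lt (g : X) (a : X → F) : toMA (lt g a) = sg g * toMA a :=
  (single_mul_toMA g a).symm

theorem toMA_rt (g : X) (a : X → F) : toMA (rt g a) = toMA a * sg g :=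
  (toMA_mul_single g a).symm

theorem toMA_cjF (g : X) (a : X → F) : toMA (cjF g a) = sg g * toMA a * sg g⁻¹ := by
  rw [← toMA_lt, ← toMA_rt]
  congr 1
  funext h
  show a (g⁻¹ * h * g) = a (g⁻¹ * (h * g⁻¹⁻¹))
  congr 1
  group

theorem cjF_mulF (g : X) (a b : X → F) : cjF g (mulF a b) = mulF (cjF g a) (cjF g b) := by
  apply toMA_injective
  rw [toMA_cjF, toMA_mulF, toMA_mulF, toMA_cjF, toMA_cjF]
  have h1 : (sg g⁻¹ : MonoidAlgebra F X) * sg g = 1 := by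
    rw [sg_mul, inv_mul_cancel, sg_one]
  calc sg g * (toMA a * toMA b) * sg g⁻¹ = sg g * toMA a * 1 * toMA b * sg g⁻¹ := by
        rw [mul_one, ← mul_assoc (sg g)]
    _ = sg g * toMA a * (sg g⁻¹ * sg g) * toMA b * sg g⁻¹ := by rw [h1]
    _ = sg g * toMA a * sg g⁻¹ * (sg g * toMA b * sg g⁻¹) := by
        simp only [mul_assoc]

end fin

theorem cjF_cjF (g h : X) (a : X → F) : cjF g (cjF h a) = cjF (g * h) a := by
  funext t
  show a (h⁻¹ * (g⁻¹ * t * g) * h) = a ((g * h)⁻¹ * t * (g * h))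
  congr 1
  group

theorem cjF_one (a : X → F) : cjF 1 a = a := by
  funext t
  show a (1⁻¹ * t * 1) = a t
  congr 1
  group

theorem cjF_of_cl {a : X → F} (ha : IsCl a) (g : X) : cjF g a = a := by
  funext t
  show a (g⁻¹ * t * g) = a t
  have := ha t g⁻¹
  rwa [inv_inv] at this

/-! ### units -/

section units

variable {f : X → F} {Y : Subgroup X}

theorem cjF_of_inv {u : X → F} (hu : ∀ n ∈ Y, ∀ h, u (n * h * n⁻¹) = u h) {n : X} (hn : n ∈ Y) :
    cjF n u = u := by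
  funext t
  show u (n⁻¹ * t * n) = u t
  have := hu n⁻¹ (Y.inv_mem hn) t
  rwa [inv_inv] at this

variable [Finite X]

theorem CE_mul (hf : SBlk Y f) (hY : Y.Normal) {g h : X} {a b : X → F} (ha : CE f Y g a)
    (hb : CE f Y h b) : CE f Y (g * h) (mulF a b) := by
  have hfin := Fintype.ofFinite X
  refine ⟨?_, ?_, ?_⟩
  · intro z hz
    rw [mulF, finsum_eq_sum_of_fintype]
    apply Finset.sum_eq_zero
    intro t _
    by_cases h1 : g⁻¹ * t ∈ Y
    · by_cases h2 : h⁻¹ * (t⁻¹ * z) ∈ Y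
      · exfalso
        apply hz
        have h3 := hY.conj_mem _ h1 h⁻¹
        have h4 := Y.mul_mem h3 h2
        have h5 : h⁻¹ * (g⁻¹ * t) * h⁻¹⁻¹ * (h⁻¹ * (t⁻¹ * z)) = (g * h)⁻¹ * z := by group
        rwa [h5] at h4
      · rw [hb.supp _ h2, mul_zero]
    · rw [ha.supp _ h1, zero_mul]
  · intro n hn t
    have h1 : cjF n⁻¹ (mulF a b) = mulF a b := by
      rw [cjF_mulF, cjF_of_inv ha.inv (Y.inv_mem hn), cjF_of_inv hb.inv (Y.inv_mem hn)]
    have h2 := congrFun h1 t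
    have h3 : mulF a b (n⁻¹⁻¹ * t * n⁻¹) = mulF a b t := h2
    rwa [inv_inv] at h3
  · rw [← mulF_assoc, ha.abs]

theorem CE_cj (hf : SBlk Y f) (hY : Y.Normal) {g : X} {a : X → F} (ha : CE f Y g a) (x : X) :
    CE f Y (x * g * x⁻¹) (cjF x a) := by
  refine ⟨?_, ?_, ?_⟩
  · intro h hh
    apply ha.supp
    intro hc
    apply hh
    have h1 := hY.conj_mem _ hc x
    have h2 : x * (g⁻¹ * (x⁻¹ * h * x)) * x⁻¹ = (x * g * x⁻¹)⁻¹ * h := by group
    rwa [h2] at h1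
  · intro n hn h
    show a (x⁻¹ * (n * h * n⁻¹) * x) = a (x⁻¹ * h * x)
    have h1 : x⁻¹ * n * x ∈ Y := by
      have := hY.conj_mem n hn x⁻¹
      rwa [inv_inv] at this
    rw [← ha.inv _ h1 (x⁻¹ * h * x)]
    congr 1
    group
  · have h1 : mulF f (cjF x a) = mulF (cjF x f) (cjF x a) := by rw [cjF_of_cl hf.cl]
    rw [h1, ← cjF_mulF, ha.abs]

/-- `u' u = f` for a unit -/
theorem unit_symm (hf : SBlk Y f) (hY : Y.Normal) {g : X} {u u' : X → F}
    (hu : IsUnitOver f Y g u u') : mulF u' u = f := by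
  have hfin := Fintype.ofFinite X
  classical
  have hp := CE_mul hf hY hu.right hu.left
  have hpp : mulF (mulF u' u) (mulF u' u) = mulF u' u := by
    rw [mulF_assoc, ← mulF_assoc u u' u, hu.mul, hu.left.abs]
  -- restriction to `Y`
  have hsupp : ∀ t, t ∉ Y → mulF u' u t = 0 := by
    intro t ht
    apply hp.supp
    have : (g⁻¹ * g)⁻¹ * t = t := by group
    rwa [this]
  have hrm : ∀ a b : X → F, (∀ t, t ∉ Y → a t = 0) →
      (fun t : Y => mulF a b t) = mulF (fun t : Y => a t) (fun t : Y => b t) := by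
    intro a b ha
    funext x
    unfold mulF
    rw [finsum_eq_sum_of_fintype, finsum_eq_sum_of_fintype]
    symm
    apply Fintype.sum_of_injective (fun t : Y => (t : X)) Subtype.val_injective
    · intro t ht
      have h3 : t ∉ Y := by
        intro hc
        exact ht ⟨⟨t, hc⟩, rfl⟩
      rw [ha t h3, zero_mul]
    · intro t
      rfl
  have hid : IsIdem (fun t : Y => mulF u' u t) := by
    refine ⟨?_, ?_⟩
    · intro a b
      exact hp.inv b b.2 a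
    · rw [← hrm _ _ hsupp, hpp]
  have hfp : mulF (fun t : Y => f t) (fun t : Y => mulF u' u t) = fun t : Y => mulF u' u t := by
    rw [← hrm _ _ hf.supp, hp.abs]
  have hext : ∀ a b : X → F, (∀ t, t ∉ Y → a t = 0) → (∀ t, t ∉ Y → b t = 0) →
      (fun t : Y => a t) = (fun t : Y => b t) → a = b := by
    intro a b ha hb hab
    funext t
    by_cases ht : t ∈ Y
    · exact congrFun hab ⟨t, ht⟩
    · rw [ha t ht, hb t ht]
  rcases hf.blk.2.2 _ hid with h | h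
  · rw [hfp] at h
    exact hext _ _ hsupp hf.supp h
  · exfalso
    rw [hfp] at h
    have h0 : mulF u' u = 0 := hext _ _ hsupp (fun _ _ => rfl) h
    have h1 : f = 0 := by
      have h2 : mulF f f = mulF u (mulF (mulF u' u) u') := by
        have h3 : mulF u (mulF (mulF u' u) u') = mulF (mulF u u') (mulF u u') := by
          simp only [mulF_assoc]
        rw [h3, hu.mul]
      rw [h0, zero_mulF, mulF_zero] at h2
      have h4 : mulF f f = f := by
        apply hext _ _ _ hf.supp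
        · rw [hrm _ _ hf.supp, hf.blk.1.2]
        · intro t ht
          rw [mulF, finsum_eq_sum_of_fintype]
          apply Finset.sum_eq_zero
          intro s _
          by_cases hs : s ∈ Y
          · have h5 : s⁻¹ * t ∉ Y := by
              intro hc
              apply ht
              have := Y.mul_mem hs hc
              rwa [mul_inv_cancel_left] at this
            rw [hf.supp _ h5, mul_zero]
          · rw [hf.supp _ hs, zero_mul]
      rw [← h4, h2]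
    apply hf.blk.2.1
    rw [h1]
    rfl

/-- functions supported on `L` commute with functions invariant under `L` -/
theorem comm_of_inv (L : Subgroup X) {a b : X → F} (ha : ∀ t, t ∉ L → a t = 0)
    (hb : ∀ n ∈ L, ∀ h, b (n * h * n⁻¹) = b h) : mulF a b = mulF b a := by
  have hfin := Fintype.ofFinite X
  funext z
  rw [mulF, mulF, finsum_eq_sum_of_fintype, finsum_eq_sum_of_fintype]
  apply Fintype.sum_equiv
    (⟨fun t => z * t⁻¹, fun s => s⁻¹ * z, fun t => by group, fun t => by group⟩ : X ≃ X)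
  intro t
  show a t * b (t⁻¹ * z) = b (z * t⁻¹) * a ((z * t⁻¹)⁻¹ * z)
  have h1 : (z * t⁻¹)⁻¹ * z = t := by group
  rw [h1, mul_comm]
  by_cases ht : t ∈ L
  · rw [← hb t ht (t⁻¹ * z)]
    congr 2
    group
  · rw [ha t ht, mul_zero, mul_zero]

end units

/-! ### evaluation of functions on `X` -/

section loc

variable [Finite X]

theorem br_cj {R : Subgroup X} {x : X} (hx : x ∈ Subgroup.normalizer (R : Set X)) (a : X → F) :
    br R (cjF x a) = cjF x (br R a) := by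
  classical
  funext t
  have hiff : x⁻¹ * t * x ∈ Subgroup.centralizer (R : Set X) ↔
      t ∈ Subgroup.centralizer (R : Set X) := by
    have := cent_conj_iff (x := t) (inv_mem hx)
    rwa [inv_inv] at this
  show br R (cjF x a) t = br R a (x⁻¹ * t * x)
  by_cases ht : t ∈ Subgroup.centralizer (R : Set X)
  · have h1 := hiff.2 ht
    simp only [br, if_pos ht, if_pos h1]
    rfl
  · have h1 := fun hc => ht (hiff.1 hc)
    simp only [br, if_neg ht, if_neg h1]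

theorem ev_res_mul {L : Subgroup X} {n : ℕ} (ρ : L →* Matrix (Fin n) (Fin n) F) {a : X → F}
    (ha : ∀ t, t ∉ L → a t = 0) (b : X → F) :
    ev ρ (fun t : L => mulF a b t) = ev ρ (fun t : L => a t) * ev ρ (fun t : L => b t) := by
  rw [restr_mul L ha, ev_mulF]

theorem ev_res_cj {L : Subgroup X} {n : ℕ} {ρ : L →* Matrix (Fin n) (Fin n) F} {y : X}
    (hy : ∀ g, g ∈ L → y * g * y⁻¹ ∈ L) {B : Matrix (Fin n) (Fin n) F} (hB : ImpJ ρ y B)
    (a : X → F) : ev ρ (fun t : L => cjF y a t) * B = B * ev ρ (fun t : L => a t) := by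
  have hfin := Fintype.ofFinite X
  have hfinL := Fintype.ofFinite L
  rw [ev, ev, finsum_eq_sum_of_fintype, finsum_eq_sum_of_fintype, Finset.sum_mul, Finset.mul_sum]
  symm
  have hinj : Function.Injective (fun g : L => (⟨y * g * y⁻¹, hy g g.2⟩ : L)) := by
    intro g g' h
    have h1 : y * (g : X) * y⁻¹ = y * (g' : X) * y⁻¹ := congrArg Subtype.val h
    exact Subtype.ext (mul_left_cancel (mul_right_cancel h1))
  have hbij : Function.Bijective (fun g : L => (⟨y * g * y⁻¹, hy g g.2⟩ : L)) :=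
    Finite.injective_iff_bijective.1 hinj
  apply Fintype.sum_bijective _ hbij
  intro g
  show B * (a g • ρ g) = cjF y a (y * g * y⁻¹) • ρ ⟨y * g * y⁻¹, hy g g.2⟩ * B
  have h1 : cjF y a (y * g * y⁻¹) = a g := by
    show a (y⁻¹ * (y * g * y⁻¹) * y) = a g
    congr 1
    group
  rw [h1, Matrix.mul_smul, Matrix.smul_mul, hB.2 g ⟨y * g * y⁻¹, hy g g.2⟩ rfl]

variable {ℓ : ℕ} {Y R S : Subgroup X} {f : X → F}

/-- the Brauer map of the block idempotent acts as one -/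
theorem ev_br_one (hF : GoodF ℓ F) (hf : SBlk Y f) (hL : Loc ℓ Y R S) {n : ℕ}
    {ρ : ↥(Y ⊓ S) →* Matrix (Fin n) (Fin n) F} (hρ : IsIrr ρ)
    (hφ : actF (fun t : ↥(Y ⊓ S) => f t) (tr ρ) = tr ρ) :
    ev ρ (fun t : ↥(Y ⊓ S) => br R f t) = 1 := by
  classical
  have hN : NeZero n := ⟨hρ.1.ne'⟩
  have hcl : IsCl (fun t : ↥(Y ⊓ S) => f t) := fun a b => hf.cl a b
  obtain ⟨w, hw, hact, -⟩ := eig F ↥(Y ⊓ S) n ρ hρ _ hcl
  have hne : tr ρ ≠ 0 := (ibf ℓ F hF ↥(Y ⊓ S)).2.ne_zero ⟨tr ρ, ⟨n, ρ, hρ, rfl⟩⟩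
  have hw1 : w = 1 := by
    rw [hφ] at hact
    have h1 : (w - 1) • tr ρ = 0 := by rw [sub_smul, one_smul, ← hact, sub_self]
    rcases smul_eq_zero.1 h1 with h | h
    · exact sub_eq_zero.1 h
    · exact absurd h hne
  have hnorm : (R.subgroupOf (Y ⊓ S)).Normal := by
    refine ⟨fun r hr g => ?_⟩
    rw [Subgroup.mem_subgroupOf] at hr ⊢
    exact (Subgroup.mem_normalizer_iff.1 (hL.norm g.2.2) r).1 hr
  have hp : IsPGroup ℓ (R.subgroupOf (Y ⊓ S)) := hL.pgrp.comap_subtype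
  have h2 := ((nls ℓ F hF ↥(Y ⊓ S) (R.subgroupOf (Y ⊓ S)) hnorm hp n ρ hρ).2 _ hcl).1
  rw [hw, hw1, map_one] at h2
  rw [h2]
  congr 1
  funext t
  have hiff : t ∈ Subgroup.centralizer ((R.subgroupOf (Y ⊓ S) : Subgroup ↥(Y ⊓ S)) :
      Set ↥(Y ⊓ S)) ↔ (t : X) ∈ Subgroup.centralizer (R : Set X) := by
    rw [Subgroup.mem_centralizer_iff, Subgroup.mem_centralizer_iff]
    constructor
    · intro h r hr
      exact congrArg Subtype.val (h ⟨r, hL.le hr, hL.leS hr⟩ (Subgroup.mem_subgroupOf.2 hr))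
    · intro h r hr
      exact Subtype.ext (h r (Subgroup.mem_subgroupOf.1 hr))
  by_cases ht : (t : X) ∈ Subgroup.centralizer (R : Set X)
  · simp only [br, if_pos ht, if_pos (hiff.2 ht)]
  · simp only [br, if_neg ht, if_neg (fun hc => ht (hiff.1 hc))]

/-- a unit commutes with its group element -/
theorem unit_cj (hf : SBlk Y f) (hY : Y.Normal) {j : X} {v v' : X → F}
    (hv : IsUnitOver f Y j v v') : cjF j v = v ∧ cjF j v' = v' := by
  have hs : ∀ {j : X} {v v' : X → F}, IsUnitOver f Y j v v' → cjF j v = v := by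
    intro j v v' hv
    have hv'v := unit_symm hf hY hv
    have hsupp : ∀ t, t ∉ Y → lt j v' t = 0 := by
      intro t ht
      apply hv.right.supp
      have : j⁻¹⁻¹ * (j⁻¹ * t) = t := by group
      rwa [this]
    have h1 : mulF (lt j v') v = mulF v (lt j v') := comm_of_inv Y hsupp hv.left.inv
    have h2 : toMA (mulF (lt j v') v) = toMA (mulF v (lt j v')) := by rw [h1]
    rw [toMA_mulF, toMA_mulF, toMA_lt, mul_assoc, ← toMA_mulF, hv'v] at h2
    -- `j f = v j v'`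
    have hfc : ∀ z : MonoidAlgebra F X, toMA f * z = z * toMA f := (isCl_iff f).1 hf.cl
    have hfv : toMA f * toMA v = toMA v := by rw [← toMA_mulF, hv.left.abs]
    have h3 : sg j * toMA v = toMA v * sg j := by
      calc sg j * toMA v = sg j * toMA f * toMA v := by rw [mul_assoc, hfv]
        _ = toMA v * (sg j * toMA v') * toMA v := by rw [h2]
        _ = toMA v * (sg j * (toMA v' * toMA v)) := by simp only [mul_assoc]
        _ = toMA v * (sg j * toMA f) := by rw [← toMA_mulF, hv'v]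
        _ = toMA f * toMA v * sg j := by rw [← hfc, ← mul_assoc, ← hfc]
        _ = toMA v * sg j := by rw [hfv]
    apply toMA_injective
    rw [toMA_cjF, h3, mul_assoc, sg_mul, mul_inv_cancel, sg_one, mul_one]
  refine ⟨hs hv, ?_⟩
  have h1 : IsUnitOver f Y j⁻¹ v' v :=
    ⟨hv.right, by rw [inv_inv]; exact hv.left, unit_symm hf hY hv⟩
  have h2 := hs h1
  have h3 := congrArg (cjF j) h2
  rw [cjF_cjF, mul_inv_cancel, cjF_one] at h3
  exact h3.symm

/-- data of a unit over an element of the centraliser -/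
structure UD (Y R S : Subgroup X) (f : X → F) (j : X) (a a' : X → F) : Prop where
  cent : j ∈ Subgroup.centralizer (R : Set X)
  inv : ∀ n ∈ Y ⊓ S, ∀ h, a (n * h * n⁻¹) = a h
  inv' : ∀ n ∈ Y ⊓ S, ∀ h, a' (n * h * n⁻¹) = a' h
  mul : mulF a a' = br R f
  mul' : mulF a' a = br R f
  abs : mulF (br R f) a = a
  abs' : mulF (br R f) a' = a'
  cj : cjF j a = a
  cj' : cjF j a' = a'
  supp : ∀ t, t ∉ Y ⊓ S → rt j⁻¹ a t = 0
  supp' : ∀ t, t ∉ Y ⊓ S → lt j a' t = 0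

theorem br_inv (hL : Loc ℓ Y R S) {a : X → F} (ha : ∀ n ∈ Y, ∀ h, a (n * h * n⁻¹) = a h) :
    ∀ n ∈ Y ⊓ S, ∀ h, br R a (n * h * n⁻¹) = br R a h := by
  intro n hn h
  have h1 := br_cj (hL.norm ((Y ⊓ S).inv_mem hn).2) a
  rw [cjF_of_inv ha (Y.inv_mem hn.1)] at h1
  have h2 := congrFun h1 h
  rw [h2]
  show br R a (n * h * n⁻¹) = br R a (n⁻¹⁻¹ * h * n⁻¹)
  rw [inv_inv]

theorem br_mulF_Y (hF : GoodF ℓ F) (hL : Loc ℓ Y R S) {a b : X → F}
    (ha : ∀ n ∈ Y, ∀ h, a (n * h * n⁻¹) = a h) (hb : ∀ n ∈ Y, ∀ h, b (n * h * n⁻¹) = b h) :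
    br R (mulF a b) = mulF (br R a) (br R b) :=
  br_mul_inv hF R hL.pgrp (fun r hr t => ha r (hL.le hr) t) (fun r hr t => hb r (hL.le hr) t)

theorem unit_UD (hF : GoodF ℓ F) (hf : SBlk Y f) (hY : Y.Normal) (hL : Loc ℓ Y R S) {j : X}
    (hj : j ∈ Subgroup.centralizer (R : Set X)) {v v' : X → F} (hv : IsUnitOver f Y j v v') :
    UD Y R S f j (br R v) (br R v') := by
  classical
  have hjN : j ∈ Subgroup.normalizer (R : Set X) := hL.norm (hL.cent hj)
  have hfinv : ∀ n ∈ Y, ∀ h, f (n * h * n⁻¹) = f h := fun n _ h => hf.cl h n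
  refine ⟨hj, br_inv hL hv.left.inv, br_inv hL hv.right.inv, ?_, ?_, ?_, ?_, ?_, ?_, ?_, ?_⟩
  · rw [← br_mulF_Y hF hL hv.left.inv hv.right.inv, hv.mul]
  · rw [← br_mulF_Y hF hL hv.right.inv hv.left.inv, unit_symm hf hY hv]
  · rw [← br_mulF_Y hF hL hfinv hv.left.inv, hv.left.abs]
  · rw [← br_mulF_Y hF hL hfinv hv.right.inv, hv.right.abs]
  · rw [← br_cj hjN, (unit_cj hf hY hv).1]
  · rw [← br_cj hjN, (unit_cj hf hY hv).2]
  · intro t ht
    show br R v (t * j⁻¹⁻¹) = 0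
    rw [inv_inv]
    by_cases h1 : t * j ∈ Subgroup.centralizer (R : Set X)
    · have h2 : t ∈ Subgroup.centralizer (R : Set X) := by
        have := mul_mem h1 (inv_mem hj)
        rwa [mul_inv_cancel_right] at this
      have h3 : t ∉ Y := fun hc => ht ⟨hc, hL.cent h2⟩
      simp only [br, if_pos h1]
      apply hv.left.supp
      intro hc
      apply h3
      have := hY.conj_mem _ hc j
      have h4 : j * (j⁻¹ * (t * j)) * j⁻¹ = t := by group
      rwa [h4] at this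
    · simp only [br, if_neg h1]
  · intro t ht
    show br R v' (j⁻¹ * t) = 0
    by_cases h1 : j⁻¹ * t ∈ Subgroup.centralizer (R : Set X)
    · have h2 : t ∈ Subgroup.centralizer (R : Set X) := by
        have := mul_mem hj h1
        rwa [mul_inv_cancel_left] at this
      have h3 : t ∉ Y := fun hc => ht ⟨hc, hL.cent h2⟩
      simp only [br, if_pos h1]
      apply hv.right.supp
      have : j⁻¹⁻¹ * (j⁻¹ * t) = t := by group
      rwa [this]
    · simp only [br, if_neg h1]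

theorem loc_norm (hY : Y.Normal) {z : X} (hz : z ∈ S) : ∀ g, g ∈ Y ⊓ S → z * g * z⁻¹ ∈ Y ⊓ S :=
  fun g hg => ⟨hY.conj_mem g hg.1 z, S.mul_mem (S.mul_mem hz hg.2) (S.inv_mem hz)⟩

/-- the key identity -/
theorem claim2 (hf : SBlk Y f) (hY : Y.Normal) (hL : Loc ℓ Y R S) {j : X} {a a' : X → F}
    (h : UD Y R S f j a a') {z : X} (hz : z ∈ S) :
    mulF (lt (j * (z * j * z⁻¹)⁻¹) (mulF (cjF z a) a')) (lt (z * j * z⁻¹) (cjF z a')) =
      lt j a' := by
  have hzN : z ∈ Subgroup.normalizer (R : Set X) := hL.norm hz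
  have hlt : lt (z * j * z⁻¹) (cjF z a') = cjF z (lt j a') := by
    funext t
    show a' (z⁻¹ * ((z * j * z⁻¹)⁻¹ * t) * z) = a' (j⁻¹ * (z⁻¹ * t * z))
    congr 1
    group
  have hsupp : ∀ t, t ∉ Y ⊓ S → lt (z * j * z⁻¹) (cjF z a') t = 0 := by
    intro t ht
    rw [hlt]
    apply h.supp'
    intro hc
    apply ht
    have := loc_norm hY hz _ hc
    have h1 : z * (z⁻¹ * t * z) * z⁻¹ = t := by group
    rwa [h1] at this
  have hcomm : mulF a' (lt (z * j * z⁻¹) (cjF z a')) = mulF (lt (z * j * z⁻¹) (cjF z a')) a' :=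
    (comm_of_inv (Y ⊓ S) hsupp h.inv').symm
  have hcj : cjF (z * j * z⁻¹) (cjF z a) = cjF z a := by
    rw [cjF_cjF]
    have : z * j * z⁻¹ * z = z * j := by group
    rw [this, ← cjF_cjF, h.cj]
  have hcj' : sg (z * j * z⁻¹) * toMA (cjF z a) = toMA (cjF z a) * sg (z * j * z⁻¹) := by
    have h1 := congrArg toMA hcj
    rw [toMA_cjF] at h1
    have h2 := congrArg (fun w => w * sg (z * j * z⁻¹)) h1
    simp only [mul_assoc, sg_mul, inv_mul_cancel] at h2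
    have h3 : (sg 1 : MonoidAlgebra F X) = 1 := sg_one
    simp only [h3, mul_one] at h2
    simpa only [mul_assoc] using h2
  have hff : mulF (cjF z a) (cjF z a') = br R f := by
    rw [← cjF_mulF, h.mul, ← br_cj hzN, cjF_of_cl hf.cl]
  have hcomm' := congrArg toMA hcomm
  rw [toMA_mulF, toMA_mulF, toMA_lt] at hcomm'
  apply toMA_injective
  rw [toMA_mulF, toMA_lt, toMA_lt, toMA_mulF, toMA_lt]
  calc sg (j * (z * j * z⁻¹)⁻¹) * (toMA (cjF z a) * toMA a') *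
        (sg (z * j * z⁻¹) * toMA (cjF z a')) =
      sg (j * (z * j * z⁻¹)⁻¹) * toMA (cjF z a) *
        (toMA a' * (sg (z * j * z⁻¹) * toMA (cjF z a'))) := by simp only [mul_assoc]
    _ = sg (j * (z * j * z⁻¹)⁻¹) * (toMA (cjF z a) * sg (z * j * z⁻¹)) * toMA (cjF z a') *
        toMA a' := by rw [hcomm']; simp only [mul_assoc]
    _ = sg (j * (z * j * z⁻¹)⁻¹) * sg (z * j * z⁻¹) * (toMA (cjF z a) * toMA (cjF z a')) *
        toMA a' := by rw [← hcj']; simp only [mul_assoc]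
    _ = sg j * toMA (br R f) * toMA a' := by
        rw [sg_mul, ← toMA_mulF, hff]
        congr 3
        group
    _ = sg j * toMA a' := by rw [mul_assoc, ← toMA_mulF, h.abs']

/-- the matrix `r = ρ(j a')` -/
theorem UD_unit {j : X} {a a' : X → F} (h : UD Y R S f j a a') {n : ℕ}
    {ρ : ↥(Y ⊓ S) →* Matrix (Fin n) (Fin n) F} (h1 : ev ρ (fun t : ↥(Y ⊓ S) => br R f t) = 1) :
    IsUnit (ev ρ (fun t : ↥(Y ⊓ S) => lt j a' t)) := by
  have h2 : mulF (rt j⁻¹ a) (lt j a') = br R f := by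
    apply toMA_injective
    rw [toMA_mulF, toMA_rt, toMA_lt, ← h.mul, toMA_mulF]
    calc toMA a * sg j⁻¹ * (sg j * toMA a') = toMA a * (sg j⁻¹ * sg j) * toMA a' := by
          simp only [mul_assoc]
      _ = toMA a * toMA a' := by rw [sg_mul, inv_mul_cancel, sg_one, mul_one]
  have h3 := ev_res_mul ρ h.supp (lt j a')
  rw [h2, h1] at h3
  exact (Matrix.isUnit_iff_isUnit_det _).2 (by
    have h4 := congrArg Matrix.det h3
    rw [Matrix.det_one, Matrix.det_mul] at h4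
    exact IsUnit.of_mul_eq_one_right _ h4.symm)

theorem UD_cj {j : X} {a a' : X → F} (h : UD Y R S f j a a') {n : ℕ}
    (ρ : ↥(Y ⊓ S) →* Matrix (Fin n) (Fin n) F) (g g' : ↥(Y ⊓ S)) (hg : (g' : X) = j * g * j⁻¹) :
    ev ρ (fun t : ↥(Y ⊓ S) => lt j a' t) * ρ g = ρ g' * ev ρ (fun t : ↥(Y ⊓ S) => lt j a' t) := by
  have hfin := Fintype.ofFinite X
  have hfinL := Fintype.ofFinite ↥(Y ⊓ S)
  rw [ev, finsum_eq_sum_of_fintype, Finset.sum_mul, Finset.mul_sum]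
  apply Fintype.sum_equiv
    (⟨fun t => g'⁻¹ * t * g, fun t => g' * t * g⁻¹, fun t => by group, fun t => by group⟩ :
      ↥(Y ⊓ S) ≃ ↥(Y ⊓ S))
  intro t
  show lt j a' (t : X) • ρ t * ρ g = ρ g' * (lt j a' ((g'⁻¹ * t * g : ↥(Y ⊓ S)) : X) •
    ρ (g'⁻¹ * t * g))
  have h1 : ρ g' * ρ (g'⁻¹ * t * g) = ρ t * ρ g := by
    rw [← map_mul, ← map_mul]
    congr 1
    group
  rw [Matrix.mul_smul, h1, Matrix.smul_mul]
  congr 1
  show a' (j⁻¹ * t) = a' (j⁻¹ * ((g' : X)⁻¹ * t * g))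
  have h2 : (j⁻¹ * ((g' : X)⁻¹ * t * g)) = (g : X)⁻¹ * (j⁻¹ * t) * (g : X)⁻¹⁻¹ := by
    rw [hg]
    group
  rw [h2, h.inv' _ ((Y ⊓ S).inv_mem g.2)]

/-- moving the first variable -/
theorem mov_x (hF : GoodF ℓ F) (hf : SBlk Y f) (hY : Y.Normal) (hL : Loc ℓ Y R S) {x y j : X}
    (hx : x ∈ S) (hy : y ∈ S) (hj : j ∈ Subgroup.centralizer (R : Set X)) {v v' u : X → F}
    (hv : IsUnitOver f Y j v v') (hu : ∀ n ∈ Y, ∀ h, u (n * h * n⁻¹) = u h)
    {φ : ↥(Y ⊓ S) → F} (hφ : actF (fun t : ↥(Y ⊓ S) => f t) φ = φ) {c : F}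
    (h : IsSC Y S R φ x y u c) :
    IsSC Y S R φ (x * j) y (mulF (cjF x (mulF v (cjF y v'))) u) c := by
  obtain ⟨n, ρ, A, B, hρ, htr, hA, hB, hc⟩ := h
  have hone : ev ρ (fun t : ↥(Y ⊓ S) => br R f t) = 1 := by
    apply ev_br_one hF hf hL hρ
    rw [htr]
    exact hφ
  have hUD := unit_UD hF hf hY hL hj hv
  have hjS : j ∈ S := hL.cent hj
  have hxN := hL.norm hx
  have hyN := hL.norm hy
  obtain ⟨r, hr⟩ : ∃ r, r = ev ρ (fun t : ↥(Y ⊓ S) => lt j (br R v') t) := ⟨_, rfl⟩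
  have hrU : IsUnit r := by rw [hr]; exact UD_unit hUD hone
  have hrc : ∀ g g' : ↥(Y ⊓ S), (g' : X) = j * g * j⁻¹ → r * ρ g = ρ g' * r := by
    intro g g' hg
    rw [hr]
    exact UD_cj hUD ρ g g' hg
  refine ⟨n, ρ, A * r, B, hρ, htr, ⟨hA.1.mul hrU, ?_⟩, hB, ?_⟩
  · intro g g' hg
    obtain ⟨g1, hg1⟩ : ∃ g1 : ↥(Y ⊓ S), (g1 : X) = j * g * j⁻¹ :=
      ⟨⟨_, loc_norm hY hjS g g.2⟩, rfl⟩
    have hg' : (g' : X) = x * g1 * x⁻¹ := by rw [hg, hg1]; group
    rw [mul_assoc, hrc g g1 hg1, ← mul_assoc, hA.2 g1 g' hg', mul_assoc]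
  · -- the function at `y⁻¹`
    have hz : y⁻¹ ∈ S := S.inv_mem hy
    have hcl2 := claim2 hf hY hL hUD hz
    have hinvw : ∀ n ∈ Y, ∀ h, cjF x (mulF v (cjF y v')) (n * h * n⁻¹) =
        cjF x (mulF v (cjF y v')) h :=
      (CE_cj hf hY (CE_mul hf hY hv.left (CE_cj hf hY hv.right y)) x).inv
    have hinvv : ∀ n ∈ Y, ∀ h, cjF y v' (n * h * n⁻¹) = cjF y v' h :=
      (CE_cj hf hY hv.right y).inv
    -- the element `γ₂`
    obtain ⟨γ, hγ⟩ : ∃ γ : X → F, γ = lt (j * (y⁻¹ * j * y⁻¹⁻¹)⁻¹)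
      (mulF (cjF y⁻¹ (br R v)) (br R v')) := ⟨_, rfl⟩
    rw [← hγ] at hcl2
    have hγsupp : ∀ t, t ∉ Y ⊓ S → γ t = 0 := by
      intro t ht
      rw [hγ]
      have h1 : mulF (cjF y⁻¹ (br R v)) (br R v') = br R (mulF (cjF y⁻¹ v) v') := by
        rw [← br_cj (inv_mem hyN), br_mulF_Y hF hL (CE_cj hf hY hv.left y⁻¹).inv hv.right.inv]
      rw [h1]
      classical
      show br R (mulF (cjF y⁻¹ v) v') ((j * (y⁻¹ * j * y⁻¹⁻¹)⁻¹)⁻¹ * t) = 0
      by_cases h2 : (j * (y⁻¹ * j * y⁻¹⁻¹)⁻¹)⁻¹ * t ∈ Subgroup.centralizer (R : Set X)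
      · have h3 : t ∈ S := by
          have h4 := S.mul_mem (S.mul_mem hjS (S.inv_mem (S.mul_mem (S.mul_mem hz hjS)
            (S.inv_mem hz)))) (hL.cent h2)
          rwa [mul_inv_cancel_left] at h4
        have h5 : t ∉ Y := fun hc => ht ⟨hc, h3⟩
        simp only [br, if_pos h2]
        apply (CE_mul hf hY (CE_cj hf hY hv.left y⁻¹) hv.right).supp
        intro hc
        apply h5
        have h6 := hY.conj_mem _ hc (j * (y⁻¹ * j * y⁻¹⁻¹)⁻¹ * (y⁻¹ * j * y⁻¹⁻¹) * j⁻¹)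
        have h7 : j * (y⁻¹ * j * y⁻¹⁻¹)⁻¹ * (y⁻¹ * j * y⁻¹⁻¹) * j⁻¹ *
            ((y⁻¹ * j * y⁻¹⁻¹ * j⁻¹)⁻¹ * ((j * (y⁻¹ * j * y⁻¹⁻¹)⁻¹)⁻¹ * t)) *
            (j * (y⁻¹ * j * y⁻¹⁻¹)⁻¹ * (y⁻¹ * j * y⁻¹⁻¹) * j⁻¹)⁻¹ = t := by group
        rwa [h7] at h6
      · simp only [br, if_neg h2]
    -- the first claim
    have hcl1 : lt (x * j * y * (x * j)⁻¹ * y⁻¹)⁻¹ (br R (mulF (cjF x (mulF v (cjF y v'))) u)) =
        mulF (cjF y (cjF x γ)) (lt (x * y * x⁻¹ * y⁻¹)⁻¹ (br R u)) := by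
      rw [br_mulF_Y hF hL hinvw hu, br_cj hxN, br_mulF_Y hF hL hv.left.inv hinvv, br_cj hyN, hγ]
      apply toMA_injective
      simp only [toMA_mulF, toMA_lt, toMA_cjF]
      have e1 : (sg (x * j * y * (x * j)⁻¹ * y⁻¹)⁻¹ * sg x : MonoidAlgebra F X) =
          sg y * (sg x * (sg (j * (y⁻¹ * j * y⁻¹⁻¹)⁻¹) * sg y⁻¹)) := by
        simp only [sg_mul]
        congr 1
        group
      have e2 : (sg y⁻¹ * sg x⁻¹ : MonoidAlgebra F X) =
          sg x⁻¹ * (sg y⁻¹ * sg (x * y * x⁻¹ * y⁻¹)⁻¹) := by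
        simp only [sg_mul]
        congr 1
        group
      have e3 : (sg y⁻¹⁻¹ : MonoidAlgebra F X) = sg y := by rw [inv_inv]
      calc sg (x * j * y * (x * j)⁻¹ * y⁻¹)⁻¹ * (sg x * (toMA (br R v) *
            (sg y * toMA (br R v') * sg y⁻¹)) * sg x⁻¹ * toMA (br R u)) =
          (sg (x * j * y * (x * j)⁻¹ * y⁻¹)⁻¹ * sg x) * toMA (br R v) * sg y * toMA (br R v') *
            (sg y⁻¹ * sg x⁻¹) * toMA (br R u) := by simp only [mul_assoc]
        _ = _ := by rw [e1, e2, e3]; simp only [mul_assoc]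
    have hsuppc : ∀ t, t ∉ Y ⊓ S → cjF y (cjF x γ) t = 0 := by
      intro t ht
      apply hγsupp
      intro hc
      apply ht
      have h1 := loc_norm hY hy _ (loc_norm hY hx _ hc)
      have h2 : y * (x * (x⁻¹ * (y⁻¹ * t * y) * x) * x⁻¹) * y⁻¹ = t := by group
      rwa [h2] at h1
    have hfun : (fun t : ↥(Y ⊓ S) => br R (mulF (cjF x (mulF v (cjF y v'))) u)
        (x * j * y * (x * j)⁻¹ * y⁻¹ * t)) =
        fun t : ↥(Y ⊓ S) => mulF (cjF y (cjF x γ)) (lt (x * y * x⁻¹ * y⁻¹)⁻¹ (br R u)) t := by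
      rw [← hcl1]
      funext t
      show _ = br R (mulF (cjF x (mulF v (cjF y v'))) u)
        ((x * j * y * (x * j)⁻¹ * y⁻¹)⁻¹⁻¹ * t)
      rw [inv_inv]
    have hβ : (fun t : ↥(Y ⊓ S) => lt (x * y * x⁻¹ * y⁻¹)⁻¹ (br R u) t) =
        fun t : ↥(Y ⊓ S) => br R u (x * y * x⁻¹ * y⁻¹ * t) := by
      funext t
      show br R u ((x * y * x⁻¹ * y⁻¹)⁻¹⁻¹ * t) = _
      rw [inv_inv]
    rw [hfun, ev_res_mul ρ hsuppc, hβ]
    -- moving `r` through `B`
    have hrB : r * B = B * ev ρ (fun t : ↥(Y ⊓ S) => cjF y⁻¹ (lt j (br R v')) t) := by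
      have h1 := ev_res_cj (loc_norm hY hy) hB (cjF y⁻¹ (lt j (br R v')))
      rw [cjF_cjF, mul_inv_cancel, cjF_one, ← hr] at h1
      exact h1
    have hlt : cjF y⁻¹ (lt j (br R v')) = lt (y⁻¹ * j * y⁻¹⁻¹) (cjF y⁻¹ (br R v')) := by
      funext t
      show br R v' (j⁻¹ * (y⁻¹⁻¹ * t * y⁻¹)) = br R v' (y⁻¹⁻¹ * ((y⁻¹ * j * y⁻¹⁻¹)⁻¹ * t) * y⁻¹)
      congr 1
      group
    have hγr : ev ρ (fun t : ↥(Y ⊓ S) => γ t) *
        ev ρ (fun t : ↥(Y ⊓ S) => cjF y⁻¹ (lt j (br R v')) t) = r := by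
      rw [← ev_res_mul ρ hγsupp, hlt, hcl2, hr]
    obtain ⟨r1, hr1⟩ : ∃ r1, r1 = ev ρ (fun t : ↥(Y ⊓ S) => cjF y⁻¹ (lt j (br R v')) t) :=
      ⟨_, rfl⟩
    obtain ⟨b, hb⟩ : ∃ b, b = ev ρ (fun t : ↥(Y ⊓ S) => br R u (x * y * x⁻¹ * y⁻¹ * t)) :=
      ⟨_, rfl⟩
    rw [← hr1] at hrB hγr
    rw [← hb] at hc ⊢
    have h1 := ev_res_cj (loc_norm hY hy) hB (cjF x γ)
    have h2 := ev_res_cj (loc_norm hY hx) hA γ
    obtain ⟨g2, hg2⟩ : ∃ g2, g2 = ev ρ (fun t : ↥(Y ⊓ S) => cjF y (cjF x γ) t) := ⟨_, rfl⟩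
    obtain ⟨g1, hg1⟩ : ∃ g1, g1 = ev ρ (fun t : ↥(Y ⊓ S) => cjF x γ t) := ⟨_, rfl⟩
    obtain ⟨g0, hg0⟩ : ∃ g0, g0 = ev ρ (fun t : ↥(Y ⊓ S) => γ t) := ⟨_, rfl⟩
    rw [← hg2, ← hg1] at h1
    rw [← hg1, ← hg0] at h2
    rw [← hg0] at hγr
    rw [← hg2]
    calc g2 * b * (A * r * B) = g2 * (b * (A * (r * B))) := by simp only [mul_assoc]
      _ = g2 * (b * (A * B) * r1) := by rw [hrB]; simp only [mul_assoc]
      _ = c • ((g2 * B) * A * r1) := by
        rw [hc, Matrix.smul_mul, Matrix.mul_smul]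
        simp only [mul_assoc]
      _ = c • (B * ((g1 * A) * r1)) := by rw [h1]; simp only [mul_assoc]
      _ = c • (B * (A * (g0 * r1))) := by rw [h2]; simp only [mul_assoc]
      _ = c • (B * (A * r)) := by rw [hγr]

/-- moving the second variable -/
theorem mov_y (hF : GoodF ℓ F) (hf : SBlk Y f) (hY : Y.Normal) (hL : Loc ℓ Y R S) {x y j : X}
    (hx : x ∈ S) (hy : y ∈ S) (hj : j ∈ Subgroup.centralizer (R : Set X)) {v v' u : X → F}
    (hv : IsUnitOver f Y j v v') (hu : CE f Y (x * y * x⁻¹ * y⁻¹) u)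
    {φ : ↥(Y ⊓ S) → F} (hφ : actF (fun t : ↥(Y ⊓ S) => f t) φ = φ) {c : F}
    (h : IsSC Y S R φ x y u c) :
    IsSC Y S R φ x (y * j) (mulF u (cjF y (mulF (cjF x v) v'))) c := by
  obtain ⟨n, ρ, A, B, hρ, htr, hA, hB, hc⟩ := h
  have hone : ev ρ (fun t : ↥(Y ⊓ S) => br R f t) = 1 := by
    apply ev_br_one hF hf hL hρ
    rw [htr]
    exact hφ
  have hUD := unit_UD hF hf hY hL hj hv
  have hjS : j ∈ S := hL.cent hj
  have hxN := hL.norm hx
  have hyN := hL.norm hy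
  obtain ⟨r, hr⟩ : ∃ r, r = ev ρ (fun t : ↥(Y ⊓ S) => lt j (br R v') t) := ⟨_, rfl⟩
  have hrU : IsUnit r := by rw [hr]; exact UD_unit hUD hone
  have hrc : ∀ g g' : ↥(Y ⊓ S), (g' : X) = j * g * j⁻¹ → r * ρ g = ρ g' * r := by
    intro g g' hg
    rw [hr]
    exact UD_cj hUD ρ g g' hg
  refine ⟨n, ρ, A, B * r, hρ, htr, hA, ⟨hB.1.mul hrU, ?_⟩, ?_⟩
  · intro g g' hg
    obtain ⟨g1, hg1⟩ : ∃ g1 : ↥(Y ⊓ S), (g1 : X) = j * g * j⁻¹ :=
      ⟨⟨_, loc_norm hY hjS g g.2⟩, rfl⟩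
    have hg' : (g' : X) = y * g1 * y⁻¹ := by rw [hg, hg1]; group
    rw [mul_assoc, hrc g g1 hg1, ← mul_assoc, hB.2 g1 g' hg', mul_assoc]
  · have hcl2 := claim2 hf hY hL hUD hx
    have hCEw := CE_mul hf hY (CE_cj hf hY hv.left x) hv.right
    have hinvw : ∀ n ∈ Y, ∀ h, cjF y (mulF (cjF x v) v') (n * h * n⁻¹) =
        cjF y (mulF (cjF x v) v') h := (CE_cj hf hY hCEw y).inv
    -- the element `γ`
    obtain ⟨γ, hγ⟩ : ∃ γ : X → F, γ = lt (j * (x * j * x⁻¹)⁻¹)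
      (mulF (cjF x (br R v)) (br R v')) := ⟨_, rfl⟩
    rw [← hγ] at hcl2
    have h0 : mulF (cjF x (br R v)) (br R v') = br R (mulF (cjF x v) v') := by
      rw [← br_cj hxN, br_mulF_Y hF hL (CE_cj hf hY hv.left x).inv hv.right.inv]
    have hγsupp : ∀ t, t ∉ Y ⊓ S → γ t = 0 := by
      intro t ht
      rw [hγ, h0]
      classical
      show br R (mulF (cjF x v) v') ((j * (x * j * x⁻¹)⁻¹)⁻¹ * t) = 0
      by_cases h2 : (j * (x * j * x⁻¹)⁻¹)⁻¹ * t ∈ Subgroup.centralizer (R : Set X)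
      · have h3 : t ∈ S := by
          have h4 := S.mul_mem (S.mul_mem hjS (S.inv_mem (S.mul_mem (S.mul_mem hx hjS)
            (S.inv_mem hx)))) (hL.cent h2)
          rwa [mul_inv_cancel_left] at h4
        have h5 : t ∉ Y := fun hc => ht ⟨hc, h3⟩
        simp only [br, if_pos h2]
        apply hCEw.supp
        intro hc
        apply h5
        have h6 := hY.conj_mem _ hc (j * (x * j * x⁻¹)⁻¹ * (x * j * x⁻¹) * j⁻¹)
        have h7 : j * (x * j * x⁻¹)⁻¹ * (x * j * x⁻¹) * j⁻¹ *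
            ((x * j * x⁻¹ * j⁻¹)⁻¹ * ((j * (x * j * x⁻¹)⁻¹)⁻¹ * t)) *
            (j * (x * j * x⁻¹)⁻¹ * (x * j * x⁻¹) * j⁻¹)⁻¹ = t := by group
        rwa [h7] at h6
      · simp only [br, if_neg h2]
    -- `β = k⁻¹ Br(u)` is supported on `Y ∩ S`
    have hβsupp : ∀ t, t ∉ Y ⊓ S → lt (x * y * x⁻¹ * y⁻¹)⁻¹ (br R u) t = 0 := by
      intro t ht
      classical
      show br R u ((x * y * x⁻¹ * y⁻¹)⁻¹⁻¹ * t) = 0
      rw [inv_inv]
      by_cases h2 : x * y * x⁻¹ * y⁻¹ * t ∈ Subgroup.centralizer (R : Set X)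
      · have hkS : x * y * x⁻¹ * y⁻¹ ∈ S :=
          S.mul_mem (S.mul_mem (S.mul_mem hx hy) (S.inv_mem hx)) (S.inv_mem hy)
        have h3 : t ∈ S := by
          have h4 := S.mul_mem (S.inv_mem hkS) (hL.cent h2)
          rwa [inv_mul_cancel_left] at h4
        have h5 : t ∉ Y := fun hc => ht ⟨hc, h3⟩
        simp only [br, if_pos h2]
        apply hu.supp
        rwa [inv_mul_cancel_left]
      · simp only [br, if_neg h2]
    have hcomm : mulF (lt (x * y * x⁻¹ * y⁻¹)⁻¹ (br R u)) (br R (cjF y (mulF (cjF x v) v'))) =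
        mulF (br R (cjF y (mulF (cjF x v) v'))) (lt (x * y * x⁻¹ * y⁻¹)⁻¹ (br R u)) :=
      comm_of_inv (Y ⊓ S) hβsupp (br_inv hL hinvw)
    -- the first claim
    have hcl1 : lt (x * (y * j) * x⁻¹ * (y * j)⁻¹)⁻¹ (br R (mulF u (cjF y (mulF (cjF x v) v')))) =
        mulF (cjF y γ) (lt (x * y * x⁻¹ * y⁻¹)⁻¹ (br R u)) := by
      rw [br_mulF_Y hF hL hu.inv hinvw, hγ, h0]
      have hcomm' := congrArg toMA hcomm
      rw [toMA_mulF, toMA_mulF, toMA_lt] at hcomm'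
      apply toMA_injective
      rw [toMA_mulF, toMA_lt, toMA_mulF, toMA_cjF, toMA_lt, toMA_lt]
      have e0 : toMA (br R (cjF y (mulF (cjF x v) v'))) =
          sg y * toMA (br R (mulF (cjF x v) v')) * sg y⁻¹ := by
        rw [br_cj hyN, toMA_cjF]
      have e1 : (sg (x * (y * j) * x⁻¹ * (y * j)⁻¹)⁻¹ : MonoidAlgebra F X) =
          sg y * (sg (j * (x * j * x⁻¹)⁻¹) * (sg y⁻¹ * sg (x * y * x⁻¹ * y⁻¹)⁻¹)) := by
        simp only [sg_mul]
        congr 1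
        group
      have e2 : (sg y⁻¹ * sg y : MonoidAlgebra F X) = 1 := by
        rw [sg_mul, inv_mul_cancel, sg_one]
      calc sg (x * (y * j) * x⁻¹ * (y * j)⁻¹)⁻¹ *
            (toMA (br R u) * toMA (br R (cjF y (mulF (cjF x v) v')))) =
          sg y * (sg (j * (x * j * x⁻¹)⁻¹) * (sg y⁻¹ * (sg (x * y * x⁻¹ * y⁻¹)⁻¹ *
            toMA (br R u) * toMA (br R (cjF y (mulF (cjF x v) v')))))) := by
            rw [e1]; simp only [mul_assoc]
        _ = sg y * (sg (j * (x * j * x⁻¹)⁻¹) * ((sg y⁻¹ * sg y) *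
            toMA (br R (mulF (cjF x v) v')) * sg y⁻¹ *
            (sg (x * y * x⁻¹ * y⁻¹)⁻¹ * toMA (br R u)))) := by
            rw [hcomm', e0]; simp only [mul_assoc]
        _ = sg y * (sg (j * (x * j * x⁻¹)⁻¹) * toMA (br R (mulF (cjF x v) v'))) * sg y⁻¹ *
            (sg (x * y * x⁻¹ * y⁻¹)⁻¹ * toMA (br R u)) := by
            rw [e2, one_mul]; simp only [mul_assoc]
    have hsuppc : ∀ t, t ∉ Y ⊓ S → cjF y γ t = 0 := by
      intro t ht
      apply hγsupp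
      intro hc
      apply ht
      have h1 := loc_norm hY hy _ hc
      have h2 : y * (y⁻¹ * t * y) * y⁻¹ = t := by group
      rwa [h2] at h1
    have hfun : (fun t : ↥(Y ⊓ S) => br R (mulF u (cjF y (mulF (cjF x v) v')))
        (x * (y * j) * x⁻¹ * (y * j)⁻¹ * t)) =
        fun t : ↥(Y ⊓ S) => mulF (cjF y γ) (lt (x * y * x⁻¹ * y⁻¹)⁻¹ (br R u)) t := by
      rw [← hcl1]
      funext t
      show _ = br R (mulF u (cjF y (mulF (cjF x v) v')))
        ((x * (y * j) * x⁻¹ * (y * j)⁻¹)⁻¹⁻¹ * t)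
      rw [inv_inv]
    have hβ : (fun t : ↥(Y ⊓ S) => lt (x * y * x⁻¹ * y⁻¹)⁻¹ (br R u) t) =
        fun t : ↥(Y ⊓ S) => br R u (x * y * x⁻¹ * y⁻¹ * t) := by
      funext t
      show br R u ((x * y * x⁻¹ * y⁻¹)⁻¹⁻¹ * t) = _
      rw [inv_inv]
    rw [hfun, ev_res_mul ρ hsuppc, hβ]
    -- moving `r` through `A`
    have hrA : ev ρ (fun t : ↥(Y ⊓ S) => cjF x (lt j (br R v')) t) * A = A * r := by
      rw [hr]
      exact ev_res_cj (loc_norm hY hx) hA (lt j (br R v'))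
    have hlt : cjF x (lt j (br R v')) = lt (x * j * x⁻¹) (cjF x (br R v')) := by
      funext t
      show br R v' (j⁻¹ * (x⁻¹ * t * x)) = br R v' (x⁻¹ * ((x * j * x⁻¹)⁻¹ * t) * x)
      congr 1
      group
    have hγr : ev ρ (fun t : ↥(Y ⊓ S) => γ t) *
        ev ρ (fun t : ↥(Y ⊓ S) => cjF x (lt j (br R v')) t) = r := by
      rw [← ev_res_mul ρ hγsupp, hlt, hcl2, hr]
    obtain ⟨r1, hr1⟩ : ∃ r1, r1 = ev ρ (fun t : ↥(Y ⊓ S) => cjF x (lt j (br R v')) t) :=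
      ⟨_, rfl⟩
    obtain ⟨b, hb⟩ : ∃ b, b = ev ρ (fun t : ↥(Y ⊓ S) => br R u (x * y * x⁻¹ * y⁻¹ * t)) :=
      ⟨_, rfl⟩
    rw [← hr1] at hrA hγr
    rw [← hb] at hc ⊢
    have h1 := ev_res_cj (loc_norm hY hy) hB γ
    obtain ⟨g1, hg1⟩ : ∃ g1, g1 = ev ρ (fun t : ↥(Y ⊓ S) => cjF y γ t) := ⟨_, rfl⟩
    obtain ⟨g0, hg0⟩ : ∃ g0, g0 = ev ρ (fun t : ↥(Y ⊓ S) => γ t) := ⟨_, rfl⟩
    rw [← hg1, ← hg0] at h1
    rw [← hg0] at hγr
    rw [← hg1]
    calc g1 * b * (A * (B * r)) = g1 * (b * (A * B) * r) := by simp only [mul_assoc]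
      _ = c • ((g1 * B) * (A * r)) := by
        rw [hc, Matrix.smul_mul, Matrix.mul_smul]
        simp only [mul_assoc]
      _ = c • (B * (g0 * r1) * A) := by rw [h1, ← hrA]; simp only [mul_assoc]
      _ = c • (B * r * A) := by rw [hγr]

end loc

end Pool.Agent.PP.H20
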