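import Pool.Agent.Helper66_PP.StmtsJ
import Pool.Agent.Helper20_PP.MovCore

/-!
MOV, UNI (J7.1): the vanishing of the pair sums depends only on the cosets modulo `X[f]`.
-/

open scoped BigOperators

noncomputable section

namespace Pool.Agent.PP.H20

open Pool.Agent.Helper51_AWC Pool.Agent.Helper79_WRA

variable {F X : Type} [Field F] [Group X] [Finite X] {f : X → F} {Y : Subgroup X}

/-! ### units -/

theorem unit_mul (hf : SBlk Y f) (hY : Y.Normal) {g h : X} {u u' v v' : X → F}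
    (hu : IsUnitOver f Y g u u') (hv : IsUnitOver f Y h v v') :
    IsUnitOver f Y (g * h) (mulF u v) (mulF v' u') := by
  refine ⟨CE_mul hf hY hu.left hv.left, ?_, ?_⟩
  · have := CE_mul hf hY hv.right hu.right
    rwa [← mul_inv_rev] at this
  · rw [mulF_assoc, ← mulF_assoc v v' u', hv.mul, hu.right.abs, hu.mul]

theorem unit_conj (hf : SBlk Y f) (hY : Y.Normal) {g : X} {u u' : X → F}
    (hu : IsUnitOver f Y g u u') (x : X) :
    IsUnitOver f Y (x * g * x⁻¹) (cjF x u) (cjF x u') := by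
  refine ⟨CE_cj hf hY hu.left x, ?_, ?_⟩
  · have := CE_cj hf hY hu.right x
    have h1 : x * g⁻¹ * x⁻¹ = (x * g * x⁻¹)⁻¹ := by group
    rwa [h1] at this
  · rw [← cjF_mulF, hu.mul, cjF_of_cl hf.cl]

theorem unit_inv (hf : SBlk Y f) (hY : Y.Normal) {g : X} {u u' : X → F}
    (hu : IsUnitOver f Y g u u') : IsUnitOver f Y g⁻¹ u' u :=
  ⟨hu.right, by rw [inv_inv]; exact hu.left, unit_symm hf hY hu⟩

omit [Finite X] in
theorem CE_congr {g h : X} (hgh : g⁻¹ * h ∈ Y) {u : X → F} (hu : CE f Y g u) : CE f Y h u := by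
  refine ⟨fun t ht => hu.supp t (fun hc => ht ?_), hu.inv, hu.abs⟩
  have h1 := Y.mul_mem (Y.inv_mem hgh) hc
  have h2 : (g⁻¹ * h)⁻¹ * (g⁻¹ * t) = h⁻¹ * t := by group
  rwa [h2] at h1

omit [Finite X] in
theorem unit_congr (hY : Y.Normal) {g h : X} (hgh : g⁻¹ * h ∈ Y) {u u' : X → F}
    (hu : IsUnitOver f Y g u u') : IsUnitOver f Y h u u' := by
  refine ⟨CE_congr hgh hu.left, CE_congr ?_ hu.right, hu.mul⟩
  have h1 := hY.conj_mem _ (Y.inv_mem hgh) g
  have h2 : g * (g⁻¹ * h)⁻¹ * g⁻¹ = g⁻¹⁻¹ * h⁻¹ := by group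
  rwa [h2] at h1

theorem f_mul_f (hf : SBlk Y f) : mulF f f = f := by
  have hfin := Fintype.ofFinite X
  funext t
  by_cases ht : t ∈ Y
  · have h1 := congrFun (restr_mul Y hf.supp f) ⟨t, ht⟩
    rw [hf.blk.1.2] at h1
    exact h1
  · rw [hf.supp t ht, mulF, finsum_eq_sum_of_fintype]
    apply Finset.sum_eq_zero
    intro s _
    by_cases hs : s ∈ Y
    · have h5 : s⁻¹ * t ∉ Y := by
        intro hc
        apply ht
        have := Y.mul_mem hs hc
        rwa [mul_inv_cancel_left] at this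
      rw [hf.supp _ h5, mul_zero]
    · rw [hf.supp _ hs, zero_mul]

theorem unit_one (hf : SBlk Y f) : IsUnitOver f Y 1 f f := by
  have h1 : CE f Y 1 f := by
    refine ⟨fun h hh => hf.supp h (fun hc => hh ?_), fun n _ h => hf.cl h n, f_mul_f hf⟩
    rwa [inv_one, one_mul]
  exact ⟨h1, by rw [inv_one]; exact h1, f_mul_f hf⟩

theorem mem_XF (hf : SBlk Y f) (hY : Y.Normal) {g : X} :
    g ∈ XF f Y ↔ ∃ u u', IsUnitOver f Y g u u' := by
  constructor
  · intro h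
    induction h using Subgroup.closure_induction with
    | mem x hx => exact hx
    | one => exact ⟨f, f, unit_one hf⟩
    | mul x y _ _ hx hy =>
      obtain ⟨u, u', hu⟩ := hx
      obtain ⟨v, v', hv⟩ := hy
      exact ⟨_, _, unit_mul hf hY hu hv⟩
    | inv x _ hx =>
      obtain ⟨u, u', hu⟩ := hx
      exact ⟨_, _, unit_inv hf hY hu⟩
  · intro h
    exact Subgroup.subset_closure h

/-! ### the sums over a fixed chain -/

variable {ℓ : ℕ} {R S : Subgroup X}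

theorem phiS_empty (hF : GoodF ℓ F) (hf : SBlk Y f) (hL : Loc ℓ Y R S) (h0 : br R f = 0) (x y : X) :
    phiS Y S f x y = ∅ := by
  rw [Set.eq_empty_iff_forall_notMem]
  rintro φ ⟨⟨n, ρ, hρ, rfl⟩, hφ, -⟩
  have hN : NeZero n := ⟨hρ.1.ne'⟩
  have h1 := ev_br_one hF hf hL hρ hφ
  have h2 : ev ρ (fun t : ↥(Y ⊓ S) => br R f t) = 0 := by
    rw [h0]
    have h3 : (fun t : ↥(Y ⊓ S) => (0 : X → F) t) = 0 := rfl
    rw [h3, ← lift_toMA, toMA_zero, map_zero]
  rw [h2] at h1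
  exact zero_ne_one h1

theorem SS_zero (hF : GoodF ℓ F) (hf : SBlk Y f) (hL : Loc ℓ Y R S) (h0 : br R f = 0) (τ : F → ℂ)
    (x y : X) (u : X → F) : SS τ Y S R f x y u = 0 := by
  rw [SS, phiS_empty hF hf hL h0]
  exact finsum_mem_empty

theorem fix_j (hF : GoodF ℓ F) (hf : SBlk Y f) (hY : Y.Normal) (hL : Loc ℓ Y R S) {j : X}
    (hj : j ∈ Subgroup.centralizer (R : Set X)) {v v' : X → F} (hv : IsUnitOver f Y j v v')
    {φ : ↥(Y ⊓ S) → F} (hφI : φ ∈ IBr F ↥(Y ⊓ S))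
    (hφ : actF (fun t : ↥(Y ⊓ S) => f t) φ = φ) (g g' : ↥(Y ⊓ S))
    (hg : (g' : X) = j * g * j⁻¹) : φ g' = φ g := by
  obtain ⟨n, ρ, hρ, rfl⟩ := hφI
  have hone := ev_br_one hF hf hL hρ hφ
  have hUD := unit_UD hF hf hY hL hj hv
  have hrU := UD_unit hUD hone
  have h1 := UD_cj hUD ρ g g' hg
  obtain ⟨r, hr⟩ : ∃ r, r = ev ρ (fun t : ↥(Y ⊓ S) => lt j (br R v') t) := ⟨_, rfl⟩
  rw [← hr] at h1 hrU
  obtain ⟨r', hr'⟩ := hrU
  show (ρ g').trace = (ρ g).trace
  have h2 : ρ g' = r * ρ g * ((r'⁻¹ : (Matrix (Fin n) (Fin n) F)ˣ) : Matrix (Fin n) (Fin n) F) := by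
    rw [h1, ← hr', mul_assoc, Units.mul_inv, mul_one]
  rw [h2, ← hr', Matrix.trace_mul_comm, ← mul_assoc, Units.inv_mul, one_mul]

theorem phiS_move_x (hF : GoodF ℓ F) (hf : SBlk Y f) (hY : Y.Normal) (hL : Loc ℓ Y R S) {x y j : X}
    (hx : x ∈ S) (hj : j ∈ Subgroup.centralizer (R : Set X)) {v v' : X → F}
    (hv : IsUnitOver f Y j v v') : phiS Y S f (x * j) y = phiS Y S f x y := by
  have hjS := hL.cent hj
  ext φ
  constructor
  · rintro ⟨h1, h2, h3, h4⟩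
    refine ⟨h1, h2, fun n n' hn => ?_, h4⟩
    obtain ⟨m, hm⟩ : ∃ m : ↥(Y ⊓ S), (m : X) = j⁻¹ * n * j⁻¹⁻¹ :=
      ⟨⟨_, loc_norm hY (S.inv_mem hjS) n n.2⟩, rfl⟩
    have h5 := h3 m n' (by rw [hn, hm]; group)
    have h6 := fix_j hF hf hY hL hj hv h1 h2 m n (by rw [hm]; group)
    rw [h5, h6]
  · rintro ⟨h1, h2, h3, h4⟩
    refine ⟨h1, h2, fun n n' hn => ?_, h4⟩
    obtain ⟨m, hm⟩ : ∃ m : ↥(Y ⊓ S), (m : X) = j * n * j⁻¹ :=
      ⟨⟨_, loc_norm hY hjS n n.2⟩, rfl⟩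
    have h5 := h3 m n' (by rw [hn, hm]; group)
    have h6 := fix_j hF hf hY hL hj hv h1 h2 n m hm
    rw [h5, h6]

theorem phiS_comm (x y : X) : phiS Y S f x y = phiS Y S f y x := by
  ext φ
  exact ⟨fun ⟨a, b, c, d⟩ => ⟨a, b, d, c⟩, fun ⟨a, b, c, d⟩ => ⟨a, b, d, c⟩⟩

/-- the unit over `[x j, y]` -/
theorem unit_x (hf : SBlk Y f) (hY : Y.Normal) {x y j : X} {v v' u u' : X → F}
    (hv : IsUnitOver f Y j v v') (hu : IsUnitOver f Y (x * y * x⁻¹ * y⁻¹) u u') :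
    ∃ w', IsUnitOver f Y (x * j * y * (x * j)⁻¹ * y⁻¹) (mulF (cjF x (mulF v (cjF y v'))) u) w' := by
  have h1 := unit_mul hf hY (unit_conj hf hY
    (unit_mul hf hY hv (unit_conj hf hY (unit_inv hf hY hv) y)) x) hu
  have h2 : x * (j * (y * j⁻¹ * y⁻¹)) * x⁻¹ * (x * y * x⁻¹ * y⁻¹) =
      x * j * y * (x * j)⁻¹ * y⁻¹ := by group
  rw [h2] at h1
  exact ⟨_, h1⟩

/-- the unit over `[x, y j]` -/
theorem unit_y (hf : SBlk Y f) (hY : Y.Normal) {x y j : X} {v v' u u' : X → F}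
    (hv : IsUnitOver f Y j v v') (hu : IsUnitOver f Y (x * y * x⁻¹ * y⁻¹) u u') :
    ∃ w', IsUnitOver f Y (x * (y * j) * x⁻¹ * (y * j)⁻¹) (mulF u (cjF y (mulF (cjF x v) v'))) w' := by
  have h1 := unit_mul hf hY hu (unit_conj hf hY
    (unit_mul hf hY (unit_conj hf hY hv x) (unit_inv hf hY hv)) y)
  have h2 : x * y * x⁻¹ * y⁻¹ * (y * (x * j * x⁻¹ * j⁻¹) * y⁻¹) =
      x * (y * j) * x⁻¹ * (y * j)⁻¹ := by group
  rw [h2] at h1
  exact ⟨_, h1⟩

theorem SS_move_x (hscu : ScuStmt) (hF : GoodF ℓ F) (hf : SBlk Y f) (hY : Y.Normal)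
    (hL : Loc ℓ Y R S) (τ : F → ℂ) {x y j : X}
    (hx : x ∈ S) (hy : y ∈ S) (hj : j ∈ Subgroup.centralizer (R : Set X)) {v v' u u' : X → F}
    (hv : IsUnitOver f Y j v v') (hu : IsUnitOver f Y (x * y * x⁻¹ * y⁻¹) u u') :
    SS τ Y S R f (x * j) y (mulF (cjF x (mulF v (cjF y v'))) u) = SS τ Y S R f x y u := by
  rw [SS, SS, phiS_move_x hF hf hY hL hx hj hv]
  apply finsum_mem_congr rfl
  intro φ hφ
  congr 1
  obtain ⟨w', hw⟩ := unit_x hf hY hv hu
  have hxj : x * j ∈ S := S.mul_mem hx (hL.cent hj)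
  have h1 := hscu ℓ F hF X Y hY f hf R S hL x hx y hy u u' hu φ hφ
  have h2 := hscu ℓ F hF X Y hY f hf R S hL (x * j) hxj y hy _ w' hw φ (by
    rw [phiS_move_x hF hf hY hL hx hj hv]; exact hφ)
  exact (h2.2.2.1 _ (mov_x hF hf hY hL hx hy hj hv hu.left.inv hφ.2.1 h1.2.1)).symm

theorem SS_move_y (hscu : ScuStmt) (hF : GoodF ℓ F) (hf : SBlk Y f) (hY : Y.Normal)
    (hL : Loc ℓ Y R S) (τ : F → ℂ) {x y j : X}
    (hx : x ∈ S) (hy : y ∈ S) (hj : j ∈ Subgroup.centralizer (R : Set X)) {v v' u u' : X → F}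
    (hv : IsUnitOver f Y j v v') (hu : IsUnitOver f Y (x * y * x⁻¹ * y⁻¹) u u') :
    SS τ Y S R f x (y * j) (mulF u (cjF y (mulF (cjF x v) v'))) = SS τ Y S R f x y u := by
  have hphi : phiS Y S f x (y * j) = phiS Y S f x y := by
    rw [phiS_comm, phiS_move_x hF hf hY hL hy hj hv, phiS_comm]
  rw [SS, SS, hphi]
  apply finsum_mem_congr rfl
  intro φ hφ
  congr 1
  obtain ⟨w', hw⟩ := unit_y hf hY hv hu
  have hyj : y * j ∈ S := S.mul_mem hy (hL.cent hj)
  have h1 := hscu ℓ F hF X Y hY f hf R S hL x hx y hy u u' hu φ hφ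
  have h2 := hscu ℓ F hF X Y hY f hf R S hL x hx (y * j) hyj _ w' hw φ (by
    rw [hphi]; exact hφ)
  exact (h2.2.2.1 _ (mov_y hF hf hY hL hx hy hj hv hu.left hφ.2.1 h1.2.1)).symm

/-! ### the pair sums -/

open Classical in
/-- the contribution of a chain -/
def TT1 [Fintype X] (τ : F → ℂ) (Y : Subgroup X) (f : X → F) (x y : X) (u : X → F)
    (t : Finset (Subgroup X)) : ℂ :=
  ∑ n : Y, ∑ m : Y, if x * n ∈ stab t ∧ y * m ∈ stab t then
    (-1 : ℂ) ^ (t.card + 1) * (Nat.card ↥(Y ⊓ stab t) : ℂ)⁻¹ *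
      SS τ Y (stab t) (top t) f (x * n) (y * m) u else 0

open Classical in
theorem DJ_eq [Fintype X] (τ : F → ℂ) (f : X → F) (x y : X) (u : X → F) :
    DJ τ ℓ Y f x y u =
      ∑ t ∈ (chainsOn (psubIn ℓ Y) ⊥).filter NormalChain, TT1 τ Y f x y u t := by
  unfold DJ TT1
  rw [finsum_eq_sum_of_fintype]
  rw [Finset.sum_comm]
  apply Finset.sum_congr rfl
  intro n _
  rw [finsum_eq_sum_of_fintype, Finset.sum_comm]
  apply Finset.sum_congr rfl
  intro m _
  rw [← Finset.sum_filter, Finset.filter_filter]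

theorem comm_mod (hY : Y.Normal) (x y : X) {n m : X} (hn : n ∈ Y) (hm : m ∈ Y) :
    (x * y * x⁻¹ * y⁻¹)⁻¹ * (x * n * (y * m) * (x * n)⁻¹ * (y * m)⁻¹) ∈ Y := by
  have : Y.Normal := hY
  rw [← QuotientGroup.eq]
  have h1 : ((n : X) : X ⧸ Y) = 1 := (QuotientGroup.eq_one_iff n).2 hn
  have h2 : ((m : X) : X ⧸ Y) = 1 := (QuotientGroup.eq_one_iff m).2 hm
  simp only [QuotientGroup.mk_mul, QuotientGroup.mk_inv, h1, h2, mul_one]

theorem comm_mod' (hY : Y.Normal) (x y : X) {n m : X} (hn : n ∈ Y) (hm : m ∈ Y) :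
    (x * n * (y * m) * (x * n)⁻¹ * (y * m)⁻¹)⁻¹ * (x * y * x⁻¹ * y⁻¹) ∈ Y := by
  have h1 := Y.inv_mem (comm_mod hY x y hn hm)
  have h2 : ((x * y * x⁻¹ * y⁻¹)⁻¹ * (x * n * (y * m) * (x * n)⁻¹ * (y * m)⁻¹))⁻¹ =
    (x * n * (y * m) * (x * n)⁻¹ * (y * m)⁻¹)⁻¹ * (x * y * x⁻¹ * y⁻¹) := by group
  rwa [h2] at h1

/-- representatives in the centraliser -/
theorem exists_cent (hF : GoodF ℓ F) (hf : SBlk Y f) (hL : Loc ℓ Y R S) (h0 : br R f ≠ 0) {j : X}
    {v v' : X → F} (hv : IsUnitOver f Y j v v') :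
    ∃ n ∈ Y, j * n ∈ Subgroup.centralizer (R : Set X) := by
  classical
  have h1 : br R f = mulF (br R v) (br R v') := by
    rw [← br_mulF_Y hF hL hv.left.inv hv.right.inv, hv.mul]
  have h2 : br R v ≠ 0 := by
    intro h
    apply h0
    rw [h1, h, zero_mulF]
  obtain ⟨t, ht⟩ : ∃ t, br R v t ≠ 0 := by
    by_contra hc
    push Not at hc
    exact h2 (funext hc)
  by_cases h3 : t ∈ Subgroup.centralizer (R : Set X)
  · simp only [br, if_pos h3] at ht
    refine ⟨j⁻¹ * t, ?_, by rw [mul_inv_cancel_left]; exact h3⟩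
    by_contra hc
    exact ht (hv.left.supp t hc)
  · simp only [br, if_neg h3] at ht
    exact absurd rfl ht

theorem TT1_move_x [Fintype X] (hscu : ScuStmt) (hlct : LctStmt) (hF : GoodF ℓ F) (hf : SBlk Y f)
    (hY : Y.Normal) (τ : F → ℂ) {x y j : X} {v v' u u' : X → F}
    (hv : IsUnitOver f Y j v v') (hu : IsUnitOver f Y (x * y * x⁻¹ * y⁻¹) u u')
    {t : Finset (Subgroup X)} (ht : t ∈ chainsOn (psubIn ℓ Y) ⊥) (htn : NormalChain t) :
    TT1 τ Y f (x * j) y (mulF (cjF x (mulF v (cjF y v'))) u) t = TT1 τ Y f x y u t := by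
  classical
  have hL := hlct ℓ X Y hF.prime t ht htn
  by_cases h0 : br (top t) f = 0
  · unfold TT1
    simp only [SS_zero hF hf hL h0, mul_zero, ite_self, Finset.sum_const_zero]
  · obtain ⟨n0, hn0, hj0⟩ := exists_cent hF hf hL h0 hv
    have hv0 : IsUnitOver f Y (j * n0) v v' := unit_congr hY (by rw [inv_mul_cancel_left]; exact hn0) hv
    have hjS := hL.cent hj0
    unfold TT1
    symm
    apply Fintype.sum_equiv
      (⟨fun n => ⟨j⁻¹ * n * j * n0, Y.mul_mem (by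
          have := hY.conj_mem n n.2 j⁻¹
          rwa [inv_inv] at this) hn0⟩,
        fun n => ⟨j * (n * n0⁻¹) * j⁻¹, hY.conj_mem _ (Y.mul_mem n.2 (Y.inv_mem hn0)) j⟩,
        fun n => Subtype.ext (by
          show j * (j⁻¹ * n * j * n0 * n0⁻¹) * j⁻¹ = n
          group),
        fun n => Subtype.ext (by
          show j⁻¹ * (j * (n * n0⁻¹) * j⁻¹) * j * n0 = n
          group)⟩ : Y ≃ Y)
    intro n
    apply Finset.sum_congr rfl
    intro m _
    show (if x * (n : X) ∈ stab t ∧ y * (m : X) ∈ stab t then _ else _) =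
      if x * j * (j⁻¹ * n * j * n0) ∈ stab t ∧ y * (m : X) ∈ stab t then
        (-1 : ℂ) ^ (t.card + 1) * (Nat.card ↥(Y ⊓ stab t) : ℂ)⁻¹ *
          SS τ Y (stab t) (top t) f (x * j * (j⁻¹ * n * j * n0)) (y * m)
            (mulF (cjF x (mulF v (cjF y v'))) u) else 0
    have e1 : x * j * (j⁻¹ * n * j * n0) = x * n * (j * n0) := by group
    rw [e1]
    by_cases hc : x * (n : X) ∈ stab t ∧ y * (m : X) ∈ stab t
    · have hc' : x * (n : X) * (j * n0) ∈ stab t ∧ y * (m : X) ∈ stab t :=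
        ⟨(stab t).mul_mem hc.1 hjS, hc.2⟩
      rw [if_pos hc, if_pos hc']
      congr 1
      have hu' := unit_congr hY (comm_mod hY x y n.2 m.2) hu
      have h5 := SS_move_x hscu hF hf hY hL τ hc.1 hc.2 hj0 hv0 hu'
      rw [← h5]
      congr 2
      -- the units agree
      rw [← cjF_cjF x (n : X), ← cjF_cjF y (m : X), cjF_of_inv hv.right.inv m.2]
      rw [cjF_of_inv (CE_mul hf hY hv.left (CE_cj hf hY hv.right y)).inv n.2]
    · have hc' : ¬ (x * (n : X) * (j * n0) ∈ stab t ∧ y * (m : X) ∈ stab t) := by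
        rintro ⟨h6, h7⟩
        apply hc
        refine ⟨?_, h7⟩
        have := (stab t).mul_mem h6 ((stab t).inv_mem hjS)
        rwa [mul_inv_cancel_right] at this
      rw [if_neg hc, if_neg hc']

theorem TT1_move_y [Fintype X] (hscu : ScuStmt) (hlct : LctStmt) (hF : GoodF ℓ F) (hf : SBlk Y f)
    (hY : Y.Normal) (τ : F → ℂ) {x y j : X} {v v' u u' : X → F}
    (hv : IsUnitOver f Y j v v') (hu : IsUnitOver f Y (x * y * x⁻¹ * y⁻¹) u u')
    {t : Finset (Subgroup X)} (ht : t ∈ chainsOn (psubIn ℓ Y) ⊥) (htn : NormalChain t) :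
    TT1 τ Y f x (y * j) (mulF u (cjF y (mulF (cjF x v) v'))) t = TT1 τ Y f x y u t := by
  classical
  have hL := hlct ℓ X Y hF.prime t ht htn
  by_cases h0 : br (top t) f = 0
  · unfold TT1
    simp only [SS_zero hF hf hL h0, mul_zero, ite_self, Finset.sum_const_zero]
  · obtain ⟨n0, hn0, hj0⟩ := exists_cent hF hf hL h0 hv
    have hv0 : IsUnitOver f Y (j * n0) v v' := unit_congr hY (by rw [inv_mul_cancel_left]; exact hn0) hv
    have hjS := hL.cent hj0
    unfold TT1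
    apply Finset.sum_congr rfl
    intro n _
    symm
    apply Fintype.sum_equiv
      (⟨fun n => ⟨j⁻¹ * n * j * n0, Y.mul_mem (by
          have := hY.conj_mem n n.2 j⁻¹
          rwa [inv_inv] at this) hn0⟩,
        fun n => ⟨j * (n * n0⁻¹) * j⁻¹, hY.conj_mem _ (Y.mul_mem n.2 (Y.inv_mem hn0)) j⟩,
        fun n => Subtype.ext (by
          show j * (j⁻¹ * n * j * n0 * n0⁻¹) * j⁻¹ = n
          group),
        fun n => Subtype.ext (by
          show j⁻¹ * (j * (n * n0⁻¹) * j⁻¹) * j * n0 = n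
          group)⟩ : Y ≃ Y)
    intro m
    show (if x * (n : X) ∈ stab t ∧ y * (m : X) ∈ stab t then _ else _) =
      if x * (n : X) ∈ stab t ∧ y * j * (j⁻¹ * m * j * n0) ∈ stab t then
        (-1 : ℂ) ^ (t.card + 1) * (Nat.card ↥(Y ⊓ stab t) : ℂ)⁻¹ *
          SS τ Y (stab t) (top t) f (x * n) (y * j * (j⁻¹ * m * j * n0))
            (mulF u (cjF y (mulF (cjF x v) v'))) else 0
    have e1 : y * j * (j⁻¹ * m * j * n0) = y * m * (j * n0) := by group
    rw [e1]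
    by_cases hc : x * (n : X) ∈ stab t ∧ y * (m : X) ∈ stab t
    · have hc' : x * (n : X) ∈ stab t ∧ y * (m : X) * (j * n0) ∈ stab t :=
        ⟨hc.1, (stab t).mul_mem hc.2 hjS⟩
      rw [if_pos hc, if_pos hc']
      congr 1
      have hu' := unit_congr hY (comm_mod hY x y n.2 m.2) hu
      have h5 := SS_move_y hscu hF hf hY hL τ hc.1 hc.2 hj0 hv0 hu'
      rw [← h5]
      congr 2
      -- the units agree
      rw [← cjF_cjF x (n : X), ← cjF_cjF y (m : X), cjF_of_inv hv.left.inv n.2]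
      rw [cjF_of_inv (CE_mul hf hY (CE_cj hf hY hv.left x) hv.right).inv m.2]
    · have hc' : ¬ (x * (n : X) ∈ stab t ∧ y * (m : X) * (j * n0) ∈ stab t) := by
        rintro ⟨h6, h7⟩
        apply hc
        refine ⟨h6, ?_⟩
        have := (stab t).mul_mem h7 ((stab t).inv_mem hjS)
        rwa [mul_inv_cancel_right] at this
      rw [if_neg hc, if_neg hc']

theorem mov (hscu : ScuStmt) (hlct : LctStmt) : MovStmt := by
  intro ℓ F _ hF τ _ X _ _ Y hY f hf x y hxy j hj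
  have hfin := Fintype.ofFinite X
  classical
  obtain ⟨v, v', hv⟩ := (mem_XF hf hY).1 hj
  refine ⟨fun hD w w' hw => ?_, fun hD w w' hw => ?_⟩
  · -- the unit `u` with `w = w₀ u`
    have hw0 := unit_conj hf hY (unit_mul hf hY hv (unit_conj hf hY (unit_inv hf hY hv) y)) x
    have hu := unit_mul hf hY (unit_inv hf hY hw0) hw
    have e1 : (x * (j * (y * j⁻¹ * y⁻¹)) * x⁻¹)⁻¹ * (x * j * y * (x * j)⁻¹ * y⁻¹) =
        x * y * x⁻¹ * y⁻¹ := by group
    rw [e1] at hu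
    have h1 := hD _ _ hu
    have e2 : mulF (cjF x (mulF v (cjF y v')))
        (mulF (cjF x (mulF (cjF y v) v')) w) = w := by
      have h2 := hw0.mul
      rw [← mulF_assoc, h2, hw.left.abs]
    rw [DJ_eq, ← e2]
    rw [DJ_eq] at h1
    refine Eq.trans (Finset.sum_congr rfl fun t ht => ?_) h1
    rw [Finset.mem_filter] at ht
    exact TT1_move_x hscu hlct hF hf hY τ hv hu ht.1 ht.2
  · have hw0 := unit_conj hf hY (unit_mul hf hY (unit_conj hf hY hv x) (unit_inv hf hY hv)) y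
    have hu := unit_mul hf hY hw (unit_inv hf hY hw0)
    have e1 : (x * (y * j) * x⁻¹ * (y * j)⁻¹) * (y * (x * j * x⁻¹ * j⁻¹) * y⁻¹)⁻¹ =
        x * y * x⁻¹ * y⁻¹ := by group
    rw [e1] at hu
    have h1 := hD _ _ hu
    have e2 : mulF (mulF w (cjF y (mulF v (cjF x v')))) (cjF y (mulF (cjF x v) v')) = w := by
      have h2 := (unit_inv hf hY hw0).mul
      have h3 : mulF w f = w := by
        rw [← mulF_comm_of_cl hf.cl, hw.left.abs]
      rw [mulF_assoc, h2, h3]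
    rw [DJ_eq, ← e2]
    rw [DJ_eq] at h1
    refine Eq.trans (Finset.sum_congr rfl fun t ht => ?_) h1
    rw [Finset.mem_filter] at ht
    exact TT1_move_y hscu hlct hF hf hY τ hv hu ht.1 ht.2

/-- UNI -/
theorem uni (hloc : LocStmt) (hscu : ScuStmt) (hlct : LctStmt) : UniStmt := by
  intro ℓ F _ hF τ hτ X _ _ Y hY f hf x y u u' hu hD w w' hw
  have hfin := Fintype.ofFinite X
  classical
  -- `w = z u`
  have hz := unit_mul hf hY hw (unit_inv hf hY hu)
  rw [mul_inv_cancel] at hz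
  have hz' : CE f Y 1 (mulF u w') := by
    have := hz.right
    rwa [inv_one] at this
  have hw2 : mulF (mulF w u') u = w := by
    rw [mulF_assoc, unit_symm hf hY hu, ← mulF_comm_of_cl hf.cl, hw.left.abs]
  obtain ⟨-, -, hlf, hlm, -⟩ := hloc ℓ F hF X Y hY f hf
  have hlam : lamJ f (mulF w u') ≠ 0 := by
    intro h
    have h1 := (hlm _ _ hz.left hz').1
    rw [hz.mul, hlf, h, zero_mul] at h1
    exact one_ne_zero h1
  have key : DJ τ ℓ Y f x y w = τ (lamJ f (mulF w u')) * DJ τ ℓ Y f x y u := by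
    rw [DJ_eq, DJ_eq, Finset.mul_sum]
    apply Finset.sum_congr rfl
    intro t ht
    rw [Finset.mem_filter] at ht
    have hL := hlct ℓ X Y hF.prime t ht.1 ht.2
    unfold TT1
    rw [Finset.mul_sum]
    apply Finset.sum_congr rfl
    intro n _
    rw [Finset.mul_sum]
    apply Finset.sum_congr rfl
    intro m _
    by_cases hc : x * (n : X) ∈ stab t ∧ y * (m : X) ∈ stab t
    · rw [if_pos hc, if_pos hc]
      have hu' := unit_congr hY (comm_mod hY x y n.2 m.2) hu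
      have hss : SS τ Y (stab t) (top t) f (x * n) (y * m) w =
          τ (lamJ f (mulF w u')) * SS τ Y (stab t) (top t) f (x * n) (y * m) u := by
        have hphi : (phiS Y (stab t) f (x * n) (y * m)).Finite :=
          (ibf ℓ F hF ↥(Y ⊓ stab t)).1.subset (fun φ hφ => hφ.1)
        rw [SS, SS, mul_finsum_mem]
        apply finsum_mem_congr rfl
        intro φ hφ
        have h2 := hscu ℓ F hF X Y hY f hf (top t) (stab t) hL (x * n) hc.1 (y * m) hc.2 u u' hu'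
          φ hφ
        have h3 := h2.2.2.2.1 _ _ hz.left hz' hz.mul
        rw [hw2] at h3
        rw [h3, hτ.mul _ _ hlam h2.1]
      rw [hss]
      ring
    · rw [if_neg hc, if_neg hc, mul_zero]
  rw [key, hD, mul_zero]

end Pool.Agent.PP.H20
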